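import Pool.Agent.P.MP_271f8e_al.AfT

/-! The action on affine four-space, and the induced algebra as a ring of invariants. -/

namespace Pool.Agent.P.MP_271f8e_al.Af

open Polynomial

universe u

variable {k : Type u} [Field k] {n : ℕ}

/-- Polynomials in four variables. -/
abbrev P4 (A : Type u) [CommRing A] : Type u := MvPolynomial (Fin 4) A

variable (n) in
/-- The substitution attached to an element of the Borel subgroup. -/
noncomputable def actR (b : borel k) : P4 k →ₐ[k] P4 k :=
  MvPolynomial.aeval ![b.1.1 0 0 • MvPolynomial.X 0,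
    b.1.1 0 1 ^ (n + 3) • MvPolynomial.X 0 ^ (n + 3) + b.1.1 1 1 ^ (n + 3) • MvPolynomial.X 1,
    b.1.1 1 1 • MvPolynomial.X 2, b.1.1 1 1 • MvPolynomial.X 3]

lemma actR_0 (b : borel k) : actR n b (MvPolynomial.X 0) = b.1.1 0 0 • MvPolynomial.X 0 := by
  simp [actR]

lemma actR_1 (b : borel k) : actR n b (MvPolynomial.X 1) =
    b.1.1 0 1 ^ (n + 3) • MvPolynomial.X 0 ^ (n + 3) + b.1.1 1 1 ^ (n + 3) • MvPolynomial.X 1 := by
  simp [actR]

lemma actR_2 (b : borel k) : actR n b (MvPolynomial.X 2) = b.1.1 1 1 • MvPolynomial.X 2 := by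
  simp [actR]

lemma actR_3 (b : borel k) : actR n b (MvPolynomial.X 3) = b.1.1 1 1 • MvPolynomial.X 3 := by
  simp [actR]

lemma ext4 {A : Type*} [CommRing A] [Algebra k A] {f g : P4 k →ₐ[k] A}
    (h0 : f (MvPolynomial.X 0) = g (MvPolynomial.X 0))
    (h1 : f (MvPolynomial.X 1) = g (MvPolynomial.X 1))
    (h2 : f (MvPolynomial.X 2) = g (MvPolynomial.X 2))
    (h3 : f (MvPolynomial.X 3) = g (MvPolynomial.X 3)) : f = g :=
  MvPolynomial.algHom_ext fun i => by
    fin_cases i
    exacts [h0, h1, h2, h3]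

lemma actR_one : actR n (1 : borel k) = AlgHom.id k _ :=
  ext4 (by simp [actR_0]) (by simp [actR_1]) (by simp [actR_2]) (by simp [actR_3])

lemma borel_mul01 (a b : borel k) :
    (a * b).1.1 0 1 = a.1.1 0 0 * b.1.1 0 1 + a.1.1 0 1 * b.1.1 1 1 := by
  simp [Matrix.mul_apply, Fin.sum_univ_two]

lemma actR_mul (hq : FrAdd k n) (a b : borel k) :
    actR n (a * b) = (actR n a).comp (actR n b) := by
  refine ext4 ?_ ?_ ?_ ?_
  · rw [AlgHom.comp_apply, actR_0, actR_0, map_smul, actR_0, borel_mul0, smul_smul, mul_comm]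
  · rw [AlgHom.comp_apply, actR_1, actR_1, map_add, map_smul, map_smul, map_pow, actR_0, actR_1,
      borel_mul01, borel_mul, hq]
    simp only [_root_.smul_pow, mul_pow]
    module
  · rw [AlgHom.comp_apply, actR_2, actR_2, map_smul, actR_2, borel_mul, smul_smul, mul_comm]
  · rw [AlgHom.comp_apply, actR_3, actR_3, map_smul, actR_3, borel_mul, smul_smul, mul_comm]

/-- The action by automorphisms. -/
noncomputable def rhoR (hq : FrAdd k n) : borel k →* (P4 k ≃ₐ[k] P4 k) where
  toFun b := AlgEquiv.ofAlgHom (actR n b) (actR n b⁻¹)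
    (by rw [← actR_mul hq, mul_inv_cancel, actR_one])
    (by rw [← actR_mul hq, inv_mul_cancel, actR_one])
  map_one' := AlgEquiv.ext fun p => DFunLike.congr_fun actR_one p
  map_mul' a b := AlgEquiv.ext fun p => DFunLike.congr_fun (actR_mul hq a b) p

lemma rhoR_apply (hq : FrAdd k n) (b : borel k) (r : P4 k) : rhoR hq b r = actR n b r := rfl

lemma rhoR_rational (hq : FrAdd k n) (r : P4 k) :
    (fun b : borel k => rhoR hq b r) ∈ morphisms k (P4 k) (fun b : borel k => b.1) := by
  have key : ∀ (i j : Fin 2) (m : ℕ) (a : P4 k), (fun b : borel k => b.1.1 i j ^ m • a) ∈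
      morphisms k (P4 k) (fun b : borel k => b.1) := fun i j m a => by
    have := Subalgebra.smul_mem _ (pow_mem (entry_mem (P4 k) (fun b : borel k => b.1) i j) m) a
    simpa [Algebra.smul_def, mul_comm, Pi.mul_def, Pi.pow_def] using this
  simp only [rhoR_apply]
  induction r using MvPolynomial.induction_on with
  | C a =>
    simp only [MvPolynomial.algHom_C]
    exact (morphisms k (P4 k) (fun b : borel k => b.1)).algebraMap_mem (algebraMap k (P4 k) a)
  | add p q hp hq' =>
    simp only [map_add]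
    exact add_mem hp hq'
  | mul_X p i hp =>
    simp only [map_mul]
    refine mul_mem hp (?_ : (fun b : borel k => actR n b (MvPolynomial.X i)) ∈ _)
    fin_cases i
    · simpa [actR_0] using key 0 0 1 _
    · change (fun b : borel k => actR n b (MvPolynomial.X 1)) ∈ _
      simp only [actR_1]
      exact add_mem (key 0 1 (n + 3) _) (key 1 1 (n + 3) _)
    · simpa [actR_2] using key 1 1 1 _
    · simpa [actR_3] using key 1 1 1 _

section ev

variable (hq : FrAdd k n) {A : Type u} [CommRing A] [Algebra k A]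

/-- The point of the total ring over a point of `SL_2` and a point of affine space. -/
noncomputable def liftT (γ : SL2 A) (x y w1 w2 : A) : TT k n →ₐ[k] A :=
  aevalTower (aevalTower (lift1 γ
    (fun i => γ.1 i 0 ^ (n + 3) * y - γ.1 i 1 ^ (n + 3) * x ^ (n + 3)) x (by
      linear_combination -x ^ (n + 3) * hq.det γ)) w1) w2

variable (γ : SL2 A) (x y w1 w2 : A)

lemma liftT_h (i j : Fin 2) : liftT hq γ x y w1 w2 (jT k n (hT k n i j)) = γ.1 i j := by
  rw [liftT, jT_apply, aevalTower_C, aevalTower_C, lift1_h]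

lemma liftT_u (i : Fin 2) : liftT hq γ x y w1 w2 (jT k n (uT k n i)) =
    γ.1 i 0 ^ (n + 3) * y - γ.1 i 1 ^ (n + 3) * x ^ (n + 3) := by
  rw [liftT, jT_apply, aevalTower_C, aevalTower_C, lift1_u]

lemma liftT_x : liftT hq γ x y w1 w2 (jT k n (xT k n)) = x := by
  rw [liftT, jT_apply, aevalTower_C, aevalTower_C, lift1_x]

lemma liftT_w1 : liftT hq γ x y w1 w2 (C X) = w1 := by
  rw [liftT, aevalTower_C, aevalTower_X]

lemma liftT_w2 : liftT hq γ x y w1 w2 X = w2 := by
  rw [liftT, aevalTower_X]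

lemma liftT_map {A' : Type u} [CommRing A'] [Algebra k A'] (f : A →ₐ[k] A') (τ : TT k n) :
    f (liftT hq γ x y w1 w2 τ) = liftT hq (mapS f γ) (f x) (f y) (f w1) (f w2) τ :=
  DFunLike.congr_fun (extT (f := f.comp (liftT hq γ x y w1 w2))
    (fun i j => by rw [AlgHom.comp_apply, liftT_h, liftT_h, mapS_apply])
    (fun i => by simp only [AlgHom.comp_apply, liftT_u, mapS_apply, map_sub, map_mul, map_pow])
    (by rw [AlgHom.comp_apply, liftT_x, liftT_x]) (by rw [AlgHom.comp_apply, liftT_w1, liftT_w1])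
    (by rw [AlgHom.comp_apply, liftT_w2, liftT_w2])) τ

end ev

variable (k n) in
/-- The universal point over the total ring. -/
noncomputable def hU : SL2 (TT k n) := mapS ((jT k n).comp ((iT k n).comp (cC k))) (hC k)

lemma hU_apply (i j : Fin 2) : (hU k n).1 i j = jT k n (hT k n i j) := rfl

variable (k n) in
/-- The coordinate `y` in the total ring. -/
noncomputable def yU : TT k n :=
  jT k n (hT k n 1 1) ^ (n + 3) * jT k n (uT k n 0) -
    jT k n (hT k n 0 1) ^ (n + 3) * jT k n (uT k n 1)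

lemma liftT_y (hq : FrAdd k n) {A : Type u} [CommRing A] [Algebra k A] (γ : SL2 A)
    (x y w1 w2 : A) : liftT hq γ x y w1 w2 (yU k n) = y := by
  simp only [yU, map_sub, map_mul, map_pow, liftT_h, liftT_u]
  linear_combination y * hq.det γ

lemma liftT_id (hq : FrAdd k n) (τ : TT k n) :
    liftT hq (hU k n) (jT k n (xT k n)) (yU k n) (C X) X τ = τ := by
  have hx := congrArg (jT k n) (xT_eq (k := k) (n := n))
  have hd := hq.det (hU k n)
  simp only [map_add, map_sub, map_mul, map_pow, map_zero, hU_apply] at hx hd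
  refine DFunLike.congr_fun (extT (g := AlgHom.id k _) (fun i j => liftT_h _ _ _ _ _ _ i j)
    (fun i => ?_) (liftT_x _ _ _ _ _ _) (liftT_w1 _ _ _ _ _ _) (liftT_w2 _ _ _ _ _ _)) τ
  rw [liftT_u, AlgHom.id_apply, yU]
  fin_cases i
  · change jT k n (hT k n 0 0) ^ (n + 3) * _ - jT k n (hT k n 0 1) ^ (n + 3) * _ =
      jT k n (uT k n 0)
    linear_combination jT k n (uT k n 0) * hd - jT k n (hT k n 0 1) ^ (n + 3) * hx
  · change jT k n (hT k n 1 0) ^ (n + 3) * _ - jT k n (hT k n 1 1) ^ (n + 3) * _ =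
      jT k n (uT k n 1)
    linear_combination jT k n (uT k n 1) * hd - jT k n (hT k n 1 1) ^ (n + 3) * hx

/-- The value at a rational point. -/
noncomputable def ev (hq : FrAdd k n) (g : SL2 k) : TT k n →ₐ[k] P4 k :=
  liftT hq (upS _ g) (MvPolynomial.X 0) (MvPolynomial.X 1) (MvPolynomial.X 2) (MvPolynomial.X 3)

lemma upS_apply {A : Type*} [CommRing A] [Algebra k A] (g : SL2 k) (i j : Fin 2) :
    (upS A g).1 i j = algebraMap k A (g.1 i j) := rfl

lemma ev_zero [Infinite k] (hq : FrAdd k n) {τ : TT k n} (h : ∀ g, ev hq g τ = 0) : τ = 0 := by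
  let θ : TT k n →ₐ[k] P4 (CG k) := liftT hq (mapS (IsScalarTower.toAlgHom k _ _) (hC k))
    (MvPolynomial.X 0) (MvPolynomial.X 1) (MvPolynomial.X 2) (MvPolynomial.X 3)
  have h1 : θ τ = 0 := by
    refine MvPolynomial.ext _ _ fun d => CG_zero fun g => ?_
    have e : MvPolynomial.mapAlgHom (liftC g) (θ τ) = ev hq g τ := by
      rw [liftT_map, ev]
      congr 2
      · ext i j
        simp [mapS_apply, upS_apply, liftC_h]
      all_goals simp
    have := congrArg (MvPolynomial.coeff d) (e.trans (h g))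
    simpa [MvPolynomial.coeff_map] using this
  let ψ : P4 (CG k) →ₐ[k] TT k n :=
    MvPolynomial.aevalTower ((jT k n).comp ((iT k n).comp (cC k)))
      ![jT k n (xT k n), yU k n, C X, X]
  have h2 : ψ (θ τ) = τ := by
    rw [liftT_map]
    refine Eq.trans ?_ (liftT_id hq τ)
    congr 2
    · ext i j
      simp [mapS_apply, ψ, hU]
    all_goals simp [ψ]
  rw [← h2, h1, map_zero]

lemma ev_act (hq : FrAdd k n) (g : SL2 k) (b : borel k) (τ : TT k n) :
    actR n b (ev hq (g * b.1) τ) = ev hq g (actT b τ) := by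
  have h0 : b.1.1 1 0 = 0 := b.2
  have hd := borel_det b
  have e : ∀ i j, (g * b.1).1 i j = g.1 i 0 * b.1.1 0 j + g.1 i 1 * b.1.1 1 j := fun i j => by
    simp [Matrix.mul_apply]
  refine DFunLike.congr_fun (extT (f := (actR n b).comp (ev hq (g * b.1)))
    (g := (ev hq g).comp (actT b)) (fun i j => ?_) (fun i => ?_) ?_ ?_ ?_) τ
  · simp only [AlgHom.comp_apply, ev, actT_j, act1_h, map_add, liftT_h, upS_apply,
      AlgHom.commutes, e, map_mul, Algebra.smul_def, mul_comm]
  · simp only [AlgHom.comp_apply, ev, actT_j, act1_u, liftT_u, upS_apply, map_sub, map_mul,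
      map_pow, AlgHom.commutes, actR_0, actR_1, e, h0, mul_zero, add_zero, map_add, hq (P4 k),
      Algebra.smul_def, mul_pow]
    have h1 := congrArg (fun c => algebraMap k (P4 k) c ^ (n + 3)) hd
    simp only [map_mul, mul_pow, map_one, one_pow] at h1
    linear_combination (algebraMap k (P4 k) (g.1 i 0) ^ (n + 3) * MvPolynomial.X 1 -
      algebraMap k (P4 k) (g.1 i 1) ^ (n + 3) * MvPolynomial.X 0 ^ (n + 3)) * h1
  · simp only [AlgHom.comp_apply, ev, actT_j, act1_x, map_smul, liftT_x, actR_0]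
  · simp only [AlgHom.comp_apply, ev, actT_w1, map_smul, liftT_w1, actR_2]
  · simp only [AlgHom.comp_apply, ev, actT_w2, map_smul, liftT_w2, actR_3]

/-- Elements of the total ring as maps on the group. -/
noncomputable def Phi (hq : FrAdd k n) : TT k n →ₐ[k] (SL2 k → P4 k) := AlgHom.pi (ev hq)

lemma Phi_apply (hq : FrAdd k n) (τ : TT k n) (g : SL2 k) : Phi hq τ g = ev hq g τ := rfl

lemma Phi_inj [Infinite k] (hq : FrAdd k n) : Function.Injective (Phi hq) :=
  (injective_iff_map_eq_zero _).2 fun _ h => ev_zero hq fun g => congrFun h g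

lemma gen_top (B : Subalgebra k (TT k n)) (hh : ∀ i j, jT k n (hT k n i j) ∈ B)
    (hu : ∀ i, jT k n (uT k n i) ∈ B) (hx : jT k n (xT k n) ∈ B) (h1 : C X ∈ B) (h2 : X ∈ B)
    (hq : FrAdd k n) (τ : TT k n) : τ ∈ B := by
  let γ : SL2 B := ⟨Matrix.of fun i j => ⟨jT k n (hT k n i j), hh i j⟩, Subtype.ext (by
    simpa [Matrix.det_fin_two, hU_apply] using (Matrix.det_fin_two _).symm.trans (hU k n).2)⟩
  have hy : yU k n ∈ B :=
    sub_mem (mul_mem (pow_mem (hh 1 1) _) (hu 0)) (mul_mem (pow_mem (hh 0 1) _) (hu 1))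
  have e := liftT_map hq γ ⟨_, hx⟩ ⟨_, hy⟩ ⟨_, h1⟩ ⟨_, h2⟩ B.val τ
  have e' : mapS B.val γ = hU k n := Matrix.SpecialLinearGroup.ext _ _ fun i j => rfl
  rw [e'] at e
  rw [← liftT_id hq τ]
  exact e ▸ Subtype.prop _

lemma Phi_mem (hq : FrAdd k n) (τ : TT k n) : Phi hq τ ∈ morphisms k (P4 k) fun g => g := by
  have c : ∀ r : P4 k, (fun _ : SL2 k => r) ∈ morphisms k (P4 k) fun g => g := fun r =>
    (morphisms k (P4 k) fun g => g).algebraMap_mem r
  have hh : ∀ i j, (fun g : SL2 k => algebraMap k (P4 k) (g.1 i j)) ∈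
      morphisms k (P4 k) fun g => g := entry_mem (P4 k) (fun g : SL2 k => g)
  refine gen_top (((morphisms k (P4 k) fun g : SL2 k => g).restrictScalars k).comap (Phi hq))
    (fun i j => ?_) (fun i => ?_) ?_ ?_ ?_ hq τ
  · change (fun g => ev hq g _) ∈ morphisms _ _ _
    simp only [ev, liftT_h, upS_apply]
    exact hh i j
  · change (fun g => ev hq g _) ∈ morphisms _ _ _
    simp only [ev, liftT_u, upS_apply]
    exact sub_mem (mul_mem (pow_mem (hh i 0) _) (c _)) (mul_mem (pow_mem (hh i 1) _) (c _))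
  · change (fun g => ev hq g _) ∈ morphisms _ _ _
    simp only [ev, liftT_x]
    exact c _
  · change (fun g => ev hq g _) ∈ morphisms _ _ _
    simp only [ev, liftT_w1]
    exact c _
  · change (fun g => ev hq g _) ∈ morphisms _ _ _
    simp only [ev, liftT_w2]
    exact c _

lemma Phi_surj (hq : FrAdd k n) {f : SL2 k → P4 k} (hf : f ∈ morphisms k (P4 k) fun g => g) :
    ∃ τ, Phi hq τ = f := by
  induction hf using Algebra.adjoin_induction with
  | mem x hx =>
    obtain ⟨ij, rfl⟩ := hx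
    exact ⟨jT k n (hT k n ij.1 ij.2), funext fun g => liftT_h hq _ _ _ _ _ _ _⟩
  | algebraMap r =>
    refine ⟨MvPolynomial.aeval ![jT k n (xT k n), yU k n, C X, X] r, funext fun g => ?_⟩
    exact DFunLike.congr_fun (ext4 (f := (ev hq g).comp
      (MvPolynomial.aeval ![jT k n (xT k n), yU k n, C X, X])) (g := AlgHom.id k _)
      (by simp [ev, liftT_x]) (by simp [ev, liftT_y]) (by simp [ev, liftT_w1])
      (by simp [ev, liftT_w2])) r
  | add x y _ _ hx hy =>
    obtain ⟨a, rfl⟩ := hx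
    obtain ⟨b, rfl⟩ := hy
    exact ⟨a + b, map_add _ _ _⟩
  | mul x y _ _ hx hy =>
    obtain ⟨a, rfl⟩ := hx
    obtain ⟨b, rfl⟩ := hy
    exact ⟨a * b, map_mul _ _ _⟩

variable (k n) in
/-- The invariants of the total ring. -/
def InvA : Subalgebra k (TT k n) where
  carrier := {r | ∀ b, actT b r = r}
  add_mem' := fun h h' b => by rw [map_add, h b, h' b]
  mul_mem' := fun h h' b => by rw [map_mul, h b, h' b]
  algebraMap_mem' := fun c b => AlgHom.commutes _ _

lemma induced_eq [Infinite k] (hq : FrAdd k n) :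
    (InvA k n).map (Phi hq) = induced (rhoR hq) := by
  refine le_antisymm ?_ fun f hf => ?_
  · rintro _ ⟨τ, hτ, rfl⟩
    refine ⟨Phi_mem hq τ, fun g b => ?_⟩
    have := ev_act hq g b τ
    rw [hτ b, ← rhoR_apply hq] at this
    change ev hq _ τ = rhoR hq b⁻¹ (ev hq g τ)
    rw [← this, map_inv]
    exact ((rhoR hq b).symm_apply_apply _).symm
  · obtain ⟨τ, rfl⟩ := Phi_surj hq hf.1
    refine ⟨τ, fun b => Phi_inj hq (funext fun g => ?_), rfl⟩
    rw [Phi_apply, ← ev_act, ← Phi_apply, hf.2 g b, ← rhoR_apply hq, map_inv]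
    exact (rhoR hq b).apply_symm_apply _

/-- The induced algebra is the ring of invariants of the total ring. -/
noncomputable def indEquiv [Infinite k] (hq : FrAdd k n) : InvA k n ≃ₐ[k] induced (rhoR hq) :=
  ((InvA k n).equivMapOfInjective _ (Phi_inj hq)).trans
    (Subalgebra.equivOfEq _ _ (induced_eq hq))

end Pool.Agent.P.MP_271f8e_al.Af
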