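import Pool.Agent.P.MP_271f8e_al.AfInd

/-! Semi-invariants of the root cover, and finite generation of the invariants. -/

namespace Pool.Agent.P.MP_271f8e_al.Af

open Polynomial

universe u

variable {k : Type u} [Field k] {n : ℕ}

lemma wt_coeff {i m : ℕ} {φ : C2 k} (h : φ ∈ Wt act2 i m) (d : Fin 2 →₀ ℕ) :
    φ.coeff d ∈ Wt actC i m := fun b => by
  have := congrArg (MvPolynomial.coeff d) (h b)
  rwa [MvPolynomial.coeff_smul, MvPolynomial.coeff_smul, act2_coeff] at this

lemma wt_mono {i m : ℕ} {a : CG k} (h : a ∈ Wt actC i m) (d : Fin 2 →₀ ℕ) :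
    MvPolynomial.monomial d a ∈ Wt act2 i m := fun b => by
  have e : act2 b (MvPolynomial.monomial d a) = MvPolynomial.monomial d (actC b a) := by
    simp [act2]
  rw [e, MvPolynomial.smul_monomial, MvPolynomial.smul_monomial, h b]

lemma wt_iT {i m : ℕ} {φ : C2 k} (h : φ ∈ Wt act2 i m) : iT k n φ ∈ Wt act1 i m := fun b => by
  rw [act1_i, ← map_smul, h b, map_smul]

lemma xT_wt : xT k n ∈ Wt act1 0 1 := fun b => by simp [act1_x]

lemma uT_wt (i : Fin 2) : uT k n i ∈ Wt act1 0 0 := fun b => by simp [act1_u]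

lemma hT_wt (i : Fin 2) : hT k n i 0 ∈ Wt act1 0 1 := fun b => by
  have h0 : b.1.1 1 0 = 0 := b.2
  simp [act1_h, h0]

lemma exists_coord : ∃ co : Fin (n + 3) → T1 k n →ₗ[C2 k] C2 k,
    (∀ r, r = ∑ i, iT k n (co i r) * xT k n ^ (i : ℕ)) ∧ co (Fin.last _) (xT k n ^ (n + 2)) = 1 ∧
    ∀ (i : Fin (n + 3)) m r, r ∈ Wt act1 0 m → co i r ∈ Wt act2 i m := by
  obtain ⟨B, hB⟩ := exists_basis (k := k) (n := n)
  have h1 : ∀ r, r = ∑ i, iT k n (B.coord i r) * xT k n ^ (i : ℕ) := fun r => by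
    have := (B.sum_repr r).symm
    simp only [hB, Algebra.smul_def] at this
    exact this
  refine ⟨B.coord, h1, by simpa using congrArg (B.coord (Fin.last _)) (hB (Fin.last _)).symm,
    fun i m r hr b => ?_⟩
  have h2 : act1 b r = ∑ j : Fin (n + 3), (b.1.1 0 0 ^ (j : ℕ) • act2 b (B.coord j r)) • B j := by
    conv_lhs => rw [h1 r]
    simp only [map_sum, map_mul, map_pow, act1_i, act1_x, _root_.smul_pow, hB, smul_assoc,
      mul_smul_comm]
    exact Finset.sum_congr rfl fun j _ => congrArg _ (Algebra.smul_def _ _).symm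
  have h3 := congrArg (B.coord i) (hr b)
  rwa [pow_zero, one_smul, h2, B.coord_apply, B.repr_sum_self, LinearMap.map_smul_of_tower] at h3

lemma mon_inv {a : T1 k n} (i j : ℕ) (h : a ∈ Wt act1 0 (i + j)) :
    jT k n a * C X ^ i * X ^ j ∈ InvA k n := fun b => by
  have := h b
  rw [pow_zero, one_smul] at this
  simp only [map_mul, map_pow, actT_j, actT_w1, actT_w2, this, map_smul, _root_.smul_pow,
    smul_mul_smul_comm]
  rw [mul_assoc, ← pow_add, ← mul_pow, borel_det, one_pow, one_smul]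

lemma coeff_wt {r : TT k n} (h : r ∈ InvA k n) (i j : ℕ) :
    (r.coeff j).coeff i ∈ Wt act1 0 (i + j) := fun b => by
  have := congrArg (fun p : TT k n => (p.coeff j).coeff i) (h b)
  simp only [actT, ext1_coeff, coeff_smul] at this
  conv_rhs => rw [← this]
  rw [smul_smul, smul_smul, mul_assoc, ← pow_add, add_comm j, ← mul_pow, borel_det, one_pow,
    pow_zero]

lemma mem_of_mon {S : Type*} [SetLike S (TT k n)] [AddSubmonoidClass S (TT k n)] {s : S}
    {r z : TT k n} (h : ∀ i j, jT k n ((r.coeff j).coeff i) * C X ^ i * X ^ j * z ∈ s) :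
    r * z ∈ s := by
  rw [r.as_sum_support_C_mul_X_pow, Finset.sum_mul]
  refine sum_mem fun j _ => ?_
  rw [(r.coeff j).as_sum_support_C_mul_X_pow, map_sum, Finset.sum_mul, Finset.sum_mul]
  refine sum_mem fun i _ => ?_
  simpa only [jT_apply, map_mul, map_pow] using h i j

variable [Infinite k]

lemma wt2_neg {i m : ℕ} {φ : C2 k} (h : φ ∈ Wt act2 i m) (hm : m < i) : φ = 0 :=
  MvPolynomial.ext _ _ fun d => wt_neg (wt_coeff h d) hm

lemma wt2_zero {φ : C2 k} (h : φ ∈ Wt act2 0 0) :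
    ∃ P : MvPolynomial (Fin 2) k, iT k n φ = MvPolynomial.aeval (uT k n) P := by
  suffices h' : iT k n φ ∈
      (MvPolynomial.aeval (uT k n) : MvPolynomial (Fin 2) k →ₐ[k] T1 k n).range by
    obtain ⟨P, hP⟩ := h'
    exact ⟨P, hP.symm⟩
  rw [φ.as_sum, map_sum]
  refine sum_mem fun d _ => ?_
  obtain ⟨F, hF⟩ := wt_pos (wt_coeff h d)
  refine ⟨MvPolynomial.monomial d (F 0), ?_⟩
  have e : φ.coeff d = algebraMap k _ (F 0) := by
    simpa [Algebra.algebraMap_eq_smul_one] using hF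
  rw [e]
  change MvPolynomial.aeval (uT k n) _ = _
  rw [MvPolynomial.aeval_monomial, MvPolynomial.monomial_eq, map_mul, map_finsuppProd]
  simp only [map_pow, uT]
  congr 1

lemma wt2_succ {m : ℕ} {φ : C2 k} (h : φ ∈ Wt act2 0 (m + 1)) :
    ∃ α ∈ Wt act1 0 m, ∃ β ∈ Wt act1 0 m, iT k n φ = hT k n 0 0 * α + hT k n 1 0 * β := by
  choose α hα β hβ e using fun d => wt_succ (wt_coeff h d)
  refine ⟨∑ d ∈ φ.support, iT k n (MvPolynomial.monomial d (α d)),
    sum_mem fun d _ => wt_iT (wt_mono (hα d) d),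
    ∑ d ∈ φ.support, iT k n (MvPolynomial.monomial d (β d)),
    sum_mem fun d _ => wt_iT (wt_mono (hβ d) d), ?_⟩
  conv_lhs => rw [φ.as_sum]
  rw [map_sum, Finset.mul_sum, Finset.mul_sum, ← Finset.sum_add_distrib]
  refine Finset.sum_congr rfl fun d _ => ?_
  rw [e d, hT, hT, ← map_mul, ← map_mul, ← map_add, cC_apply, cC_apply,
    MvPolynomial.C_mul_monomial, MvPolynomial.C_mul_monomial, map_add]

lemma wt1_zero {r : T1 k n} (h : r ∈ Wt act1 0 0) :
    ∃ P : MvPolynomial (Fin 2) k, r = MvPolynomial.aeval (uT k n) P := by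
  obtain ⟨co, h1, -, h3⟩ := exists_coord (k := k) (n := n)
  obtain ⟨P, hP⟩ := wt2_zero (n := n) (h3 0 0 r h)
  refine ⟨P, (h1 r).trans ?_⟩
  rw [Fin.sum_univ_succ, Finset.sum_eq_zero fun j _ => by
    rw [wt2_neg (h3 j.succ 0 r h) (by simp), map_zero, zero_mul], hP]
  simp

lemma wt1_succ {m : ℕ} {r : T1 k n} (h : r ∈ Wt act1 0 (m + 1)) :
    ∃ α ∈ Wt act1 0 m, ∃ β ∈ Wt act1 0 m, ∃ γ ∈ Wt act1 0 m,
      r = hT k n 0 0 * α + hT k n 1 0 * β + xT k n * γ := by
  obtain ⟨co, h1, -, h3⟩ := exists_coord (k := k) (n := n)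
  obtain ⟨α, hα, β, hβ, e⟩ := wt2_succ (n := n) (h3 0 _ r h)
  refine ⟨α, hα, β, hβ, ∑ j : Fin (n + 2), iT k n (co j.succ r) * xT k n ^ (j : ℕ),
    sum_mem fun j _ => Wt.cancel (j + 1) (Wt.mul (wt_iT (h3 j.succ _ r h)) (Wt.pow xT_wt j))
      (by rw [Fin.val_succ]; omega) (by omega), ?_⟩
  refine (h1 r).trans ?_
  rw [Fin.sum_univ_succ, Finset.mul_sum, Fin.val_zero, pow_zero, mul_one, e]
  congr 1
  exact Finset.sum_congr rfl fun j _ => by rw [Fin.val_succ]; ring

lemma wt1_not {a : C2 k} {α β : T1 k n} (hα : α ∈ Wt act1 0 (n + 1)) (hβ : β ∈ Wt act1 0 (n + 1))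
    (e : iT k n a * xT k n ^ (n + 2) = hT k n 0 0 * α + hT k n 1 0 * β) : a = 0 := by
  obtain ⟨co, -, h2, h3⟩ := exists_coord (k := k) (n := n)
  have h4 : ∀ a r, co (Fin.last _) (iT k n a * r) = a * co (Fin.last _) r := fun a r =>
    (congrArg _ (Algebra.smul_def a r).symm).trans (map_smul _ _ _)
  have := congrArg (co (Fin.last _)) e
  rw [h4, h2, map_add, hT, hT, h4, h4, wt2_neg (h3 _ _ _ hα) (by simp),
    wt2_neg (h3 _ _ _ hβ) (by simp)] at this
  simpa using this

variable (k n) in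
/-- The linear forms. -/
noncomputable def lin : Fin 3 → T1 k n := ![hT k n 0 0, hT k n 1 0, xT k n]

variable (k n) in
/-- The eight generators. -/
noncomputable def gens : Fin 2 ⊕ Fin 3 ⊕ Fin 3 → TT k n :=
  Sum.elim (fun i => jT k n (uT k n i))
    (Sum.elim (fun l => jT k n (lin k n l) * C X) fun l => jT k n (lin k n l) * X)

omit [Infinite k] in
lemma lin_wt (l : Fin 3) : lin k n l ∈ Wt act1 0 1 := by
  fin_cases l
  exacts [hT_wt 0, hT_wt 1, xT_wt]

lemma mon_gen (m : ℕ) : ∀ (i j : ℕ) (a : T1 k n), i + j = m → a ∈ Wt act1 0 m →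
    jT k n a * C X ^ i * X ^ j ∈ Algebra.adjoin k (Set.range (gens k n)) := by
  have hg : ∀ s, gens k n s ∈ Algebra.adjoin k (Set.range (gens k n)) := fun s =>
    Algebra.subset_adjoin ⟨s, rfl⟩
  induction m with
  | zero =>
    intro i j a hij ha
    obtain ⟨rfl, rfl⟩ : i = 0 ∧ j = 0 := by omega
    obtain ⟨P, rfl⟩ := wt1_zero ha
    rw [pow_zero, pow_zero, mul_one, mul_one]
    clear ha
    induction P using MvPolynomial.induction_on with
    | C c =>
      rw [MvPolynomial.algHom_C, AlgHom.commutes]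
      exact Subalgebra.algebraMap_mem _ c
    | add p q hp hq => rw [map_add, map_add]; exact add_mem hp hq
    | mul_X p i hp =>
      rw [map_mul, map_mul, MvPolynomial.aeval_X]
      exact mul_mem hp (hg (.inl i))
  | succ m ih =>
    intro i j a hij ha
    obtain ⟨α, hα, β, hβ, γ, hγ, rfl⟩ := wt1_succ ha
    rcases i with _ | i
    · obtain rfl : j = m + 1 := by omega
      convert add_mem (add_mem (mul_mem (hg (.inr (.inr 0))) (ih 0 m α (by omega) hα))
        (mul_mem (hg (.inr (.inr 1))) (ih 0 m β (by omega) hβ)))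
        (mul_mem (hg (.inr (.inr 2))) (ih 0 m γ (by omega) hγ)) using 1
      simp only [gens, lin, Sum.elim_inr, map_add, map_mul, Matrix.cons_val]
      ring
    · convert add_mem (add_mem (mul_mem (hg (.inr (.inl 0))) (ih i j α (by omega) hα))
        (mul_mem (hg (.inr (.inl 1))) (ih i j β (by omega) hβ)))
        (mul_mem (hg (.inr (.inl 2))) (ih i j γ (by omega) hγ)) using 1
      simp only [gens, lin, Sum.elim_inr, Sum.elim_inl, map_add, map_mul, Matrix.cons_val]
      ring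

lemma InvA_eq : Algebra.adjoin k (Set.range (gens k n)) = InvA k n := by
  refine le_antisymm (Algebra.adjoin_le ?_) fun r hr => ?_
  · rintro _ ⟨i | l | l, rfl⟩
    · simpa [gens] using mon_inv 0 0 (uT_wt (k := k) (n := n) i)
    · simpa [gens] using mon_inv 1 0 (lin_wt (k := k) (n := n) l)
    · simpa [gens] using mon_inv 0 1 (lin_wt (k := k) (n := n) l)
  · rw [← mul_one r]
    refine mem_of_mon fun i j => ?_
    rw [mul_one]
    exact mon_gen _ i j _ rfl (coeff_wt hr i j)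

lemma InvA_fg : Algebra.FiniteType k (InvA k n) := by
  rw [← InvA_eq, ← Subalgebra.fg_iff_finiteType]
  exact Subalgebra.fg_def.2 ⟨_, Set.finite_range _, rfl⟩

end Pool.Agent.P.MP_271f8e_al.Af
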