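import Pool.Agent.P.MP_271f8e_al.SmDom

/-! The induced algebra of the smooth example is a finitely generated domain, and the
Cohen-Macaulay property fails at an explicit prime. -/

namespace Pool.Agent.P.MP_271f8e_al

open Polynomial

universe u

/-- A prime with depth at most two and dimension at least three. -/
def Fails (A : Type*) [CommRing A] : Prop := ∃ (p : Ideal A) (_ : p.IsPrime),
  depth (Localization.AtPrime p) ≤ 2 ∧ 3 ≤ ringKrullDim (Localization.AtPrime p)

lemma Fails.of_equiv {A B : Type*} [CommRing A] [CommRing B] (e : A ≃+* B) (h : Fails B) :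
    Fails A := by
  obtain ⟨m, _, h1, h2⟩ := h
  refine ⟨m.comap e.toRingHom, inferInstance, (depth_le_of_flat _ (RingHom.Flat.localRingHom
    (RingHom.Flat.of_bijective (f := e.toRingHom) e.bijective) m _ rfl)).trans h1, ?_⟩
  rw [IsLocalization.AtPrime.ringKrullDim_eq_height m] at h2
  rw [IsLocalization.AtPrime.ringKrullDim_eq_height (m.comap e.toRingHom)]
  have h3 : (m.comap e.toRingHom).height = m.height := e.height_comap m
  rwa [h3]

lemma fail3 {A : Type*} [CommRing A] [IsNoetherianRing A] (P1 P2 m : Ideal A) [P1.IsPrime]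
    [P2.IsPrime] [m.IsPrime] (h12 : P1 < P2) (h2m : P2 < m) {f g z : A} (hg : g ∈ P1)
    (hr : RingTheory.Sequence.IsWeaklyRegular A [g, f])
    (hz : ∀ u ∈ m, ∃ a b, u * z = a * f + b * g) (hn : ∀ σ ∉ m, ∀ a b, σ * z ≠ a * f + b * g) :
    Fails A := by
  refine ⟨m, inferInstance, depth_loc_le_two m (Localization.AtPrime m) hr hz hn, ?_⟩
  rw [IsLocalization.AtPrime.ringKrullDim_eq_height m]
  have h1 : (1 : ℕ∞) ≤ P1.height :=
    (Ideal.one_le_height_span_singleton_of_mem_nonZeroDivisors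
      (mem_nonZeroDivisors_iff.2 ⟨fun _ => reg_zero hr,
        fun y e => reg_zero hr ((mul_comm g y).trans e)⟩)).trans
      (Ideal.height_mono ((Ideal.span_singleton_le_iff_mem _).2 hg))
  have h2 := Ideal.height_add_one_le_of_lt_of_isPrime h12
  have h3 := Ideal.height_add_one_le_of_lt_of_isPrime h2m
  have h5 : (1 : ℕ∞) + 1 + 1 ≤ m.height := by
    refine le_trans ?_ h3
    gcongr
    refine le_trans ?_ h2
    gcongr
  exact WithBot.coe_le_coe.2 (le_trans (by norm_num) h5)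

variable {k : Type u} [Field k] {n : ℕ} [Infinite k]

lemma wtF_step {m : ℕ} {r : RF k n} (h : r ∈ Wt actF 0 (m + 1)) :
    ∃ α ∈ Wt actF 0 m, ∃ β ∈ Wt actF 0 m, ∃ γ ∈ Wt actF 0 m,
      r = colF k n 0 * α + colF k n 1 * β + xF k n * γ := by
  obtain ⟨co, h1, -, h3⟩ := exists_coord (k := k) (n := n)
  obtain ⟨α, hα, β, hβ, e⟩ := wt_succ (h3 0 _ r h)
  obtain ⟨r', hr', e'⟩ : ∃ r' ∈ Wt actF 1 (m + 1), r = iF k n (co 0 r) + r' * xF k n := by
    refine ⟨∑ j : Fin (n + 2), iF k n (co j.succ r) * xF k n ^ (j : ℕ), sum_mem fun j _ =>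
      Wt.cancel j (Wt.mul (Wt.iF (h3 j.succ _ r h)) (Wt.pow x_wt j))
        (by rw [Fin.val_succ]; omega) rfl, ?_⟩
    refine (h1 r).trans ?_
    rw [Fin.sum_univ_succ, Finset.sum_mul, Fin.val_zero, pow_zero, mul_one]
    simp only [Fin.val_succ, pow_succ, mul_assoc]
  refine ⟨_, Wt.iF hα, _, Wt.iF hβ, r', Wt.cancel 1 hr' rfl rfl, ?_⟩
  rw [e, map_add, map_mul, map_mul, mul_comm r'] at e'
  exact e'

variable (k n) in
/-- The three elements of weight one. -/
noncomputable def w1 : Fin 3 → RF k n := ![colF k n 0, colF k n 1, xF k n]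

omit [Infinite k] in
lemma w1_wt (l : Fin 3) : w1 k n l ∈ Wt actF 0 1 := by
  fin_cases l
  · exact Wt.iF (col_wt 0)
  · exact Wt.iF (col_wt 1)
  · exact x_wt

lemma mon_mem (B : Subalgebra k (RS k n)) (hu : ∀ l, jj k n (w1 k n l) * C X ∈ B)
    (hv : ∀ l, jj k n (w1 k n l) * X ∈ B) (m : ℕ) : ∀ i j, i + j = m → ∀ a ∈ Wt actF 0 m,
      jj k n a * C X ^ i * X ^ j ∈ B := by
  induction m with
  | zero =>
    intro i j hij a ha
    obtain ⟨rfl, rfl⟩ : i = 0 ∧ j = 0 := by omega
    obtain ⟨c, rfl⟩ := wtF_zero ha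
    rw [pow_zero, pow_zero, mul_one, mul_one, AlgHom.commutes]
    exact B.algebraMap_mem c
  | succ m ih =>
    intro i j hij a ha
    obtain ⟨α, hα, β, hβ, γ, hγ, rfl⟩ := wtF_step ha
    rcases i with _ | i
    · obtain rfl : j = m + 1 := by omega
      have := add_mem (add_mem (mul_mem (hv 0) (ih 0 m (by omega) α hα))
        (mul_mem (hv 1) (ih 0 m (by omega) β hβ))) (mul_mem (hv 2) (ih 0 m (by omega) γ hγ))
      convert this using 1
      simp only [map_add, map_mul, w1, Matrix.cons_val_zero, Matrix.cons_val_one,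
        Matrix.cons_val]
      ring
    · have := add_mem (add_mem (mul_mem (hu 0) (ih i j (by omega) α hα))
        (mul_mem (hu 1) (ih i j (by omega) β hβ))) (mul_mem (hu 2) (ih i j (by omega) γ hγ))
      convert this using 1
      simp only [map_add, map_mul, w1, Matrix.cons_val_zero, Matrix.cons_val_one,
        Matrix.cons_val]
      ring

lemma inv_mem6 (B : Subalgebra k (RS k n)) (hu : ∀ l, jj k n (w1 k n l) * C X ∈ B)
    (hv : ∀ l, jj k n (w1 k n l) * X ∈ B) {r : RS k n} (h : r ∈ InvS k n) : r ∈ B := by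
  rw [r.as_sum_support_C_mul_X_pow]
  refine sum_mem fun j _ => ?_
  rw [(r.coeff j).as_sum_support_C_mul_X_pow, map_sum, Finset.sum_mul]
  refine sum_mem fun i _ => ?_
  have := mon_mem B hu hv _ i j rfl _ (coeff_wt h i j)
  rwa [map_mul, map_pow, ← jj_apply]

omit [Infinite k] in
lemma comp_mem_of {R : Type*} [CommRing R] [Algebra k R] (W : Submodule k R)
    (T : Subalgebra k (SL2 k → R)) (he : ∀ i j, (fun g : SL2 k => algebraMap k R (g.1 i j)) ∈ T)
    (hW : ∀ r ∈ W, (fun _ : SL2 k => r) ∈ T) (f : SL2 k → R)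
    (hf : f ∈ morphisms k R fun g => g) (L : R →ₗ[k] R) (hL : ∀ r, L r ∈ W) :
    (fun y => L (f y)) ∈ T := by
  rw [morphisms, ← Subalgebra.mem_toSubmodule, Algebra.adjoin_eq_span] at hf
  induction hf using Submodule.span_induction generalizing L with
  | mem m hm =>
    have : m ∈ T ∧ ∃ φ : SL2 k → k, m = fun y => algebraMap k R (φ y) := by
      induction hm using Submonoid.closure_induction with
      | mem x hx =>
        obtain ⟨⟨i, j⟩, rfl⟩ := hx
        exact ⟨he i j, _, rfl⟩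
      | one => exact ⟨one_mem _, fun _ => 1, by funext y; simp⟩
      | mul x y _ _ hx hy =>
        obtain ⟨h1, φ, rfl⟩ := hx
        obtain ⟨h2, ψ, rfl⟩ := hy
        exact ⟨mul_mem h1 h2, φ * ψ, by funext y; simp⟩
    obtain ⟨h1, φ, rfl⟩ := this
    have e : (fun y => L (algebraMap k R (φ y))) =
        (fun _ => L 1) * fun y => algebraMap k R (φ y) := by
      funext y
      simp [Algebra.algebraMap_eq_smul_one]
    rw [e]
    exact mul_mem (hW _ (hL 1)) h1
  | zero => simp only [Pi.zero_apply, map_zero]; exact T.zero_mem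
  | add x y _ _ hx hy =>
    simp only [Pi.add_apply, map_add]; exact T.add_mem (hx L hL) (hy L hL)
  | smul r x _ hx => simpa using hx (L ∘ₗ LinearMap.mulLeft k r) fun s => hL _

omit [Infinite k] in
lemma exists_proj {V : Type*} [AddCommGroup V] [Module k V] (W : Submodule k V) :
    ∃ L : V →ₗ[k] V, (∀ r, L r ∈ W) ∧ ∀ r ∈ W, L r = r := by
  obtain ⟨Γ, hΓ⟩ := gen_inv W.subtype
  exact ⟨W.subtype.comp Γ, fun r => (Γ r).2, fun r hr => hΓ ⟨r, hr⟩⟩

lemma inv_const (T : Subalgebra k (SL2 k → RS k n))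
    (hu : ∀ l, (fun _ => jj k n (w1 k n l) * C X) ∈ T)
    (hv : ∀ l, (fun _ => jj k n (w1 k n l) * X) ∈ T) {r : RS k n} (h : r ∈ InvS k n) :
    (fun _ => r) ∈ T :=
  inv_mem6 (T.comap (Pi.constAlgHom k (SL2 k) (RS k n))) hu hv h

lemma invMor_ft : Algebra.FiniteType k (invMor (rhoS k n)) := by
  refine (Subalgebra.fg_iff_finiteType _).1 (Subalgebra.fg_def.2
    ⟨(Set.range fun ij : Fin 2 × Fin 2 => fun g : SL2 k => algebraMap k (RS k n) (g.1 ij.1 ij.2)) ∪
      ((Set.range fun l (_ : SL2 k) => jj k n (w1 k n l) * C X) ∪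
        Set.range fun l (_ : SL2 k) => jj k n (w1 k n l) * X),
      (Set.finite_range _).union ((Set.finite_range _).union (Set.finite_range _)),
      le_antisymm (Algebra.adjoin_le ?_) fun f hf => ?_⟩)
  · rintro _ (⟨ij, rfl⟩ | ⟨l, rfl⟩ | ⟨l, rfl⟩)
    · exact ⟨entry_mem _ _ _ _, fun g b => AlgEquiv.commutes _ _⟩
    · exact (cstI _ (by simpa using mon_inv 1 0 (w1_wt (k := k) (n := n) l))).2
    · exact (cstI _ (by simpa using mon_inv 0 1 (w1_wt (k := k) (n := n) l))).2
  · obtain ⟨L, hL, hL'⟩ := exists_proj (InvS k n)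
    have e : f = fun y => L (f y) := funext fun y => (hL' (f y) (hf.2 y)).symm
    rw [e]
    refine comp_mem_of (InvS k n) _ (fun i j => Algebra.subset_adjoin (Or.inl ⟨(i, j), rfl⟩))
      (fun r hr => ?_) f hf.1 L hL
    exact inv_const _ (fun l => Algebra.subset_adjoin (Or.inr (Or.inl ⟨l, rfl⟩)))
      (fun l => Algebra.subset_adjoin (Or.inr (Or.inr ⟨l, rfl⟩))) hr

lemma induced_ft : Algebra.FiniteType k (induced (rhoS k n)) :=
  invMor_ft.equiv (AlgEquiv.ofRingEquiv (f := tensorId _ (hS k n) hS_equiv) fun c =>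
    Subtype.ext (funext fun g => (tau_eq (P := MvPolynomial.C (algebraMap k _ c)) (hS k n).2
      (fun g => by simp [av]) g).trans (by simp [av]))).symm

lemma induced_dom {R : Type*} [CommRing R] [Algebra k R] [IsDomain R]
    (ρ : borel k →* (R ≃ₐ[k] R)) : IsDomain (induced ρ) := by
  have : NoZeroDivisors (induced ρ) := ⟨fun {f g} h =>
    (morph_prime (AlgHom.id k R) f.2.1 g.2.1 fun y => congrFun (congrArg Subtype.val h) y).imp
      (fun e => Subtype.ext (funext e)) fun e => Subtype.ext (funext e)⟩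
  have : Nontrivial (induced ρ) :=
    ⟨0, 1, fun h => zero_ne_one (congrFun (congrArg Subtype.val h) 1)⟩
  exact NoZeroDivisors.to_isDomain _

theorem invMor_fail (ζ : k) (hζ : ζ ^ (n + 3) = -1) : Fails (invMor (rhoS k n)) := by
  let ε : RF k n →ₐ[k] k := liftF 1 ζ (by simp [hζ])
  have e0 : ε (colF k n 0) = 1 := by simp [ε, colF, liftF_i, liftC_h]
  have e1 : ε (colF k n 1) = 0 := by simp [ε, colF, liftF_i, liftC_h]
  have := invMor_ft (k := k) (n := n)
  have := Algebra.FiniteType.isNoetherianRing k (invMor (rhoS k n))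
  refine fail3 (kerI (pt ε (C X : k[X][X]) X)) (kerI (pt ε (X : k[X]) 0))
    (kerI (pt ε (0 : k) 0)) (f := cstI _ fS_inv) (g := cstI _ gS_inv) (z := cstI _ zS_inv)
    (lt_of_le_of_ne (fun φ h g => ?_) fun h => ?_) (lt_of_le_of_ne (fun φ h g => ?_) fun h => ?_)
    (fun g => by simp [cstI, gS, pt, jj_apply, e1])
    (reg_pair (fun y h => ?_) fun a b h => ?_) (fun u hu => ?_) fun σ hσ a b h => ?_
  · simpa [h g] using (pt_map ε (aevalTower (AlgHom.id k k[X]) 0) (C X) X (φ.1 g)).symm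
  · have : cstI _ (mon_inv 0 1 (Wt.iF (col_wt 0))) ∈ kerI (pt ε (X : k[X]) 0) := fun g => by
      simp [cstI, pt]
    rw [← h] at this
    simpa [cstI, pt, jj_apply, show ε (iF k n _) = 1 from e0] using this 1
  · simpa [h g] using (pt_map ε (aeval (0 : k)) X 0 (φ.1 g)).symm
  · have : cstI _ fS_inv ∈ kerI (pt ε (0 : k) 0) := fun g => by simp [cstI, fS, pt]
    rw [← h] at this
    simpa [cstI, fS, pt, jj_apply, e0] using this 1
  · exact Subtype.ext (funext fun g => gS_reg.1 _ (congrFun (congrArg Subtype.val h) g))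
  · obtain ⟨Γ, hΓ⟩ := gen_inv (LinearMap.mulLeft k (gS k n))
    have h1 : ∀ g, a.1 g = gS k n * Γ (a.1 g) := fun g => by
      obtain ⟨r, hr⟩ := kos (congrFun (congrArg Subtype.val h) g)
      exact hr.trans ((hΓ r).symm.trans (congrArg (gS k n * Γ ·) hr.symm))
    refine ⟨⟨fun g => Γ (a.1 g), comp_linear_mem _ _ a.2.1 Γ, fun g b => ?_⟩,
      Subtype.ext (funext h1)⟩
    have h2 : act b (a.1 g) = a.1 g := a.2.2 g b
    rw [h1 g, map_mul, gS_inv b, ← sub_eq_zero, ← mul_sub] at h2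
    exact sub_eq_zero.1 (gS_reg.1 _ h2)
  · obtain ⟨L, L', h1, h2, h3⟩ := lin_sel (InvS k n) (LinearMap.mulRight k (fS k n))
      (LinearMap.mulRight k (gS k n)) (LinearMap.mulRight k (zS k n))
    refine ⟨⟨fun g => L (u.1 g), comp_linear_mem _ _ u.2.1 L, fun g => h1 _⟩,
      ⟨fun g => L' (u.1 g), comp_linear_mem _ _ u.2.1 L', fun g => h2 _⟩,
      Subtype.ext (funext fun g => h3 (u.1 g) (socle (u.2.2 g) ?_))⟩
    obtain ⟨c, hc⟩ := wtF_zero (coeff_wt (u.2.2 g) 0 0)
    have h0 := hu g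
    rw [pt_zero, hc, AlgHom.commutes] at h0
    rw [hc, show c = 0 from h0, map_zero]
  · refine hσ fun g => ?_
    rw [pt_zero, not_mem (σ.2.2 g) (a.2.2 g) (b.2.2 g) (congrFun (congrArg Subtype.val h) g),
      map_zero]

theorem induced_fail (ζ : k) (hζ : ζ ^ (n + 3) = -1) : Fails (induced (rhoS k n)) :=
  (invMor_fail ζ hζ).of_equiv (tensorId _ (hS k n) hS_equiv)

end Pool.Agent.P.MP_271f8e_al
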