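import Pool.Agent.P.MP_271f8e_al.AfInv
import Pool.Agent.P.MP_271f8e_al.CtA

/-! The algebra induced from affine four-space is not Cohen-Macaulay. -/

namespace Pool.Agent.P.MP_271f8e_al.Af

open Polynomial

universe u

variable {k : Type u} [Field k] {n : ℕ}

lemma C_reg' {A : Type*} [CommRing A] {a : A} (h : a ∈ nonZeroDivisors A) :
    C a ∈ nonZeroDivisors A[X] := mem_nonzeroDivisors_of_coeff_mem 0 (by simpa using h)

lemma X_reg' {A : Type*} [CommRing A] : X ∈ nonZeroDivisors A[X] := monic_X.mem_nonZeroDivisors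

lemma hT_reg (i : Fin 2) : hT k n i 0 ∈ nonZeroDivisors (T1 k n) := by
  have h0 : cC k ((hC k).1 i 0) ∈ nonZeroDivisors (C2 k) :=
    mem_nonZeroDivisors_iff_left.2 fun y h => MvPolynomial.ext _ _ fun d => by
      have := congrArg (MvPolynomial.coeff d) h
      rw [cC_apply, MvPolynomial.coeff_C_mul, MvPolynomial.coeff_zero] at this
      exact (hC_reg k i).1 _ this
  exact mem_nonZeroDivisors_iff_left.2 fun y h =>
    Module.Flat.isSMulRegular_of_nonZeroDivisors (M := T1 k n) h0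
      ((Algebra.smul_def _ y).trans (h.trans (smul_zero _).symm))

variable (k n) in
/-- The element `s w1`. -/
noncomputable def fA : TT k n := jT k n (hT k n 0 0) * C X

variable (k n) in
/-- The element `t w2`. -/
noncomputable def gA : TT k n := jT k n (hT k n 1 0) * X

variable (k n) in
/-- The socle element. -/
noncomputable def zA : TT k n := jT k n (xT k n ^ (n + 2)) * C X ^ (n + 1) * X

lemma fA_inv : fA k n ∈ InvA k n := by simpa [fA] using mon_inv (n := n) 1 0 (hT_wt (k := k) 0)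

lemma gA_inv : gA k n ∈ InvA k n := by simpa [gA] using mon_inv (n := n) 0 1 (hT_wt (k := k) 1)

lemma zA_inv : zA k n ∈ InvA k n := by
  simpa [zA] using mon_inv (k := k) (n + 1) 1 (Wt.pow xT_wt (n + 2))

lemma gA_reg : gA k n ∈ nonZeroDivisors (TT k n) := mul_mem (C_reg' (C_reg' (hT_reg 1))) X_reg'

lemma kos {a b : TT k n} (h : fA k n * a = gA k n * b) : ∃ r, a = gA k n * r := by
  have hd := (Matrix.det_fin_two _).symm.trans (hU k n).2
  simp only [hU_apply] at hd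
  obtain ⟨w, hw⟩ : ∃ w, C X * a = C (C (hT k n 1 0)) * w :=
    ⟨X * b * jT k n (hT k n 1 1) - jT k n (hT k n 0 1) * C X * a, by
      simp only [fA, gA, ← jT_apply] at h ⊢
      linear_combination jT k n (hT k n 1 1) * h - C X * a * hd⟩
  obtain ⟨a', rfl⟩ : C (C (hT k n 1 0)) ∣ a := by
    refine (C_dvd_iff_dvd_coeff _ _).2 fun j => (C_dvd_iff_dvd_coeff _ _).2 fun i => ?_
    have := congrArg (fun p : TT k n => (p.coeff j).coeff (i + 1)) hw
    simp only [coeff_C_mul, coeff_X_mul] at this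
    exact ⟨_, this⟩
  have h1 : C (C (hT k n 0 0) * X) * a' - X * b = 0 :=
    (C_reg' (C_reg' (hT_reg 1))).1 _ (by
      simp only [fA, gA, jT_apply, map_mul] at h ⊢
      linear_combination h)
  have h2 := congrArg (coeff · 0) h1
  simp only [coeff_sub, coeff_C_mul, coeff_X_mul_zero, sub_zero, coeff_zero] at h2
  obtain ⟨r, rfl⟩ := X_dvd_iff.2 ((mul_mem (C_reg' (hT_reg 0)) X_reg').1 _ h2)
  exact ⟨r, by rw [gA, jT_apply, mul_assoc]⟩

variable [Infinite k]

lemma wt1_soc {m : ℕ} {r : T1 k n} (h : r ∈ Wt act1 0 (m + 1)) :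
    ∃ α ∈ Wt act1 0 (m + n + 2), ∃ β ∈ Wt act1 0 (m + n + 2),
      r * xT k n ^ (n + 2) = hT k n 0 0 * α + hT k n 1 0 * β := by
  obtain ⟨α, hα, β, hβ, γ, hγ, rfl⟩ := wt1_succ h
  have h1 : ∀ δ ∈ Wt act1 0 m, δ * xT k n ^ (n + 2) ∈ Wt act1 0 (m + n + 2) := fun δ hδ =>
    Wt.cancel 0 (Wt.mul hδ (Wt.pow xT_wt (n + 2))) rfl (by omega)
  have h2 : ∀ i j, γ * hT k n i 0 ^ (n + 2) * uT k n j ∈ Wt act1 0 (m + n + 2) := fun i j =>
    Wt.cancel 0 (Wt.mul (Wt.mul hγ (Wt.pow (hT_wt i) (n + 2))) (uT_wt j)) rfl (by omega)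
  refine ⟨_, sub_mem (h1 α hα) (h2 0 1), _, add_mem (h1 β hβ) (h2 1 0), ?_⟩
  linear_combination γ * xT_eq (k := k) (n := n)

lemma socle {r : TT k n} (h : r ∈ InvA k n) (h0 : (r.coeff 0).coeff 0 = 0) :
    ∃ a ∈ InvA k n, ∃ b ∈ InvA k n, r * zA k n = a * fA k n + b * gA k n := by
  suffices h' : r * zA k n ∈
      (Subalgebra.toSubmodule (InvA k n)).map (LinearMap.mulRight k (fA k n)) ⊔
      (Subalgebra.toSubmodule (InvA k n)).map (LinearMap.mulRight k (gA k n)) by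
    obtain ⟨_, ⟨a, ha, rfl⟩, _, ⟨b, hb, rfl⟩, e⟩ := Submodule.mem_sup.1 h'
    exact ⟨a, ha, b, hb, e.symm⟩
  refine mem_of_mon fun i j => ?_
  have hw := coeff_wt h i j
  rcases hij : i + j with _ | m
  · obtain ⟨rfl, rfl⟩ : i = 0 ∧ j = 0 := by omega
    simp [h0]
  rw [hij] at hw
  obtain ⟨α, hα, β, hβ, e⟩ := wt1_soc hw
  refine Submodule.mem_sup.2 ⟨_, ⟨_, mon_inv (i + n) (j + 1) (Wt.cancel 0 hα rfl (by omega)), rfl⟩,
    _, ⟨_, mon_inv (i + n + 1) j (Wt.cancel 0 hβ rfl (by omega)), rfl⟩, ?_⟩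
  have := congrArg (jT k n) e
  simp only [map_mul, map_add, map_pow, LinearMap.mulRight_apply, fA, gA, zA] at this ⊢
  linear_combination -(C X ^ (i + n + 1) * X ^ (j + 1)) * this

lemma not_mem {σ a b : TT k n} (hσ : σ ∈ InvA k n) (ha : a ∈ InvA k n) (hb : b ∈ InvA k n)
    (e : σ * zA k n = a * fA k n + b * gA k n) : (σ.coeff 0).coeff 0 = 0 := by
  obtain ⟨P, hc⟩ := wt1_zero (coeff_wt hσ 0 0)
  obtain ⟨c, hc'⟩ : ∃ c, MvPolynomial.aeval (uT k n) P = iT k n c :=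
    ⟨MvPolynomial.aeval MvPolynomial.X P, (MvPolynomial.comp_aeval_apply _ (iT k n) P).symm⟩
  rw [hc'] at hc
  have := congrArg (fun p : TT k n => (p.coeff (0 + 1)).coeff (n + 1)) e
  simp only [zA, fA, gA, jT_apply, ← mul_assoc, ← C_pow, coeff_add, coeff_mul_X, coeff_mul_C,
    coeff_mul_X_pow', le_refl, if_true, Nat.sub_self, hc] at this
  rw [hc, wt1_not (a := c) (coeff_wt ha n (0 + 1)) (coeff_wt hb (n + 1) 0) (by
    rw [this, mul_comm, mul_comm (hT k n 1 0)]), map_zero]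

/-- Points over the unit element. -/
noncomputable def pt (hq : FrAdd k n) (w1 w2 : P4 k) : TT k n →ₐ[k] P4 k :=
  liftT hq 1 (MvPolynomial.X 0) (MvPolynomial.X 1) w1 w2

omit [Infinite k] in
lemma pt_map (hq : FrAdd k n) (w1 w2 : P4 k) (τ : TT k n) :
    MvPolynomial.aeval ![MvPolynomial.X 0, MvPolynomial.X 1, w1, w2]
      (pt hq (MvPolynomial.X 2) (MvPolynomial.X 3) τ) = pt hq w1 w2 τ := by
  rw [pt, liftT_map, pt]
  congr 2
  · exact map_one (Matrix.SpecialLinearGroup.map _)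
  all_goals simp

omit [Infinite k] in
lemma pt_map' (hq : FrAdd k n) (τ : TT k n) :
    MvPolynomial.aeval ![MvPolynomial.X 0, MvPolynomial.X 1, 0, 0]
      (pt hq (MvPolynomial.X 2) 0 τ) = pt hq 0 0 τ := by
  rw [pt, liftT_map, pt]
  congr 2
  · exact map_one (Matrix.SpecialLinearGroup.map _)
  all_goals simp

omit [Infinite k] in
lemma pt_zero (hq : FrAdd k n) (r : TT k n) :
    pt hq 0 0 r = pt hq 0 0 (jT k n ((r.coeff 0).coeff 0)) := by
  rw [pt, liftT, jT_apply, aevalTower_C, aevalTower_C]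
  exact (eval₂_at_zero _).trans (eval₂_at_zero _)

lemma pt_inj (hq : FrAdd k n) (hs : ∀ z : k, ∃ x, x ^ (n + 3) = z) {P : MvPolynomial (Fin 2) k}
    (h : pt hq 0 0 (jT k n (MvPolynomial.aeval (uT k n) P)) = 0) : P = 0 := by
  refine MvPolynomial.funext fun y => ?_
  obtain ⟨x, hx⟩ := hs (-y 1)
  let f : T1 k n →ₐ[k] k := ((MvPolynomial.aeval ![x, y 0, 0, 0]).comp (pt hq 0 0)).comp (jT k n)
  have h1 : f (MvPolynomial.aeval (uT k n) P) = 0 := by simp [f, h]
  rw [MvPolynomial.comp_aeval_apply] at h1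
  have h2 : (fun i => f (uT k n i)) = y := funext fun i => by
    fin_cases i <;> simp [f, pt, liftT_u, hx]
  rw [h2] at h1
  simpa using h1

/-- Invariants killed by a point. -/
noncomputable def kerA (π : TT k n →ₐ[k] P4 k) : Ideal (InvA k n) :=
  RingHom.ker (π.comp (InvA k n).val)

omit [Infinite k] in
lemma mem_kerA {π : TT k n →ₐ[k] P4 k} {φ : InvA k n} : φ ∈ kerA π ↔ π φ.1 = 0 := Iff.rfl

instance (π : TT k n →ₐ[k] P4 k) : (kerA π).IsPrime := RingHom.ker_isPrime _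

theorem InvA_fail (hq : FrAdd k n) (hs : ∀ z : k, ∃ x, x ^ (n + 3) = z) :
    Fails (InvA k n) := by
  have := InvA_fg (k := k) (n := n)
  have := Algebra.FiniteType.isNoetherianRing k (InvA k n)
  refine fail3 (kerA (pt hq (MvPolynomial.X 2) (MvPolynomial.X 3)))
    (kerA (pt hq (MvPolynomial.X 2) 0)) (kerA (pt hq 0 0))
    (f := ⟨_, fA_inv⟩) (g := ⟨_, gA_inv⟩) (z := ⟨_, zA_inv⟩)
    (lt_of_le_of_ne (fun φ h => ?_) fun h => ?_) (lt_of_le_of_ne (fun φ h => ?_) fun h => ?_)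
    (mem_kerA.2 (by simp [gA, pt, liftT_h]))
    (reg_pair (fun y h => ?_) fun a b h => ?_) (fun u hu => ?_) fun σ hσ a b h => ?_
  · rw [mem_kerA] at h ⊢
    rw [← pt_map, h, map_zero]
  · have : (⟨_, mon_inv 0 1 (hT_wt 0)⟩ : InvA k n) ∈ kerA (pt hq (MvPolynomial.X 2) 0) :=
      mem_kerA.2 (by simp [pt, liftT_w2])
    rw [← h, mem_kerA] at this
    simp [pt, liftT_h, liftT_w2] at this
  · rw [mem_kerA] at h ⊢
    rw [← pt_map', h, map_zero]
  · have : (⟨_, fA_inv⟩ : InvA k n) ∈ kerA (pt hq 0 0) := mem_kerA.2 (by simp [fA, pt, liftT_w1])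
    rw [← h, mem_kerA] at this
    simp [fA, pt, liftT_h, liftT_w1] at this
  · exact Subtype.ext (gA_reg.1 _ (congrArg Subtype.val h))
  · obtain ⟨r, hr⟩ := kos (congrArg Subtype.val h)
    refine ⟨⟨r, fun b => ?_⟩, Subtype.ext hr⟩
    have h2 : actT b a.1 = a.1 := a.2 b
    rw [hr, map_mul, gA_inv b, ← sub_eq_zero, ← mul_sub] at h2
    exact sub_eq_zero.1 (gA_reg.1 _ h2)
  · obtain ⟨a, ha, b, hb, e⟩ := socle u.2 (by
      obtain ⟨P, hP⟩ := wt1_zero (coeff_wt u.2 0 0)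
      rw [mem_kerA, pt_zero, hP] at hu
      rw [hP, pt_inj hq hs hu, map_zero])
    exact ⟨⟨a, ha⟩, ⟨b, hb⟩, Subtype.ext e⟩
  · refine hσ (mem_kerA.2 ?_)
    rw [pt_zero, not_mem σ.2 a.2 b.2 (congrArg Subtype.val h), map_zero, map_zero]

lemma not_isCM_of_fails {A : Type*} [CommRing A] (h : Fails A) : ¬ IsCohenMacaulay A := by
  obtain ⟨p, _, h1, h2⟩ := h
  intro hc
  rw [← hc.2 p] at h2
  have h3 : (3 : ℕ∞) ≤ 2 := (WithBot.coe_le_coe.1 h2).trans h1
  norm_num at h3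

omit [Infinite k] in
lemma frAdd (p : ℕ) (hp : 0 < p) [CharP k p] : p ^ 2 - 3 + 3 = p ^ 2 ∧ FrAdd k (p ^ 2 - 3) := by
  have : Fact p.Prime := ⟨CharP.char_prime_of_ne_zero k hp.ne'⟩
  have h2 := (Fact.out : p.Prime).two_le
  have e : p ^ 2 - 3 + 3 = p ^ 2 := by
    have : 2 ^ 2 ≤ p ^ 2 := Nat.pow_le_pow_left h2 2
    omega
  refine ⟨e, fun A _ _ a b => ?_⟩
  rw [e]
  rcases subsingleton_or_nontrivial A with h | h
  · exact Subsingleton.elim _ _
  · have : CharP A p := charP_of_injective_algebraMap (algebraMap k A).injective p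
    exact add_pow_char_pow a b p 2

theorem induced_fg (hq : FrAdd k n) : Algebra.FiniteType k (induced (rhoR hq)) :=
  InvA_fg.equiv (indEquiv hq)

theorem induced_fails (hq : FrAdd k n) (hs : ∀ z : k, ∃ x, x ^ (n + 3) = z) :
    Fails (induced (rhoR hq)) := (InvA_fail hq hs).of_equiv (indEquiv hq).symm.toRingEquiv

end Pool.Agent.P.MP_271f8e_al.Af
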