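import Pool.Agent.P.MP_271f8e_al.SmInv

/-! The total ring for the action on affine four-space. -/

namespace Pool.Agent.P.MP_271f8e_al.Af

open Polynomial

universe u

/-- Raising to the power `n + 3` is additive in every `k`-algebra. -/
def FrAdd (k : Type u) [Field k] (n : ℕ) : Prop :=
  ∀ (A : Type u) [CommRing A] [Algebra k A] (a b : A),
    (a + b) ^ (n + 3) = a ^ (n + 3) + b ^ (n + 3)

variable {k : Type u} [Field k] {n : ℕ}

lemma FrAdd.sub (h : FrAdd k n) {A : Type u} [CommRing A] [Algebra k A] (a b : A) :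
    (a - b) ^ (n + 3) = a ^ (n + 3) - b ^ (n + 3) := by
  have := h A (a - b) b
  rw [sub_add_cancel] at this
  linear_combination -this

lemma FrAdd.det (h : FrAdd k n) {A : Type u} [CommRing A] [Algebra k A] (γ : SL2 A) :
    γ.1 0 0 ^ (n + 3) * γ.1 1 1 ^ (n + 3) - γ.1 0 1 ^ (n + 3) * γ.1 1 0 ^ (n + 3) = 1 := by
  rw [← mul_pow, ← mul_pow, ← h.sub, ← Matrix.det_fin_two, γ.2, one_pow]

variable (k) in
/-- Two invariant variables over the coordinate ring of `SL_2`. -/
abbrev C2 : Type u := MvPolynomial (Fin 2) (CG k)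

variable (k n) in
/-- The equation of `x`. -/
noncomputable def q3 : (C2 k)[X] :=
  X ^ (n + 3) + C (MvPolynomial.C ((hC k).1 0 0) ^ (n + 3) * MvPolynomial.X 1 -
    MvPolynomial.C ((hC k).1 1 0) ^ (n + 3) * MvPolynomial.X 0)

lemma q3_monic : (q3 k n).Monic := monic_X_pow_add_C _ (by omega)

lemma q3_eval {A : Type*} [CommRing A] (i : C2 k →+* A) (x : A) : (q3 k n).eval₂ i x =
    x ^ (n + 3) + (i (MvPolynomial.C ((hC k).1 0 0)) ^ (n + 3) * i (MvPolynomial.X 1) -
      i (MvPolynomial.C ((hC k).1 1 0)) ^ (n + 3) * i (MvPolynomial.X 0)) := by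
  rw [q3, eval₂_add, eval₂_X_pow, eval₂_C, map_sub, map_mul, map_mul, map_pow, map_pow]

variable (k n) in
/-- The root cover. -/
def T1 : Type u := AdjoinRoot (q3 k n)

noncomputable instance : CommRing (T1 k n) := inferInstanceAs (CommRing (AdjoinRoot (q3 k n)))
noncomputable instance : Algebra k (T1 k n) := inferInstanceAs (Algebra k (AdjoinRoot (q3 k n)))
noncomputable instance : Algebra (C2 k) (T1 k n) :=
  inferInstanceAs (Algebra (C2 k) (AdjoinRoot (q3 k n)))
instance : IsScalarTower k (C2 k) (T1 k n) :=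
  inferInstanceAs (IsScalarTower k (C2 k) (AdjoinRoot (q3 k n)))
instance : Module.Free (C2 k) (T1 k n) := (q3_monic (k := k) (n := n)).free_adjoinRoot

variable (k n) in
/-- The new coordinate. -/
noncomputable def xT : T1 k n := AdjoinRoot.root (q3 k n)

variable (k n) in
/-- The inclusion of the base ring. -/
noncomputable def iT : C2 k →ₐ[k] T1 k n := IsScalarTower.toAlgHom k _ _

variable (k) in
/-- Constants of the base ring. -/
noncomputable def cC : CG k →ₐ[k] C2 k := IsScalarTower.toAlgHom k _ _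

lemma cC_apply (a : CG k) : cC k a = MvPolynomial.C a := rfl

variable (k n) in
/-- The entries of the universal point. -/
noncomputable def hT (i j : Fin 2) : T1 k n := iT k n (cC k ((hC k).1 i j))

variable (k n) in
/-- The invariant variables. -/
noncomputable def uT (i : Fin 2) : T1 k n := iT k n (MvPolynomial.X i)

lemma xT_eq : xT k n ^ (n + 3) +
    (hT k n 0 0 ^ (n + 3) * uT k n 1 - hT k n 1 0 ^ (n + 3) * uT k n 0) = 0 :=
  (q3_eval _ _).symm.trans (AdjoinRoot.eval₂_root (q3 k n))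

lemma exists_basis :
    ∃ B : Module.Basis (Fin (n + 3)) (C2 k) (T1 k n), ∀ i, B i = xT k n ^ (i : ℕ) := by
  have hd : (AdjoinRoot.powerBasis' (q3_monic (k := k) (n := n))).dim = n + 3 :=
    natDegree_X_pow_add_C
  exact ⟨(AdjoinRoot.powerBasis' (q3_monic (k := k) (n := n))).basis.reindex (finCongr hd),
    fun i => (Module.Basis.reindex_apply
      (AdjoinRoot.powerBasis' (q3_monic (k := k) (n := n))).basis _ _).trans
      (PowerBasis.basis_eq_pow _ _)⟩

section lift

variable {A : Type*} [CommRing A] [Algebra k A]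

/-- The algebra map of a point of the root cover. -/
noncomputable def lift1 (γ : SL2 A) (v : Fin 2 → A) (x : A)
    (hx : x ^ (n + 3) + (γ.1 0 0 ^ (n + 3) * v 1 - γ.1 1 0 ^ (n + 3) * v 0) = 0) :
    T1 k n →ₐ[k] A :=
  AdjoinRoot.liftAlgHom (q3 k n) (MvPolynomial.aevalTower (liftC γ) v) x (by
    rw [q3_eval]
    simp only [RingHom.coe_coe, MvPolynomial.aevalTower_C, MvPolynomial.aevalTower_X, liftC_h, hx])

lemma lift1_x (γ : SL2 A) (v : Fin 2 → A) (x : A) (hx) : lift1 γ v x hx (xT k n) = x :=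
  AdjoinRoot.liftAlgHom_root _ _ _ _

lemma lift1_i (γ : SL2 A) (v : Fin 2 → A) (x : A) (hx) (φ : C2 k) :
    lift1 γ v x hx (iT k n φ) = MvPolynomial.aevalTower (liftC γ) v φ :=
  AdjoinRoot.liftAlgHom_of _ _ _ _ _

lemma lift1_h (γ : SL2 A) (v : Fin 2 → A) (x : A) (hx) (i j : Fin 2) :
    lift1 γ v x hx (hT k n i j) = γ.1 i j := by
  rw [hT, lift1_i, cC_apply, MvPolynomial.aevalTower_C, liftC_h]

lemma lift1_u (γ : SL2 A) (v : Fin 2 → A) (x : A) (hx) (i : Fin 2) :
    lift1 γ v x hx (uT k n i) = v i := by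
  rw [uT, lift1_i, MvPolynomial.aevalTower_X]

lemma ext2 {f g : C2 k →ₐ[k] A} (h : ∀ i j, f (cC k ((hC k).1 i j)) = g (cC k ((hC k).1 i j)))
    (hu : ∀ i, f (MvPolynomial.X i) = g (MvPolynomial.X i)) : f = g :=
  MvPolynomial.algHom_ext' (extC h) hu

lemma extT1 {f g : T1 k n →ₐ[k] A} (h : ∀ i j, f (hT k n i j) = g (hT k n i j))
    (hu : ∀ i, f (uT k n i) = g (uT k n i)) (hx : f (xT k n) = g (xT k n)) : f = g :=
  AdjoinRoot.algHom_ext' (p := q3 k n) (ext2 h hu) hx

end lift

/-- The action on the base ring. -/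
noncomputable def act2 (b : borel k) : C2 k →ₐ[k] C2 k := MvPolynomial.mapAlgHom (actC b)

lemma act2_c (b : borel k) (a : CG k) : act2 b (cC k a) = cC k (actC b a) := by
  simp [act2, cC_apply]

lemma act2_X (b : borel k) (i : Fin 2) : act2 b (MvPolynomial.X i) = MvPolynomial.X i := by
  simp [act2]

lemma act2_coeff (b : borel k) (φ : C2 k) (d : Fin 2 →₀ ℕ) :
    (act2 b φ).coeff d = actC b (φ.coeff d) := by
  simp [act2, MvPolynomial.coeff_map]

/-- The action on the root cover. -/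
noncomputable def act1 (b : borel k) : T1 k n →ₐ[k] T1 k n :=
  lift1 (mapS ((iT k n).comp (cC k)) (hC k * upS _ b.1)) (uT k n) (b.1.1 0 0 • xT k n) (by
    have := congrArg (b.1.1 0 0 ^ (n + 3) • ·) (xT_eq (k := k) (n := n))
    simpa only [mapS_apply, mul_col, map_smul, _root_.smul_pow, smul_add, smul_sub, smul_zero,
      smul_mul_assoc, AlgHom.comp_apply, hT] using this)

lemma act1_x (b : borel k) : act1 b (xT k n) = b.1.1 0 0 • xT k n := lift1_x _ _ _ _

lemma act1_u (b : borel k) (i : Fin 2) : act1 b (uT k n i) = uT k n i := lift1_u _ _ _ _ _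

lemma act1_h' (b : borel k) (i j : Fin 2) :
    act1 b (hT k n i j) = iT k n (cC k ((hC k * upS _ b.1).1 i j)) := lift1_h _ _ _ _ i j

lemma act1_i (b : borel k) (φ : C2 k) : act1 b (iT k n φ) = iT k n (act2 b φ) :=
  DFunLike.congr_fun (ext2 (f := (act1 b).comp (iT k n)) (g := (iT k n).comp (act2 b))
    (fun i j => (act1_h' b i j).trans (by rw [AlgHom.comp_apply, act2_c, actC, liftC_h]))
    fun i => (act1_u b i).trans (by rw [AlgHom.comp_apply, act2_X]; rfl)) φ

lemma act1_h (b : borel k) (i j : Fin 2) :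
    act1 b (hT k n i j) = b.1.1 0 j • hT k n i 0 + b.1.1 1 j • hT k n i 1 := by
  rw [act1_h', hT, hT, ← map_smul, ← map_smul, ← map_smul, ← map_smul, ← map_add, ← map_add,
    Matrix.SpecialLinearGroup.coe_mul]
  congr 2
  simp [upS, up, Matrix.mul_apply, Algebra.smul_def, mul_comm]

variable (k n) in
/-- The total ring. -/
abbrev TT : Type u := (T1 k n)[X][X]

/-- The action on the total ring. -/
noncomputable def actT (b : borel k) : TT k n →ₐ[k] TT k n :=
  ext1 (ext1 (act1 b) (b.1.1 1 1)) (b.1.1 1 1)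

variable (k n) in
/-- Constants. -/
noncomputable def jT : T1 k n →ₐ[k] TT k n := CAlgHom.comp CAlgHom

lemma jT_apply (r : T1 k n) : jT k n r = C (C r) := rfl

lemma actT_j (b : borel k) (r : T1 k n) : actT b (jT k n r) = jT k n (act1 b r) := by
  rw [jT_apply, actT, ext1_C, ext1_C, jT_apply]

lemma actT_w1 (b : borel k) : actT b (C X : TT k n) = b.1.1 1 1 • C X := by
  rw [actT, ext1_C, ext1_X, smul_C]

lemma actT_w2 (b : borel k) : actT b (X : TT k n) = b.1.1 1 1 • X := ext1_X _ _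

lemma extT {A : Type*} [CommRing A] [Algebra k A] {f g : TT k n →ₐ[k] A}
    (h : ∀ i j, f (jT k n (hT k n i j)) = g (jT k n (hT k n i j)))
    (hu : ∀ i, f (jT k n (uT k n i)) = g (jT k n (uT k n i)))
    (hx : f (jT k n (xT k n)) = g (jT k n (xT k n))) (h1 : f (C X) = g (C X)) (h2 : f X = g X) :
    f = g :=
  algHom_ext' (algHom_ext' (extT1 h hu hx) h1) h2

end Pool.Agent.P.MP_271f8e_al.Af
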