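import Pool.Agent.P.MP_271f8e_al.Defs

namespace Pool.Agent.P.MP_271f8e_al

open IsLocalRing RingTheory.Sequence

lemma depth_le_dim (A : Type*) [CommRing A] [IsLocalRing A] [IsNoetherianRing A] :
    (depth A : WithBot ℕ∞) ≤ ringKrullDim A := by
  have h0 : (0 : WithBot ℕ∞) ≤ ringKrullDim A := ringKrullDim_nonneg_of_nontrivial
  obtain ⟨d, hd⟩ := WithBot.ne_bot_iff_exists.1 (ne_bot_of_le_ne_bot (by simp) h0)
  rw [← hd, WithBot.coe_le_coe, depth, iSup_le_iff]
  rintro ⟨rs, hmem, hreg⟩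
  have h := ringKrullDim_add_length_eq_ringKrullDim_of_isRegular rs hreg
  have hne : Ideal.ofList rs ≠ ⊤ := by
    intro htop
    apply hreg.top_ne_smul
    rw [htop]; simp
  have : Nontrivial (A ⧸ Ideal.ofList rs) := Ideal.Quotient.nontrivial_iff.2 hne
  have h1 : (0 : WithBot ℕ∞) ≤ ringKrullDim (A ⧸ Ideal.ofList rs) :=
    ringKrullDim_nonneg_of_nontrivial
  have h2 : ((rs.length : ℕ∞) : WithBot ℕ∞) ≤ (d : WithBot ℕ∞) := by
    rw [hd, ← h]
    calc ((rs.length : ℕ∞) : WithBot ℕ∞) = 0 + (rs.length : WithBot ℕ∞) := by simp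
      _ ≤ _ := by gcongr
  exact WithBot.coe_le_coe.1 h2

lemma depth_eq_dim_of_domain (A : Type*) [CommRing A] [IsLocalRing A] [IsNoetherianRing A]
    [IsDomain A] (h : ringKrullDim A ≤ 1) : (depth A : WithBot ℕ∞) = ringKrullDim A := by
  refine le_antisymm (depth_le_dim A) ?_
  by_cases hm : maximalIdeal A = ⊥
  · rw [← maximalIdeal_height_eq_ringKrullDim, hm, Ideal.height_bot]
    simp
  · obtain ⟨a, ha, ha0⟩ := Submodule.exists_mem_ne_zero_of_ne_bot hm
    refine h.trans ?_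
    have hreg : IsRegular A [a] := by
      refine IsRegular.of_isWeaklyRegular_of_mem_maximalIdeal A (by simpa using ha) ?_
      rw [isWeaklyRegular_singleton_iff]
      exact IsSMulRegular.of_ne_zero ha0
    have : (1 : ℕ∞) ≤ depth A :=
      le_iSup_of_le (f := fun rs : {rs : List A // (∀ r ∈ rs, r ∈ IsLocalRing.maximalIdeal A) ∧
        RingTheory.Sequence.IsRegular A rs} => (rs.1.length : ℕ∞)) ⟨[a], by simpa using ha, hreg⟩
        (by simp)
    exact_mod_cast this

lemma isCM_of_domain (A : Type*) [CommRing A] [IsNoetherianRing A] [IsDomain A]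
    (h : ringKrullDim A ≤ 1) : IsCohenMacaulay A := by
  refine ⟨inferInstance, fun p _ => ?_⟩
  apply depth_eq_dim_of_domain
  rw [IsLocalization.AtPrime.ringKrullDim_eq_height p (Localization.AtPrime p)]
  exact Ideal.height_le_ringKrullDim_of_isPrime.trans h

/-- If no regular pair exists then depth is at most one. -/
lemma depth_le_one (A : Type*) [CommRing A] [IsLocalRing A]
    (h : ∀ u ∈ maximalIdeal A, ∀ v ∈ maximalIdeal A, IsSMulRegular A u →
      ∃ w : A, (∃ z, v * w = u * z) ∧ ¬ ∃ z, w = u * z) : depth A ≤ 1 := by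
  rw [depth, iSup_le_iff]
  rintro ⟨rs, hmem, hreg⟩
  match rs, hmem, hreg with
  | [], _, _ => simp
  | [_], _, _ => simp
  | u :: v :: rest, hmem, hreg =>
    exfalso
    have hw := hreg.toIsWeaklyRegular
    rw [isWeaklyRegular_cons_iff, isWeaklyRegular_cons_iff] at hw
    obtain ⟨hu, hv, -⟩ := hw
    obtain ⟨w, ⟨z, hz⟩, hn⟩ := h u (hmem u (by simp)) v (hmem v (by simp)) hu
    apply hn
    have key : ∀ y : A, (Submodule.Quotient.mk y : QuotSMulTop u A) = 0 ↔ ∃ z, y = u * z := by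
      intro y
      rw [Submodule.Quotient.mk_eq_zero, Submodule.mem_smul_pointwise_iff_exists]
      constructor
      · rintro ⟨b, -, hb⟩; exact ⟨b, by rw [← hb]; simp⟩
      · rintro ⟨b, hb⟩; exact ⟨b, trivial, by rw [hb]; simp⟩
    rw [← key]
    apply hv
    simp only [smul_zero]
    rw [← Submodule.Quotient.mk_smul, key]
    exact ⟨z, by simpa using hz⟩

lemma not_isCM (A : Type*) [CommRing A] (P0 P1 m : Ideal A) [P0.IsPrime] [P1.IsPrime] [m.IsPrime]
    (h01 : P0 < P1) (h1m : P1 < m) (hd : depth (Localization.AtPrime m) ≤ 1) :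
    ¬ IsCohenMacaulay A := by
  rintro ⟨-, h⟩
  have h1 := h m
  rw [IsLocalization.AtPrime.ringKrullDim_eq_height m (Localization.AtPrime m)] at h1
  have h2 : depth (Localization.AtPrime m) = m.height := WithBot.coe_injective h1
  have a := Ideal.height_add_one_le_of_lt_of_isPrime h01
  have b := Ideal.height_add_one_le_of_lt_of_isPrime h1m
  have c : (1 : ℕ∞) + 1 ≤ m.height := by
    refine le_trans ?_ b
    gcongr
    exact le_trans (by simp) a
  have := c.trans (h2 ▸ hd)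
  norm_num at this

lemma depth_loc_le_one (A : Type*) [CommRing A] (m : Ideal A) [m.IsPrime]
    (h : ∀ f ∈ m, ∀ g ∈ m, (∀ η, f * η = 0 → ∃ s, s ∉ m ∧ s * η = 0) →
      ∃ w, (∃ w', g * w = f * w') ∧ ¬ ∃ s, s ∉ m ∧ ∃ a, w * s = f * a) :
    depth (Localization.AtPrime m) ≤ 1 := by
  apply depth_le_one
  intro u hu v hv hreg
  obtain ⟨⟨f, s1⟩, rfl⟩ := IsLocalization.mk'_surjective m.primeCompl u
  obtain ⟨⟨g, s2⟩, rfl⟩ := IsLocalization.mk'_surjective m.primeCompl v
  simp only at hu hv hreg ⊢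
  rw [IsLocalization.AtPrime.mk'_mem_maximal_iff _ m] at hu hv
  obtain ⟨w, ⟨w', hfg⟩, hn⟩ := h f hu g hv (by
    intro η h3
    have h4 : algebraMap _ (Localization.AtPrime m) η = 0 := by
      apply hreg
      simp only [smul_eq_mul, mul_zero]
      rw [← IsLocalization.mk'_one (M := m.primeCompl), ← IsLocalization.mk'_mul, h3,
        IsLocalization.mk'_zero]
    rw [IsLocalization.map_eq_zero_iff m.primeCompl] at h4
    obtain ⟨s5, hs5⟩ := h4
    exact ⟨s5, s5.2, hs5⟩)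
  refine ⟨algebraMap _ _ w, ⟨IsLocalization.mk' _ (w' * s1) s2, ?_⟩, ?_⟩
  · rw [← IsLocalization.mk'_one (M := m.primeCompl), ← IsLocalization.mk'_mul,
      ← IsLocalization.mk'_mul, IsLocalization.mk'_eq_iff_eq]
    congr 1
    simp only [Submonoid.coe_mul, mul_one]
    rw [hfg]; ring
  · rintro ⟨z, hz⟩
    obtain ⟨⟨a, s3⟩, rfl⟩ := IsLocalization.mk'_surjective m.primeCompl z
    simp only at hz
    rw [← IsLocalization.mk'_mul, IsLocalization.eq_mk'_iff_mul_eq, ← map_mul,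
      IsLocalization.eq_iff_exists m.primeCompl] at hz
    obtain ⟨s4, hs4⟩ := hz
    refine hn ⟨(s4 * (s1 * s3) : m.primeCompl), (s4 * (s1 * s3)).2, s4 * a, ?_⟩
    simp only [Submonoid.coe_mul] at hs4 ⊢
    linear_combination hs4

lemma not_isCM' (A : Type*) [CommRing A] (P0 P1 m : Ideal A) (h0 : P0.IsPrime) (h1 : P1.IsPrime)
    (hm : m.IsPrime) (h01 : P0 < P1) (h1m : P1 < m)
    (h : ∀ f ∈ m, ∀ g ∈ m, (∀ η, f * η = 0 → ∃ s, s ∉ m ∧ s * η = 0) →
      ∃ w, (∃ w', g * w = f * w') ∧ ¬ ∃ s, s ∉ m ∧ ∃ a, w * s = f * a) :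
    ¬ IsCohenMacaulay A :=
  not_isCM A P0 P1 m h01 h1m (depth_loc_le_one A m h)

end Pool.Agent.P.MP_271f8e_al
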