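import Pool.Agent.P.MP_271f8e_al.CtA

/-! Controls for the definitions: the coordinate ring, and induction of a restricted action. -/

namespace Pool.Agent.P.MP_271f8e_al

open Polynomial

variable {k : Type*} [Field k] [Infinite k] {R : Type*} [CommRing R] [Algebra k R]

omit [Infinite k] in
lemma morph_lift {A Y : Type*} [CommRing A] [Algebra R A] (ι : Y → SL2 k) (γ : M2 A)
    (hd : ∀ P, (∀ y, av (up R (ι y)) P = 0) → av γ (MvPolynomial.map (algebraMap R A) P) = 0) :
    ∃! φ : morphisms k R ι →ₐ[R] A, ∀ f i j,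
      (∀ y, f.1 y = algebraMap k R ((ι y).1 i j)) → φ f = γ i j := by
  let θ : MvPolynomial (Fin 2 × Fin 2) R →ₐ[R] morphisms k R ι :=
    MvPolynomial.aeval fun ij => ⟨_, entry_mem R ι ij.1 ij.2⟩
  have h1 : ∀ P g, (θ P).1 g = av (up R (ι g)) P := fun P g => by
    induction P using MvPolynomial.induction_on with
    | C a => simp [θ, av]
    | add p q hp hq => rw [map_add, map_add, ← hp, ← hq]; rfl
    | mul_X p i hp => rw [map_mul, map_mul, ← hp]; simp [θ, av, up]
  have h2 : Function.Surjective θ := fun ⟨f, hf⟩ => by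
    induction hf using Algebra.adjoin_induction with
    | mem x hx =>
      obtain ⟨ij, rfl⟩ := hx
      exact ⟨MvPolynomial.X ij, MvPolynomial.aeval_X _ _⟩
    | algebraMap r => exact ⟨MvPolynomial.C r, θ.commutes r⟩
    | add x y _ _ hx hy =>
      obtain ⟨P, hP⟩ := hx
      obtain ⟨Q, hQ⟩ := hy
      exact ⟨P + Q, by rw [map_add, hP, hQ]; rfl⟩
    | mul x y _ _ hx hy =>
      obtain ⟨P, hP⟩ := hx
      obtain ⟨Q, hQ⟩ := hy
      exact ⟨P * Q, by rw [map_mul, hP, hQ]; rfl⟩
  have h3 : ∀ (f : morphisms k R ι) i j,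
      (∀ g, f.1 g = algebraMap k R ((ι g).1 i j)) → f = θ (MvPolynomial.X (i, j)) := fun f i j h =>
    Subtype.ext (funext fun g => (h g).trans (by rw [h1]; simp [av, up]))
  refine ⟨AlgHom.liftOfSurjective θ h2 (MvPolynomial.aeval fun ij => γ ij.1 ij.2)
    fun P hP => ?_, fun f i j h => ?_, fun ψ hψ => AlgHom.ext fun f => ?_⟩
  · have := hd P fun g => by rw [← h1, show θ P = 0 from hP]; rfl
    rw [av, MvPolynomial.eval_map] at this
    exact this
  · rw [h3 f i j h]
    exact (AlgHom.liftOfSurjective_apply θ h2 _ _ _).trans (by simp)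
  · obtain ⟨P, rfl⟩ := h2 f
    refine Eq.trans ?_ (AlgHom.liftOfSurjective_apply θ h2 _ _ _).symm
    exact DFunLike.congr_fun (MvPolynomial.algHom_ext (f := ψ.comp θ) fun ij => by
      rw [AlgHom.comp_apply, hψ _ ij.1 ij.2 fun g => by simp [θ]]; simp) P

variable (R) in
/-- The coordinate ring of the Borel subgroup. -/
abbrev LB := Localization.Away (MvPolynomial.X 0 : MvPolynomial (Fin 2) R)

variable (R) in
/-- The universal point of the Borel subgroup. -/
noncomputable def bU : M2 (LB R) :=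
  !![algebraMap (MvPolynomial (Fin 2) R) _ (MvPolynomial.X 0),
    algebraMap (MvPolynomial (Fin 2) R) _ (MvPolynomial.X 1);
    0, IsLocalization.Away.invSelf (MvPolynomial.X 0 : MvPolynomial (Fin 2) R)]

lemma lift_pt {R A : Type*} [CommRing R] [CommRing A] (φ : R →+* A) (γ : M2 A) (hγ : γ.det = 1)
    (h0 : γ 1 0 = 0) (P : MvPolynomial (Fin 2 × Fin 2) R) : ∃ ψ : LB R →+* A,
      (∀ Q, ψ (algebraMap _ _ Q) = MvPolynomial.eval₂Hom φ (γ 0) Q) ∧
      ψ (av (bU R) (MvPolynomial.map ((algebraMap (MvPolynomial (Fin 2) R) _).comp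
        MvPolynomial.C) P)) = av γ (MvPolynomial.map φ P) := by
  have h1 : γ 0 0 * γ 1 1 = 1 := by simpa [Matrix.det_fin_two, h0] using hγ
  have hu : IsUnit (MvPolynomial.eval₂Hom φ (γ 0) (MvPolynomial.X 0 : MvPolynomial (Fin 2) R)) :=
    IsUnit.of_mul_eq_one (γ 1 1) (by simpa using h1)
  let ψ : LB R →+* A := IsLocalization.Away.lift _ hu
  have h2 : ∀ Q, ψ (algebraMap _ _ Q) = MvPolynomial.eval₂Hom φ (γ 0) Q :=
    IsLocalization.Away.lift_eq _ hu
  have h3 : ψ (IsLocalization.Away.invSelf (MvPolynomial.X 0 : MvPolynomial (Fin 2) R)) =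
      γ 1 1 := by
    have := congrArg ψ (IsLocalization.Away.mul_invSelf (S := LB R)
      (MvPolynomial.X 0 : MvPolynomial (Fin 2) R))
    rw [map_mul, h2, map_one, MvPolynomial.eval₂Hom_X'] at this
    exact left_inv_eq_right_inv ((mul_comm _ _).trans this) h1
  have h4 : (bU R).map ψ = γ := by
    ext i j
    fin_cases i <;> fin_cases j
    · exact (h2 _).trans (MvPolynomial.eval₂Hom_X' _ _ _)
    · exact (h2 _).trans (MvPolynomial.eval₂Hom_X' _ _ _)
    · exact (map_zero ψ).trans h0.symm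
    · exact h3
  have h5 : ψ.comp ((algebraMap (MvPolynomial (Fin 2) R) _).comp MvPolynomial.C) = φ :=
    RingHom.ext fun r => (h2 _).trans (MvPolynomial.eval₂Hom_C _ _ _)
  exact ⟨ψ, h2, by rw [av_map, MvPolynomial.map_map, h4, h5]⟩

lemma denseB {A : Type*} [CommRing A] {P : MvPolynomial (Fin 2 × Fin 2) R}
    (h : ∀ b : borel k, av (up R b.1) P = 0) (φ : R →+* A) {γ : M2 A} (hγ : γ.det = 1)
    (h0 : γ 1 0 = 0) : av γ (MvPolynomial.map φ P) = 0 := by
  obtain ⟨ψ, -, e⟩ := lift_pt φ γ hγ h0 P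
  rw [← e]
  generalize hw : av (bU R) _ = w
  obtain ⟨N, Q, hQ⟩ := IsLocalization.Away.surj (MvPolynomial.X 0 : MvPolynomial (Fin 2) R) w
  have h1 : MvPolynomial.X 0 * Q = 0 := mv_zero (k := k) _ fun y => by
    by_cases hy : y 0 = 0
    · simp [hy]
    · let b : borel k := ⟨⟨!![y 0, y 1; 0, (y 0)⁻¹], by simp [Matrix.det_fin_two, hy]⟩, rfl⟩
      obtain ⟨χ, e1, e2⟩ := lift_pt (RingHom.id R) (up R b.1) (up_det _)
        (show algebraMap k R 0 = 0 from map_zero _) P
      rw [hw, MvPolynomial.map_id, h] at e2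
      have := congrArg χ hQ
      rw [map_mul, e2, zero_mul, e1] at this
      have e3 : up R b.1 0 = fun i => algebraMap k R (y i) := by
        funext i; fin_cases i <;> rfl
      rw [e3] at this
      rw [map_mul]
      exact mul_eq_zero_of_right _ this.symm
  have h2 : Q = 0 := (MvPolynomial.isRegular_X (n := 0)).left (by simpa using h1)
  rw [h2, map_zero] at hQ
  rw [((IsLocalization.Away.algebraMap_isUnit _).pow N).mul_left_eq_zero.1 hQ, map_zero]

omit [Infinite k] in
lemma lin_poly (l : R →ₗ[k] k) (F : R[X]) :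
    ∃ P : k[X], ∀ s, l (F.eval (algebraMap k R s)) = P.eval s := by
  induction F using Polynomial.induction_on' with
  | add p q hp hq =>
    obtain ⟨P, hP⟩ := hp
    obtain ⟨Q, hQ⟩ := hq
    exact ⟨P + Q, fun s => by simp [hP, hQ]⟩
  | monomial j a =>
    refine ⟨monomial j (l a), fun s => ?_⟩
    rw [eval_monomial, eval_monomial, ← map_pow, mul_comm, ← Algebra.smul_def, map_smul,
      smul_eq_mul, mul_comm]

lemma inv_morph_const {f : SL2 k → R} (hf : f ∈ morphisms k R fun g => g)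
    (hb : ∀ (g : SL2 k) (b : borel k), f (g * b) = f g) (g : SL2 k) : f g = f 1 := by
  refine sub_eq_zero.1 ((Module.forall_dual_apply_eq_zero_iff k _).1 fun l => ?_)
  obtain ⟨F, hF⟩ := curve_poly low low_poly f hf
  obtain ⟨G, hG⟩ := curve_poly opp opp_poly f hf
  obtain ⟨P, hP⟩ := lin_poly l F
  obtain ⟨Q, hQ⟩ := lin_poly l G
  obtain ⟨c, eP, eQ⟩ := const_of_charts P Q (by
    intro s hs
    obtain ⟨b, hb'⟩ := mem_opp (low s) s⁻¹ (by simp [low, hs])
    rw [← hP, ← hQ, ← hF, ← hG, hb', hb])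
  have hl : ∀ s, l (f (low s)) = c := fun s => by rw [hF, hP, eP]; simp
  have ho : ∀ s, l (f (opp s)) = c := fun s => by rw [hG, hQ, eQ]; simp
  rw [map_sub, sub_eq_zero, ← low_zero, hl]
  by_cases h0 : g.1 0 0 = 0
  · obtain ⟨b, rfl⟩ := mem_opp g 0 (by simp [h0])
    rw [hb, ho]
  · obtain ⟨b, hg⟩ := mem_low g (g.1 1 0 / g.1 0 0) (by field_simp)
    rw [hg, hb, hl]

omit [Infinite k] in
lemma morph_inv {f : SL2 k → R} (hf : f ∈ morphisms k R fun g => g) :
    (fun g => f g⁻¹) ∈ morphisms k R fun g : SL2 k => g := by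
  induction hf using Algebra.adjoin_induction with
  | mem x hx =>
    obtain ⟨⟨i, j⟩, rfl⟩ := hx
    fin_cases i <;> fin_cases j
    · simpa [Matrix.adjugate_fin_two] using entry_mem R (fun g : SL2 k => g) 1 1
    · simpa [Matrix.adjugate_fin_two, Pi.neg_def] using
        neg_mem (entry_mem R (fun g : SL2 k => g) 0 1)
    · simpa [Matrix.adjugate_fin_two, Pi.neg_def] using
        neg_mem (entry_mem R (fun g : SL2 k => g) 1 0)
    · simpa [Matrix.adjugate_fin_two] using entry_mem R (fun g : SL2 k => g) 0 0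
  | algebraMap r => exact Subalgebra.algebraMap_mem _ r
  | add x y _ _ hx hy => exact add_mem hx hy
  | mul x y _ _ hx hy => exact mul_mem hx hy

omit [Infinite k] in
lemma morph_twist (σ : SL2 k →* (R ≃ₐ[k] R))
    (hσ : ∀ r, (fun g => σ g r) ∈ morphisms k R fun g : SL2 k => g) {f : SL2 k → R}
    (hf : f ∈ morphisms k R fun g => g) :
    (fun g => σ g (f g)) ∈ morphisms k R fun g : SL2 k => g := by
  induction hf using Algebra.adjoin_induction with
  | mem x hx =>
    obtain ⟨⟨i, j⟩, rfl⟩ := hx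
    simpa using entry_mem R (fun g : SL2 k => g) i j
  | algebraMap r => exact hσ r
  | add x y _ _ hx hy => simpa [Pi.add_def] using add_mem hx hy
  | mul x y _ _ hx hy => simpa [Pi.mul_def] using mul_mem hx hy

lemma restricted (σ : SL2 k →* (R ≃ₐ[k] R))
    (hσ : ∀ r, (fun g => σ g r) ∈ morphisms k R fun g : SL2 k => g)
    (ρ : borel k →* (R ≃ₐ[k] R)) (h : ∀ b, ρ b = σ b.1) :
    ∃ e : induced ρ ≃ₐ[k] R, ∀ f, e f = f.1 1 := by
  refine ⟨AlgEquiv.ofBijective ((Pi.evalAlgHom k (fun _ => R) 1).comp (induced ρ).val)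
    ⟨(injective_iff_map_eq_zero _).2 fun f hf => Subtype.ext (funext fun g => ?_),
      fun r => ⟨⟨fun g => σ g⁻¹ r, morph_inv (hσ r), fun g b => ?_⟩, ?_⟩⟩, fun f => rfl⟩
  · have := inv_morph_const (morph_twist σ hσ f.2.1) (fun g b => by
      rw [f.2.2, h, ← AlgEquiv.mul_apply, ← map_mul]; simp) g
    rw [show f.1 1 = 0 from hf, map_zero] at this
    exact (map_eq_zero_iff _ (σ g).injective).1 this
  · rw [h, ← AlgEquiv.mul_apply, ← map_mul]; simp
  · change σ 1⁻¹ r = r
    rw [inv_one, map_one]; rfl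

end Pool.Agent.P.MP_271f8e_al
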