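import Pool.Agent.P.MP_271f8e_al.CM

namespace Pool.Agent.P.MP_271f8e_al

open Polynomial

variable (k : Type*) [Field k]

/-- The cusp algebra `k[t^2, t^3]`. -/
def cusp : Subalgebra k k[X] where
  carrier := {p | p.coeff 1 = 0}
  mul_mem' := by
    intro a b ha hb
    simp only [Set.mem_ofPred_eq] at ha hb ⊢
    rw [coeff_mul]
    simp [Finset.Nat.antidiagonal_succ, ha, hb]
  add_mem' := by
    intro a b ha hb
    simp only [Set.mem_ofPred_eq] at ha hb ⊢
    simp [ha, hb]
  algebraMap_mem' := by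
    intro c
    simp

variable {k}

lemma mem_cusp {p : k[X]} : p ∈ cusp k ↔ p.coeff 1 = 0 := Iff.rfl

lemma X_pow_mem {n : ℕ} (hn : n ≠ 1) : (X ^ n : k[X]) ∈ cusp k := by
  rw [mem_cusp, coeff_X_pow]; simp [hn.symm]

instance : Algebra.IsIntegral (cusp k) k[X] := by
  constructor
  intro p
  have h1 : p = (p - C (p.coeff 1) * X) + C (p.coeff 1) * X := by ring
  have hm : p - C (p.coeff 1) * X ∈ cusp k := by rw [mem_cusp]; simp
  have hc : (C (p.coeff 1) : k[X]) ∈ cusp k := by rw [mem_cusp]; simp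
  have hX : IsIntegral (cusp k) (X : k[X]) := by
    apply IsIntegral.of_pow (n := 2) (by norm_num)
    exact isIntegral_algebraMap (x := (⟨X ^ 2, X_pow_mem (by norm_num)⟩ : cusp k))
  rw [h1]
  exact (isIntegral_algebraMap (x := (⟨_, hm⟩ : cusp k))).add
    ((isIntegral_algebraMap (x := (⟨_, hc⟩ : cusp k))).mul hX)

instance : Algebra.FiniteType k (cusp k) := by
  have : Algebra.FiniteType (cusp k) k[X] := Algebra.FiniteType.of_restrictScalars_finiteType k _ _
  have : Module.Finite (cusp k) k[X] := Algebra.IsIntegral.finite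
  exact ⟨fg_of_fg_of_fg k (cusp k) k[X] Algebra.FiniteType.out Module.Finite.fg_top
    Subtype.val_injective⟩

instance : IsNoetherianRing (cusp k) := Algebra.FiniteType.isNoetherianRing k _

lemma dim_cusp : ringKrullDim (cusp k) ≤ 1 := by
  have : Ring.KrullDimLE 1 (cusp k) := by
    refine Ring.KrullDimLE.mk₁' fun I hI hp => ?_
    obtain ⟨Q, hQ, hc⟩ := Ideal.exists_ideal_over_prime_of_isIntegral_of_isDomain (S := k[X]) I
      (by
        rw [(RingHom.injective_iff_ker_eq_bot _).1 Subtype.val_injective]; exact bot_le)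
    have hQ0 : Q ≠ ⊥ := by
      rintro rfl
      apply hI
      rw [← hc]
      exact (RingHom.injective_iff_ker_eq_bot _).1 Subtype.val_injective
    have : Q.IsMaximal := hQ.isMaximal hQ0
    rw [← hc]
    exact Ideal.isMaximal_comap_of_isIntegral_of_isMaximal Q
  exact_mod_cast (Ring.krullDimLE_iff.1 this)

lemma cusp_isCM : IsCohenMacaulay (cusp k) := isCM_of_domain _ dim_cusp

/-- Scaling `t ↦ c t`. -/
noncomputable def scale (c : k) : cusp k →ₐ[k] cusp k :=
  ((aeval (C c * X) : k[X] →ₐ[k] k[X]).comp (cusp k).val).codRestrict (cusp k) (by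
    intro p
    have hp := p.2
    rw [mem_cusp] at hp ⊢
    simp [← comp_eq_aeval, comp_C_mul_X_coeff, hp])

lemma scale_coeff (c : k) (p : cusp k) (n : ℕ) :
    (scale c p : k[X]).coeff n = (p : k[X]).coeff n * c ^ n := by
  simp [scale, ← comp_eq_aeval, comp_C_mul_X_coeff]

lemma scale_one (p : cusp k) : scale 1 p = p := by
  ext n; simp [scale_coeff]

lemma scale_mul (c d : k) (p : cusp k) : scale (c * d) p = scale c (scale d p) := by
  ext n; simp [scale_coeff, mul_pow]; ring

lemma borel_det (b : borel k) : b.1.1 0 0 * b.1.1 1 1 = 1 := by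
  have h := b.1.2
  have h0 : b.1.1 1 0 = 0 := b.2
  rw [Matrix.det_fin_two, h0] at h
  simpa using h

lemma borel_mul (a b : borel k) : (a * b).1.1 1 1 = a.1.1 1 1 * b.1.1 1 1 := by
  have h0 : a.1.1 1 0 = 0 := a.2
  simp [Matrix.mul_apply, Fin.sum_univ_two, h0]

lemma borel_inv (b : borel k) : (b⁻¹).1.1 1 1 = b.1.1 0 0 := by
  simp [Matrix.SpecialLinearGroup.coe_inv, Matrix.adjugate_fin_two]

/-- The action of the Borel subgroup on the cusp algebra. -/
noncomputable def rho : borel k →* (cusp k ≃ₐ[k] cusp k) where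
  toFun b := AlgEquiv.ofAlgHom (scale (b.1.1 1 1)) (scale (b.1.1 0 0))
    (by
      refine AlgHom.ext fun p => ?_
      rw [AlgHom.comp_apply, ← scale_mul, mul_comm, borel_det, scale_one]; rfl)
    (by
      refine AlgHom.ext fun p => ?_
      rw [AlgHom.comp_apply, ← scale_mul, borel_det, scale_one]; rfl)
  map_one' := by
    refine AlgEquiv.ext fun p => ?_
    simpa using scale_one p
  map_mul' a b := by
    refine AlgEquiv.ext fun p => ?_
    change scale ((a * b).1.1 1 1) p = scale (a.1.1 1 1) (scale (b.1.1 1 1) p)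
    rw [borel_mul, scale_mul]

lemma rho_apply (b : borel k) (p : cusp k) : rho b p = scale (b.1.1 1 1) p := rfl

lemma rho_inv_coeff (b : borel k) (p : cusp k) (n : ℕ) :
    (rho b⁻¹ p : k[X]).coeff n = (p : k[X]).coeff n * (b.1.1 0 0) ^ n := by
  rw [rho_apply, borel_inv, scale_coeff]

lemma entry_mem (R : Type*) [CommRing R] [Algebra k R] {Y : Type*}
    (ι : Y → Matrix.SpecialLinearGroup (Fin 2) k) (i j : Fin 2) :
    (fun x : Y => algebraMap k R ((ι x).1 i j)) ∈ morphisms k R ι :=
  Algebra.subset_adjoin ⟨(i, j), rfl⟩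

lemma rho_rational (r : cusp k) :
    (fun b : borel k => rho b r) ∈ morphisms k (cusp k) (fun b : borel k => b.1) := by
  have hmem : ∀ n, monomial n ((r : k[X]).coeff n) ∈ cusp k := by
    intro n
    rw [mem_cusp, coeff_monomial]
    split_ifs with h
    · rw [h]; exact r.2
    · rfl
  have : (fun b : borel k => rho b r) = ∑ n ∈ (r : k[X]).support,
      (⟨_, hmem n⟩ : cusp k) • (fun b : borel k => algebraMap k (cusp k) (b.1.1 1 1)) ^ n := by
    funext b
    ext m
    rw [rho_apply, scale_coeff]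
    simp only [Finset.sum_apply, Pi.smul_apply, Pi.pow_apply, smul_eq_mul,
      AddSubmonoidClass.coe_finsetSum, MulMemClass.coe_mul, SubmonoidClass.coe_pow,
      Subalgebra.coe_algebraMap, Polynomial.algebraMap_apply, Algebra.algebraMap_self, RingHom.id_apply,
      finsetSum_coeff, ← C_pow, coeff_mul_C, coeff_monomial]
    rw [Finset.sum_eq_single m]
    · simp
    · intro b _ hb; simp [hb]
    · intro h; simp [notMem_support_iff.1 h]
  rw [this]
  exact Subalgebra.sum_mem _ fun n _ =>
    Subalgebra.smul_mem _ (Subalgebra.pow_mem _ (entry_mem _ _ 1 1) n) _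

end Pool.Agent.P.MP_271f8e_al
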