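import Mathlib

namespace Pool.Agent.P.MP_271f8e_al

/-- The Borel subgroup of upper triangular matrices in `SL_2(k)`. -/
def borel (k : Type*) [Field k] : Subgroup (Matrix.SpecialLinearGroup (Fin 2) k) where
  carrier := {g | g.1 1 0 = 0}
  one_mem' := by simp
  mul_mem' := by
    intro a b ha hb
    simp only [Set.mem_ofPred_eq] at ha hb ⊢
    simp [Matrix.mul_apply, Fin.sum_univ_two, ha, hb]
  inv_mem' := by
    intro a ha
    simp only [Set.mem_ofPred_eq] at ha ⊢
    simp [Matrix.SpecialLinearGroup.coe_inv, Matrix.adjugate_fin_two, ha]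

/-- Morphisms from a closed subvariety `X` of `SL_2(k)` (with inclusion `ι`) to a `k`-algebra `R`:
the maps `X → R` that are polynomials in the four matrix entries with coefficients in `R`,
that is the image of `k[X] ⊗ R` in the maps `X → R`. -/
def morphisms (k : Type*) [Field k] (R : Type*) [CommRing R] [Algebra k R] {X : Type*}
    (ι : X → Matrix.SpecialLinearGroup (Fin 2) k) : Subalgebra R (X → R) :=
  Algebra.adjoin R (Set.range fun ij : Fin 2 × Fin 2 => fun x : X =>
    algebraMap k R ((ι x).1 ij.1 ij.2))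

/-- The induced algebra: morphisms `f : G → R` with `f (g b) = b⁻¹ f g`. -/
def induced {k : Type*} [Field k] {R : Type*} [CommRing R] [Algebra k R]
    (ρ : borel k →* (R ≃ₐ[k] R)) : Subalgebra k (Matrix.SpecialLinearGroup (Fin 2) k → R) where
  carrier := {f | f ∈ morphisms k R (fun g => g) ∧
    ∀ (g : Matrix.SpecialLinearGroup (Fin 2) k) (b : borel k), f (g * b) = ρ b⁻¹ (f g)}
  mul_mem' := fun hf hg => ⟨mul_mem hf.1 hg.1, fun g b => by simp [hf.2 g b, hg.2 g b]⟩
  add_mem' := fun hf hg => ⟨add_mem hf.1 hg.1, fun g b => by simp [hf.2 g b, hg.2 g b]⟩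
  algebraMap_mem' := fun c =>
    ⟨(morphisms k R (fun g => g)).algebraMap_mem (algebraMap k R c), fun g b => by simp⟩

/-- Depth of a local ring: the supremum of the lengths of regular sequences
in the maximal ideal. -/
noncomputable def depth (A : Type*) [CommRing A] [IsLocalRing A] : ℕ∞ :=
  ⨆ rs : {rs : List A // (∀ r ∈ rs, r ∈ IsLocalRing.maximalIdeal A) ∧
    RingTheory.Sequence.IsRegular A rs}, (rs.1.length : ℕ∞)

/-- Cohen-Macaulay ring: Noetherian, and depth equals Krull dimension after localising at
any prime ideal. -/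
def IsCohenMacaulay (A : Type*) [CommRing A] : Prop :=
  IsNoetherianRing A ∧ ∀ (p : Ideal A) [p.IsPrime],
    (depth (Localization.AtPrime p) : WithBot ℕ∞) = ringKrullDim (Localization.AtPrime p)

end Pool.Agent.P.MP_271f8e_al
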