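import Pool.Agent.P.MP_271f8e_al.Cusp

namespace Pool.Agent.P.MP_271f8e_al

open Polynomial

variable {k : Type*} [Field k]

/-- Regular maps restricted to a polynomial curve are polynomial. -/
lemma curve_poly {R : Type*} [CommRing R] [Algebra k R]
    (γ : k → Matrix.SpecialLinearGroup (Fin 2) k)
    (hγ : ∀ i j, ∃ p : k[X], ∀ s, (γ s).1 i j = p.eval s)
    (f : Matrix.SpecialLinearGroup (Fin 2) k → R) (hf : f ∈ morphisms k R (fun g => g)) :
    ∃ F : R[X], ∀ s, f (γ s) = F.eval (algebraMap k R s) := by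
  induction hf using Algebra.adjoin_induction with
  | mem x hx =>
    obtain ⟨⟨i, j⟩, rfl⟩ := hx
    obtain ⟨p, hp⟩ := hγ i j
    refine ⟨p.map (algebraMap k R), fun s => ?_⟩
    simp only [hp]
    rw [eval_map, eval₂_at_apply]
  | algebraMap r => exact ⟨C r, fun s => by simp⟩
  | add x y _ _ hx hy =>
    obtain ⟨F, hF⟩ := hx
    obtain ⟨G, hG⟩ := hy
    exact ⟨F + G, fun s => by simp [hF, hG]⟩
  | mul x y _ _ hx hy =>
    obtain ⟨F, hF⟩ := hx
    obtain ⟨G, hG⟩ := hy
    exact ⟨F * G, fun s => by simp [hF, hG]⟩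

/-- lower unipotent -/
def low (s : k) : Matrix.SpecialLinearGroup (Fin 2) k :=
  ⟨!![1, 0; s, 1], by simp [Matrix.det_fin_two]⟩

/-- opposite chart -/
def opp (s : k) : Matrix.SpecialLinearGroup (Fin 2) k :=
  ⟨!![s, -1; 1, 0], by simp [Matrix.det_fin_two]⟩

lemma low_zero : low (0 : k) = 1 := by
  ext i j; fin_cases i <;> fin_cases j <;> simp [low]

lemma low_poly (i j : Fin 2) : ∃ p : k[X], ∀ s : k, (low s).1 i j = p.eval s := by
  fin_cases i <;> fin_cases j
  · exact ⟨1, by simp [low]⟩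
  · exact ⟨0, by simp [low]⟩
  · exact ⟨X, by simp [low]⟩
  · exact ⟨1, by simp [low]⟩

lemma opp_poly (i j : Fin 2) : ∃ p : k[X], ∀ s : k, (opp s).1 i j = p.eval s := by
  fin_cases i <;> fin_cases j
  · exact ⟨X, by simp [opp]⟩
  · exact ⟨-1, by simp [opp]⟩
  · exact ⟨1, by simp [opp]⟩
  · exact ⟨0, by simp [opp]⟩

lemma mem_low (g : Matrix.SpecialLinearGroup (Fin 2) k) (s : k) (h : g.1 1 0 = s * g.1 0 0) :
    ∃ b : borel k, g = low s * b := by
  refine ⟨⟨(low s)⁻¹ * g, ?_⟩, by simp⟩
  change ((low s)⁻¹ * g).1 1 0 = 0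
  rw [Matrix.SpecialLinearGroup.coe_mul, Matrix.SpecialLinearGroup.coe_inv]
  simp [low, Matrix.adjugate_fin_two, Matrix.mul_apply, Fin.sum_univ_two, h]

lemma mem_opp (g : Matrix.SpecialLinearGroup (Fin 2) k) (s : k) (h : g.1 0 0 = s * g.1 1 0) :
    ∃ b : borel k, g = opp s * b := by
  refine ⟨⟨(opp s)⁻¹ * g, ?_⟩, by simp⟩
  change ((opp s)⁻¹ * g).1 1 0 = 0
  rw [Matrix.SpecialLinearGroup.coe_mul, Matrix.SpecialLinearGroup.coe_inv]
  simp [opp, Matrix.adjugate_fin_two, Matrix.mul_apply, Fin.sum_univ_two, h]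

/-- A function on the projective line that is polynomial on both charts is constant. -/
lemma const_of_charts [Infinite k] (P Q : k[X]) (h : ∀ s : k, s ≠ 0 → P.eval s = Q.eval s⁻¹) :
    ∃ c, P = C c ∧ Q = C c := by
  have hinf : {s : k | s ≠ 0}.Infinite := by
    have : {s : k | s ≠ 0} = {0}ᶜ := by ext; simp
    rw [this]
    exact (Set.finite_singleton 0).infinite_compl
  have h1 : X ^ Q.natDegree * P = Q.reverse := by
    apply eq_of_infinite_eval_eq
    refine hinf.mono fun s hs => ?_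
    have hs' : s ≠ 0 := hs
    let : Invertible s⁻¹ := invertibleOfNonzero (inv_ne_zero hs')
    have := eval₂_reverse_mul_pow (RingHom.id k) s⁻¹ Q
    simp only [invOf_eq_inv, inv_inv, eval₂_id] at this
    simp only [Set.mem_ofPred_eq, eval_mul, eval_pow, eval_X, h s hs', ← this, inv_pow]
    field_simp
  have hP : P.natDegree = 0 := by
    by_cases h0 : P = 0
    · simp [h0]
    · have h2 := congrArg natDegree h1
      rw [natDegree_mul (by simp) h0, natDegree_X_pow] at h2
      have h3 := Q.reverse_natDegree_le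
      omega
  refine ⟨P.coeff 0, eq_C_of_natDegree_eq_zero hP, ?_⟩
  apply eq_of_infinite_eval_eq
  refine hinf.mono fun s hs => ?_
  have hs' : s ≠ 0 := hs
  have := h s⁻¹ (inv_ne_zero hs')
  rw [inv_inv, eq_C_of_natDegree_eq_zero hP] at this
  simpa using this.symm

/-- constant term of an element of the cusp algebra -/
noncomputable def ct : cusp k →ₐ[k] k := (aeval (0 : k) : k[X] →ₐ[k] k).comp (cusp k).val

lemma ct_apply (p : cusp k) : ct p = (p : k[X]).coeff 0 := by
  simp [ct, coeff_zero_eq_eval_zero]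

lemma ct_const [Infinite k] (f : induced (rho (k := k)))
    (g : Matrix.SpecialLinearGroup (Fin 2) k) : ct (f.1 g) = ct (f.1 1) := by
  have hb : ∀ (g : Matrix.SpecialLinearGroup (Fin 2) k) (b : borel k),
      ct (f.1 (g * b)) = ct (f.1 g) := by
    intro g b
    rw [f.2.2 g b, ct_apply, ct_apply, rho_inv_coeff]; simp
  obtain ⟨F, hF⟩ := curve_poly low low_poly f.1 f.2.1
  obtain ⟨G, hG⟩ := curve_poly opp opp_poly f.1 f.2.1
  have ev : ∀ (H : (cusp k)[X]) (s : k), ct (H.eval (algebraMap k (cusp k) s)) =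
      (H.map (ct (k := k)).toRingHom).eval s := by
    intro H s
    have := eval₂_at_apply (p := H) (ct (k := k)).toRingHom (algebraMap k (cusp k) s)
    rw [eval_map]
    simpa using this.symm
  obtain ⟨c, hP, hQ⟩ := const_of_charts (F.map (ct (k := k)).toRingHom) (G.map (ct (k := k)).toRingHom) (by
    intro s hs
    obtain ⟨b, hb'⟩ := mem_opp (low s) s⁻¹ (by simp [low, hs])
    rw [← ev, ← ev, ← hF, ← hG, hb', hb])
  have hl : ∀ s, ct (f.1 (low s)) = c := fun s => by rw [hF, ev, hP]; simp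
  have ho : ∀ s, ct (f.1 (opp s)) = c := fun s => by rw [hG, ev, hQ]; simp
  rw [← low_zero, hl]
  by_cases h0 : g.1 0 0 = 0
  · obtain ⟨b, rfl⟩ := mem_opp g 0 (by simp [h0])
    rw [hb, ho]
  · obtain ⟨b, hg⟩ := mem_low g (g.1 1 0 / g.1 0 0) (by field_simp)
    rw [hg, hb, hl]

/-- the element `g ↦ (g i 0)^n t^n` of the induced algebra -/
noncomputable def xi (i : Fin 2) (n : ℕ) (hn : n ≠ 1) : induced (rho (k := k)) :=
  ⟨fun g => (⟨X ^ n, X_pow_mem hn⟩ : cusp k) * (algebraMap k (cusp k) (g.1 i 0)) ^ n, by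
    constructor
    · exact Subalgebra.smul_mem _ (Subalgebra.pow_mem _ (entry_mem (cusp k) (fun g => g) i 0) n)
        (⟨X ^ n, X_pow_mem hn⟩ : cusp k)
    · intro g b
      ext m
      have h0 : b.1.1 1 0 = 0 := b.2
      rw [rho_inv_coeff]
      simp only [MulMemClass.coe_mul, SubmonoidClass.coe_pow, Subalgebra.coe_algebraMap,
        Polynomial.algebraMap_apply, Algebra.algebraMap_self, RingHom.id_apply, ← C_pow,
        coeff_mul_C, coeff_X_pow, Matrix.SpecialLinearGroup.coe_mul, Matrix.mul_apply,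
        Fin.sum_univ_two, h0]
      split_ifs with h
      · subst h; simp [mul_pow]
      · simp⟩

lemma xi_apply (i : Fin 2) (n : ℕ) (hn : n ≠ 1) (g : Matrix.SpecialLinearGroup (Fin 2) k) :
    (((xi i n hn).1 g : cusp k) : k[X]) = (X * C (g.1 i 0)) ^ n := by
  rw [mul_pow]; rfl

/-- evaluation at a point -/
noncomputable def evAt (g : Matrix.SpecialLinearGroup (Fin 2) k) : induced (rho (k := k)) →ₐ[k] cusp k :=
  (Pi.evalAlgHom k (fun _ => cusp k) g).comp (induced (rho (k := k))).val

/-- the irrelevant maximal ideal -/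
noncomputable def mm : Ideal (induced (rho (k := k))) := RingHom.ker (ct.comp (evAt 1))

lemma mem_mm {f : induced (rho (k := k))} : f ∈ mm ↔ ct (f.1 1) = 0 := Iff.rfl

instance : (mm (k := k)).IsPrime := RingHom.ker_isPrime _

/-- functions vanishing at the identity -/
noncomputable def pp1 : Ideal (induced (rho (k := k))) := RingHom.ker (evAt 1)

lemma mem_pp1 {f : induced (rho (k := k))} : f ∈ pp1 ↔ f.1 1 = 0 := Iff.rfl

instance : (pp1 (k := k)).IsPrime := RingHom.ker_isPrime _

/-- functions vanishing on the lower unipotent group -/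
noncomputable def pp0 : Ideal (induced (rho (k := k))) := ⨅ s : k, RingHom.ker (evAt (low s))

lemma mem_pp0 {f : induced (rho (k := k))} : f ∈ pp0 ↔ ∀ s, f.1 (low s) = 0 := by
  rw [pp0, Ideal.mem_iInf]; rfl

instance [Infinite k] : (pp0 (k := k)).IsPrime := by
  constructor
  · rw [Ideal.ne_top_iff_one, mem_pp0]
    intro h
    simpa using h 0
  · intro f g h
    rw [mem_pp0] at h
    obtain ⟨F, hF⟩ := curve_poly low low_poly f.1 f.2.1
    obtain ⟨G, hG⟩ := curve_poly low low_poly g.1 g.2.1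
    have : F * G = 0 := by
      apply eq_zero_of_infinite_isRoot
      have hinj : Function.Injective (algebraMap k (cusp k)) := (algebraMap k (cusp k)).injective
      refine (Set.infinite_range_of_injective hinj).mono ?_
      rintro _ ⟨s, rfl⟩
      have := h s
      simp only [MulMemClass.coe_mul, Pi.mul_apply, hF, hG] at this
      simpa using this
    rcases mul_eq_zero.1 this with h0 | h0
    · left; rw [mem_pp0]; intro s; rw [hF, h0]; simp
    · right; rw [mem_pp0]; intro s; rw [hG, h0]; simp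

lemma pp0_lt : pp0 < pp1 (k := k) := by
  refine lt_of_le_of_ne (fun f hf => ?_) fun h => ?_
  · rw [mem_pp1, ← low_zero]; exact mem_pp0.1 hf 0
  · have h1 : xi 1 2 (by norm_num) ∈ pp1 (k := k) := by
      rw [mem_pp1]; apply Subtype.ext; rw [xi_apply]; simp
    rw [← h, mem_pp0] at h1
    have h2 := congrArg Subtype.val (h1 1)
    rw [xi_apply] at h2
    simp [low] at h2

lemma pp1_lt : pp1 < mm (k := k) := by
  refine lt_of_le_of_ne (fun f hf => ?_) fun h => ?_
  · rw [mem_mm, mem_pp1.1 hf]; simp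
  · have h1 : xi 0 2 (by norm_num) ∈ mm (k := k) := by
      rw [mem_mm, ct_apply, xi_apply]; simp
    rw [← h, mem_pp1] at h1
    have h2 := congrArg Subtype.val h1
    rw [xi_apply] at h2
    simp at h2

lemma comp_linear_mem {R : Type*} [CommRing R] [Algebra k R] {Y : Type*}
    (ι : Y → Matrix.SpecialLinearGroup (Fin 2) k) (f : Y → R) (hf : f ∈ morphisms k R ι)
    (L : R →ₗ[k] R) : (fun y => L (f y)) ∈ morphisms k R ι := by
  rw [morphisms, ← Subalgebra.mem_toSubmodule, Algebra.adjoin_eq_span] at hf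
  induction hf using Submodule.span_induction generalizing L with
  | mem m hm =>
    have : m ∈ morphisms k R ι ∧ ∃ φ : Y → k, m = fun y => algebraMap k R (φ y) := by
      induction hm using Submonoid.closure_induction with
      | mem x hx =>
        obtain ⟨⟨i, j⟩, rfl⟩ := hx
        exact ⟨entry_mem R ι i j, _, rfl⟩
      | one => exact ⟨one_mem _, fun _ => 1, by funext y; simp⟩
      | mul x y _ _ hx hy =>
        obtain ⟨h1, φ, rfl⟩ := hx
        obtain ⟨h2, ψ, rfl⟩ := hy
        exact ⟨mul_mem h1 h2, φ * ψ, by funext y; simp⟩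
    obtain ⟨h1, φ, rfl⟩ := this
    have e : (fun y => L (algebraMap k R (φ y))) = L 1 • fun y => algebraMap k R (φ y) := by
      funext y
      simp [Algebra.algebraMap_eq_smul_one]
    rw [e]
    exact Subalgebra.smul_mem _ h1 _
  | zero => simp only [Pi.zero_apply, map_zero]; exact (morphisms k R ι).zero_mem
  | add x y _ _ hx hy =>
    simp only [Pi.add_apply, map_add]; exact (morphisms k R ι).add_mem (hx L) (hy L)
  | smul r x _ hx => simpa using hx (L ∘ₗ LinearMap.mulLeft k r)

/-- drop the constant term and multiply by `t` -/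
noncomputable def shiftL : cusp k →ₗ[k] cusp k where
  toFun p := ⟨((p : k[X]) - C ((p : k[X]).coeff 0)) * X, by rw [mem_cusp, coeff_mul_X]; simp⟩
  map_add' p q := by apply Subtype.ext; simp; ring
  map_smul' c p := by apply Subtype.ext; simp [smul_eq_C_mul]; ring

/-- Every element of `mm` can be multiplied by `g ↦ (g 0 0) t` inside the induced algebra. -/
lemma exists_mul_xi [Infinite k] (f : induced (rho (k := k))) (hf : f ∈ mm) :
    ∃ w : induced (rho (k := k)), ∀ g, ((w.1 g : cusp k) : k[X]) =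
      ((f.1 g : cusp k) : k[X]) * (X * C (g.1 0 0)) := by
  have h0 : ∀ g, ((f.1 g : cusp k) : k[X]).coeff 0 = 0 := fun g => by
    rw [← ct_apply, ct_const, mem_mm.1 hf]
  have hm : ∀ g : Matrix.SpecialLinearGroup (Fin 2) k,
      ((f.1 g : cusp k) : k[X]) * (X * C (g.1 0 0)) ∈ cusp k := fun g => by
    rw [mem_cusp, ← mul_assoc, coeff_mul_C, coeff_mul_X, h0]; simp
  refine ⟨⟨fun g => ⟨_, hm g⟩, ?_, ?_⟩, fun g => rfl⟩
  · have e : (fun g => (⟨_, hm g⟩ : cusp k)) = (fun g => shiftL (f.1 g)) *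
        fun g : Matrix.SpecialLinearGroup (Fin 2) k => algebraMap k (cusp k) (g.1 0 0) := by
      funext g
      apply Subtype.ext
      simp [shiftL, h0, mul_assoc]
    rw [e]
    exact mul_mem (comp_linear_mem _ _ f.2.1 _) (entry_mem _ _ 0 0)
  · intro g b
    ext m
    have hb : b.1.1 1 0 = 0 := b.2
    rw [rho_inv_coeff]
    simp only [← mul_assoc, coeff_mul_C, Matrix.SpecialLinearGroup.coe_mul, Matrix.mul_apply,
      Fin.sum_univ_two, hb]
    cases m with
    | zero => simp
    | succ m => rw [coeff_mul_X, coeff_mul_X, f.2.2 g b, rho_inv_coeff]; ring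

theorem induced_not_isCM [Infinite k] : ¬ IsCohenMacaulay (induced (rho (k := k))) := by
  refine not_isCM' _ pp0 pp1 mm inferInstance inferInstance inferInstance pp0_lt pp1_lt ?_
  intro f hu g hv hreg
  obtain ⟨w, hw⟩ := exists_mul_xi f hu
  obtain ⟨w', hw'⟩ := exists_mul_xi g hv
  have hfg : g * w = f * w' := by
    apply Subtype.ext; funext x; apply Subtype.ext
    simp only [MulMemClass.coe_mul, Pi.mul_apply, hw, hw']; ring
  refine ⟨w, ⟨w', hfg⟩, ?_⟩
  rintro ⟨s, hs, a, h1⟩
  have h2 : f * xi 0 3 (by norm_num) = xi 0 2 (by norm_num) * w := by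
    apply Subtype.ext; funext x; apply Subtype.ext
    simp only [MulMemClass.coe_mul, Pi.mul_apply, hw, xi_apply]; ring
  have h3 : f * (xi 0 3 (by norm_num) * s - xi 0 2 (by norm_num) * a) = 0 := by
    linear_combination s * h2 + xi 0 2 (by norm_num) * h1
  obtain ⟨s5, n5, hs5⟩ := hreg _ h3
  have h5 := congrArg (fun y : induced (rho (k := k)) => ((y.1 1 : cusp k) : k[X])) hs5
  simp only [MulMemClass.coe_mul, Pi.mul_apply, AddSubgroupClass.coe_sub, Pi.sub_apply,
    xi_apply, ZeroMemClass.coe_zero, Pi.zero_apply] at h5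
  have n5 : ((s5.1 1 : cusp k) : k[X]) ≠ 0 := by
    intro h
    apply n5
    rw [mem_mm, ct_apply, h]; simp
  have h6 := (mul_eq_zero.1 h5).resolve_left n5
  have h7 : (X : k[X]) * ((s.1 1 : cusp k) : k[X]) = ((a.1 1 : cusp k) : k[X]) := by
    apply mul_left_cancel₀ (pow_ne_zero 2 (X_ne_zero (R := k)))
    simp only [Matrix.SpecialLinearGroup.coe_one, Matrix.one_apply_eq, map_one, mul_one] at h6
    linear_combination h6
  have h8 := (a.1 1 : cusp k).2
  rw [mem_cusp, ← h7, coeff_X_mul] at h8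
  apply hs
  rw [mem_mm, ct_apply, h8]

end Pool.Agent.P.MP_271f8e_al
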