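import Mathlib

/-! Algebra of the hypersurface `c0 x0^q + c1 x1^q + c2 x2^q`. -/

namespace Pool.Agent.P.MP_271f8e_al.Pl

open MvPolynomial Sum

section Reg

variable {A : Type*} [CommRing A]

/-- `a` is a non-zero-divisor modulo `v`. -/
def N1 (a v : A) : Prop := ∀ y t, a * y = t * v → ∃ t', y = t' * v

/-- `a` is a non-zero-divisor modulo `u, v`. -/
def NZ (a u v : A) : Prop := ∀ y s t, a * y = s * u + t * v → ∃ s' t', y = s' * u + t' * v

lemma N1.mul {a b v : A} (ha : N1 a v) (hb : N1 b v) : N1 (a * b) v := by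
  intro y t h
  obtain ⟨t1, h1⟩ := ha (b * y) t (by rw [← h]; ring)
  exact hb y t1 h1

lemma N1.pow {a v : A} (ha : N1 a v) (n : ℕ) : N1 (a ^ n) v := by
  induction n with
  | zero => intro y t h; exact ⟨t, by simpa using h⟩
  | succ n ih => rw [pow_succ]; exact ih.mul ha

lemma N1.of_prime [IsDomain A] {p v : A} (hp : Prime p) (h : ¬ p ∣ v) : N1 p v := by
  intro y t e
  obtain ⟨t', rfl⟩ := (hp.dvd_or_dvd (a := t) (b := v) ⟨y, e.symm⟩).resolve_right h
  exact ⟨t', mul_left_cancel₀ hp.ne_zero (by rw [e]; ring)⟩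

lemma NZ.symm {a u v : A} (h : NZ a u v) : NZ a v u := by
  intro y s t e
  obtain ⟨s', t', e'⟩ := h y t s (by rw [e]; ring)
  exact ⟨t', s', by rw [e']; ring⟩

lemma NZ.mul_left {a u u' v : A} (h : NZ a u v) (h' : NZ a u' v) (hu : N1 u v) :
    NZ a (u * u') v := by
  intro y s t e
  obtain ⟨e1, e2, rfl⟩ := h y (s * u') t (by rw [e]; ring)
  obtain ⟨r, hr⟩ := hu (a * e1 - u' * s) (t - a * e2) (by linear_combination e)
  obtain ⟨s', t', rfl⟩ := h' e1 s r (by linear_combination hr)
  exact ⟨s', t' * u + e2, by ring⟩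

lemma NZ.pow_left {a u v : A} (h : NZ a u v) (hu : N1 u v) (n : ℕ) : NZ a (u ^ n) v := by
  induction n with
  | zero => intro y s t _; exact ⟨y, 0, by simp⟩
  | succ n ih => rw [pow_succ']; exact h.mul_left ih hu

lemma NZ.pow {a u v : A} (h : NZ a u v) (n : ℕ) : NZ (a ^ n) u v := by
  induction n with
  | zero => intro y s t e; exact ⟨s, t, by simpa using e⟩
  | succ n ih =>
    intro y s t e
    obtain ⟨s1, t1, e1⟩ := ih (a * y) s t (by rw [← e]; ring)
    exact h y s1 t1 e1

lemma NZ.perm {a f g : A} (h : NZ a f g) (hf : N1 f g) : NZ f g a := by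
  intro y s t e
  obtain ⟨e1, e2, rfl⟩ := h t y (-s) (by linear_combination -e)
  obtain ⟨r, hr⟩ := hf (y - a * e1) (s + a * e2) (by linear_combination e)
  exact ⟨r, e1, by linear_combination hr⟩

end Reg

/-- Index set of the six variables. -/
abbrev Ix := Fin 3 ⊕ Fin 3

variable {k : Type*} [Field k]

/-- The polynomial ring in the six variables. -/
abbrev SS (k : Type*) [Field k] := MvPolynomial Ix k

/-- The equation. -/
noncomputable def Phi (k : Type*) [Field k] (q : ℕ) : SS k := ∑ i : Fin 3, X (inr i) * X (inl i) ^ q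

lemma eval_Phi (q : ℕ) (v : Ix → k) :
    eval v (Phi k q) = v (inr 0) * v (inl 0) ^ q + v (inr 1) * v (inl 1) ^ q +
      v (inr 2) * v (inl 2) ^ q := by
  simp [Phi, Fin.sum_univ_three]

lemma N1_X {a : Ix} {P : SS k} (v : Ix → k) (ha : v a = 0) (hP : eval v P ≠ 0) : N1 (X a) P := by
  refine N1.of_prime X_prime ?_
  rintro ⟨r, rfl⟩
  simp [ha] at hP

lemma kill_eq (T : Finset Ix) (P : SS k) : ∃ s : Ix → SS k,
    P = aeval (fun i => if i ∈ T then (0 : SS k) else X i) P + ∑ i ∈ T, s i * X i := by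
  induction P using MvPolynomial.induction_on with
  | C a => exact ⟨0, by simp⟩
  | add p r hp hr =>
    obtain ⟨s, hs⟩ := hp
    obtain ⟨t, ht⟩ := hr
    refine ⟨s + t, ?_⟩
    simp only [map_add, Pi.add_apply, add_mul, Finset.sum_add_distrib]
    linear_combination hs + ht
  | mul_X p i hp =>
    obtain ⟨s, hs⟩ := hp
    by_cases hi : i ∈ T
    · refine ⟨Pi.single i p, ?_⟩
      rw [map_mul, aeval_X, if_pos hi, Finset.sum_eq_single i]
      · simp
      · intro b _ hb; simp [hb]
      · intro h; exact absurd hi h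
    · refine ⟨fun j => s j * X i, ?_⟩
      rw [map_mul, aeval_X, if_neg hi]
      have : ∑ j ∈ T, s j * X i * X j = (∑ j ∈ T, s j * X j) * X i := by
        rw [Finset.sum_mul]; exact Finset.sum_congr rfl fun j _ => by ring
      rw [this]
      linear_combination X i * hs

lemma eval_kill (T : Finset Ix) (v : Ix → k) (P : SS k) :
    eval v (aeval (fun i => if i ∈ T then (0 : SS k) else X i) P) =
      eval (fun i => if i ∈ T then 0 else v i) P := by
  induction P using MvPolynomial.induction_on with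
  | C a => simp
  | add p r hp hr => simp only [map_add, hp, hr]
  | mul_X p i hp =>
    simp only [map_mul, hp, aeval_X, eval_X]
    split_ifs <;> simp

lemma NZ_X {a b : Ix} (hab : a ≠ b) {P : SS k} (v : Ix → k) (ha : v a = 0) (hb : v b = 0)
    (hP : eval v P ≠ 0) : NZ P (X a) (X b) := by
  intro y s t e
  have h1 := congrArg (aeval (fun i => if i ∈ ({a, b} : Finset Ix) then (0 : SS k) else X i)) e
  simp only [map_mul, map_add, aeval_X, Finset.mem_insert, Finset.mem_singleton, true_or, or_true,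
    if_true, mul_zero, add_zero] at h1
  obtain ⟨r, hr⟩ := kill_eq {a, b} y
  have h2 : aeval (fun i => if i ∈ ({a, b} : Finset Ix) then (0 : SS k) else X i) P ≠ 0 := by
    intro h
    apply hP
    have := eval_kill {a, b} v P
    rw [h, map_zero] at this
    rw [this]
    congr 2
    funext i
    split_ifs with hi
    · rcases Finset.mem_insert.1 hi with rfl | hi
      · exact ha
      · rw [Finset.mem_singleton.1 hi]; exact hb
    · rfl
  simp only [Finset.mem_insert, Finset.mem_singleton] at h2 hr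
  rw [(mul_eq_zero.1 h1).resolve_left h2, Finset.sum_pair hab, zero_add] at hr
  exact ⟨_, _, hr⟩

lemma pseudo (q : ℕ) (P : SS k) : ∃ (N : ℕ) (Q T : SS k), X (inl 0) ^ N * P = Q * Phi k q + T ∧
    ∀ (v : Ix → k) (t : k), eval (Function.update v (inr 0) t) T = eval v T := by
  induction P using MvPolynomial.induction_on with
  | C a => exact ⟨0, 0, C a, by simp, by simp⟩
  | add p r hp hr =>
    obtain ⟨N, Q, T, e, h⟩ := hp
    obtain ⟨N', Q', T', e', h'⟩ := hr
    refine ⟨N + N', X (inl 0) ^ N' * Q + X (inl 0) ^ N * Q', X (inl 0) ^ N' * T + X (inl 0) ^ N * T',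
      by linear_combination X (inl 0) ^ N' * e + X (inl 0) ^ N * e', fun v t => ?_⟩
    simp [h, h']
  | mul_X p i hp =>
    obtain ⟨N, Q, T, e, h⟩ := hp
    by_cases hi : i = inr 0
    · subst hi
      refine ⟨N + q, X (inl 0) ^ q * X (inr 0) * Q + T,
        -(X (inr 1) * X (inl 1) ^ q + X (inr 2) * X (inl 2) ^ q) * T, ?_, fun v t => ?_⟩
      · have : Phi k q = X (inr 0) * X (inl 0) ^ q + X (inr 1) * X (inl 1) ^ q +
          X (inr 2) * X (inl 2) ^ q := by simp [Phi, Fin.sum_univ_three]
        linear_combination X (inl 0) ^ q * X (inr 0) * e - T * this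
      · simp [h]
    · refine ⟨N, Q * X i, T * X i, by linear_combination X i * e, fun v t => ?_⟩
      simp [h, Function.update_of_ne hi]

lemma N1_x (q : ℕ) (i : Fin 3) : N1 (X (inl i)) (Phi k q) := by
  fin_cases i
  · exact N1_X (Sum.elim ![0, 1, 0] ![0, 1, 0]) (by simp) (by simp [eval_Phi])
  · exact N1_X (Sum.elim ![1, 0, 0] ![1, 0, 0]) (by simp) (by simp [eval_Phi])
  · exact N1_X (Sum.elim ![1, 0, 0] ![1, 0, 0]) (by simp) (by simp [eval_Phi])

lemma N1_c (q : ℕ) (i : Fin 3) : N1 (X (inr i)) (Phi k q) := by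
  fin_cases i
  · exact N1_X (Sum.elim ![0, 1, 0] ![0, 1, 0]) (by simp) (by simp [eval_Phi])
  · exact N1_X (Sum.elim ![1, 0, 0] ![1, 0, 0]) (by simp) (by simp [eval_Phi])
  · exact N1_X (Sum.elim ![1, 0, 0] ![1, 0, 0]) (by simp) (by simp [eval_Phi])

/-- A polynomial vanishing on the chart `x0 ≠ 0` of the hypersurface is a multiple of `Phi`. -/
lemma ker_Phi [Infinite k] (q : ℕ) (P : SS k)
    (h : ∀ v : Ix → k, v (inl 0) ≠ 0 → eval v (Phi k q) = 0 → eval v P = 0) :
    ∃ E, P = E * Phi k q := by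
  obtain ⟨N, Q, T, e, hT⟩ := pseudo q P
  have h1 : X (inl 0) * T = 0 := by
    apply MvPolynomial.funext
    intro v
    by_cases h0 : v (inl 0) = 0
    · simp [h0]
    · set t := -(v (inr 1) * v (inl 1) ^ q + v (inr 2) * v (inl 2) ^ q) / v (inl 0) ^ q with ht
      have hΦ : eval (Function.update v (inr 0) t) (Phi k q) = 0 := by
        rw [eval_Phi]
        simp only [Function.update_self, ne_eq, reduceCtorEq, not_false_eq_true,
          Function.update_of_ne, inr.injEq, one_ne_zero, Fin.reduceEq]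
        rw [ht]; field_simp; ring
      have h2 := h (Function.update v (inr 0) t) (by simpa using h0) hΦ
      have h3 := congrArg (eval (Function.update v (inr 0) t)) e
      rw [map_mul, map_add, map_mul, h2, hΦ, hT] at h3
      simp only [mul_zero, zero_add] at h3
      simp [← h3]
  have h4 : T = 0 := (mul_eq_zero.1 h1).resolve_left (X_ne_zero _)
  rw [h4, add_zero] at e
  exact (N1_x q 0).pow N P Q e

/-- `x1` is a non-zero-divisor modulo powers of `x0` and `Phi`. -/
lemma hartogs (q : ℕ) (N M : ℕ) :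
    NZ (X (inl 1) ^ M) (X (inl 0) ^ N) (Phi k q) := by
  have h1 : NZ (Phi k q) (X (inl 1)) (X (inl 0)) :=
    NZ_X (by decide) (Sum.elim ![0, 0, 1] ![0, 0, 1]) (by simp) (by simp) (by simp [eval_Phi])
  have h2 : N1 (X (inl 1) : SS k) (X (inl 0)) :=
    N1_X (Sum.elim ![1, 0, 0] ![1, 0, 0]) (by simp) (by simp)
  exact ((h1.perm h2).pow_left (N1_x q 0) N).pow M

/-- `x0 c1` is a non-zero-divisor modulo `x1 c0` and `Phi`. -/
lemma reg_fg (q : ℕ) :
    NZ (X (inl 0) * X (inr 1)) (X (inl 1) * X (inr 0)) (Phi k q) := by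
  have b (a b : Ix) (hab : a ≠ b) (ha : a ≠ inl 2) (ha' : a ≠ inr 2) (hb : b ≠ inl 2)
      (hb' : b ≠ inr 2) : NZ (Phi k q) (X a) (X b) := by
    refine NZ_X hab (Sum.elim ![0, 0, 1] ![0, 0, 1]) ?_ ?_ (by simp [eval_Phi])
    · rcases a with a | a <;> fin_cases a <;> simp_all
    · rcases b with b | b <;> fin_cases b <;> simp_all
  have n (a b : Ix) (hab : a ≠ b) : N1 (X a : SS k) (X b) :=
    N1_X (Pi.single b 1) (by simp [hab]) (by simp)
  have n2 (a : Ix) (h1 : a ≠ inl 1) (h2 : a ≠ inr 0) : N1 (X a : SS k) (X (inl 1) * X (inr 0)) :=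
    N1_X (fun i => if i = a then 0 else 1) (by simp) (by simp [h1.symm, h2.symm])
  have g (a : Ix) (h1 : a ≠ inl 1) (h2 : a ≠ inr 0) (ha : a ≠ inl 2) (ha' : a ≠ inr 2) :
      NZ (Phi k q) (X a) (X (inl 1) * X (inr 0)) :=
    ((b _ a h1.symm (by decide) (by decide) ha ha').mul_left
      (b _ a h2.symm (by decide) (by decide) ha ha') (n _ a h1.symm)).symm
  exact ((g (inl 0) (by decide) (by decide) (by decide) (by decide)).mul_left
    (g (inr 1) (by decide) (by decide) (by decide) (by decide))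
    (n2 _ (by decide) (by decide))).perm
    ((n2 _ (by decide) (by decide)).mul (n2 _ (by decide) (by decide)))

/-- Weights: `1` on the `x`, `-1` on the `c`. -/
def wt : Ix → ℤ := Sum.elim (fun _ => 1) (fun _ => -1)

/-- Homogeneous of weight `n`. -/
abbrev Hom (P : SS k) (n : ℤ) : Prop := IsWeightedHomogeneous wt P n

lemma hom_x (i : Fin 3) : Hom (X (inl i) : SS k) 1 := isWeightedHomogeneous_X k wt (inl i)

lemma hom_c (i : Fin 3) : Hom (X (inr i) : SS k) (-1) := isWeightedHomogeneous_X k wt (inr i)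

lemma Hom.pow' {P : SS k} {n : ℤ} (h : Hom P n) (m : ℕ) : Hom (P ^ m) (m * n) := by
  induction m with
  | zero => simpa using isWeightedHomogeneous_one k wt
  | succ m ih =>
    have := IsWeightedHomogeneous.mul ih h
    rw [pow_succ]
    have e : ((m + 1 : ℕ) : ℤ) * n = m * n + n := by push_cast; ring
    rw [e]; exact this

lemma hom_Phi (q : ℕ) : Hom (Phi k q) (-1 + q * 1) :=
  IsWeightedHomogeneous.sum _ _ _ fun i _ => IsWeightedHomogeneous.mul (hom_c i) ((hom_x i).pow' q)

lemma comp_mul (a : SS k) {h : SS k} {m : ℤ} (hh : Hom h m) (n : ℤ) :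
    weightedHomogeneousComponent wt n (a * h) = weightedHomogeneousComponent wt (n - m) a * h := by
  classical
  let _ := weightedGradedAlgebra k wt
  have := DirectSum.coe_decompose_mul_add_of_right_mem (weightedHomogeneousSubmodule k wt)
    (a := a) (i := n - m) (show h ∈ weightedHomogeneousSubmodule k wt m from hh)
  rw [sub_add_cancel] at this
  rw [← MvPolynomial.decompose'_apply k wt (a * h) n, ← MvPolynomial.decompose'_apply k wt a (n - m)]
  exact this

lemma proj {q : ℕ} {P f g a b e : SS k} {n m m' : ℤ} (hP : Hom P n) (hf : Hom f m) (hg : Hom g m')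
    (h : P = a * f + b * g + e * Phi k q) :
    ∃ a' b' e', Hom a' (n - m) ∧ Hom b' (n - m') ∧ P = a' * f + b' * g + e' * Phi k q := by
  have h1 := congrArg (weightedHomogeneousComponent wt n) h
  rw [map_add, map_add, comp_mul a hf, comp_mul b hg, comp_mul e (hom_Phi q),
    hP.weightedHomogeneousComponent_same] at h1
  exact ⟨_, _, _, weightedHomogeneousComponent_isWeightedHomogeneous _ _,
    weightedHomogeneousComponent_isWeightedHomogeneous _ _, h1⟩

/-- The algebra generated by the nine products `x_i c_j`. -/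
noncomputable def D0 (k : Type*) [Field k] : Subalgebra k (SS k) :=
  Algebra.adjoin k (Set.range fun ij : Fin 3 × Fin 3 => X (inl ij.1) * X (inr ij.2))

lemma xc_mem (i j : Fin 3) : X (inl i) * X (inr j) ∈ D0 k := Algebra.subset_adjoin ⟨(i, j), rfl⟩

lemma hom_xc (i j : Fin 3) : Hom (X (inl i) * X (inr j) : SS k) 0 := by
  simpa using IsWeightedHomogeneous.mul (hom_x (k := k) i) (hom_c j)

lemma D0_hom {P : SS k} (h : P ∈ D0 k) : Hom P 0 := by
  induction h using Algebra.adjoin_induction with
  | mem x hx => obtain ⟨ij, rfl⟩ := hx; exact hom_xc _ _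
  | algebraMap r => exact isWeightedHomogeneous_C wt r
  | add x y _ _ hx hy => exact hx.add hy
  | mul x y _ _ hx hy => simpa using IsWeightedHomogeneous.mul hx hy

lemma mon_mem (n : ℕ) : ∀ d : Ix →₀ ℕ, ∑ i : Fin 3, d (inl i) = n → ∑ i : Fin 3, d (inr i) = n →
    monomial d (1 : k) ∈ D0 k := by
  induction n with
  | zero =>
    intro d h1 h2
    have : d = 0 := by
      ext i
      rcases i with i | i
      · exact Finset.sum_eq_zero_iff.1 h1 i (Finset.mem_univ i)
      · exact Finset.sum_eq_zero_iff.1 h2 i (Finset.mem_univ i)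
    rw [this]; exact one_mem _
  | succ n ih =>
    intro d h1 h2
    obtain ⟨i, -, hi⟩ := Finset.exists_ne_zero_of_sum_ne_zero (h1.trans_ne (Nat.succ_ne_zero n))
    obtain ⟨j, -, hj⟩ := Finset.exists_ne_zero_of_sum_ne_zero (h2.trans_ne (Nat.succ_ne_zero n))
    obtain ⟨d', rfl⟩ : ∃ d', d = d' + (Finsupp.single (inl i) 1 + Finsupp.single (inr j) 1) := by
      refine ⟨d - (Finsupp.single (inl i) 1 + Finsupp.single (inr j) 1), (tsub_add_cancel_of_le ?_).symm⟩
      intro a
      rcases a with a | a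
      · by_cases h : i = a
        · subst h; simpa using Nat.one_le_iff_ne_zero.2 hi
        · simp [h]
      · by_cases h : j = a
        · subst h; simpa using Nat.one_le_iff_ne_zero.2 hj
        · simp [h]
    have e : monomial (d' + (Finsupp.single (inl i) 1 + Finsupp.single (inr j) 1)) (1 : k) =
        monomial d' 1 * (X (inl i) * X (inr j)) := by
      simp [X, monomial_mul]
    rw [e]
    refine mul_mem (ih d' ?_ ?_) (xc_mem i j)
    · simpa [Finset.sum_add_distrib, Finsupp.single_apply] using h1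
    · simpa [Finset.sum_add_distrib, Finsupp.single_apply] using h2

lemma mem_D0 {P : SS k} (h : Hom P 0) : P ∈ D0 k := by
  rw [P.as_sum]
  refine sum_mem fun d hd => ?_
  have h1 := h (mem_support_iff.1 hd)
  rw [Finsupp.weight_apply, Finsupp.sum_fintype _ _ (by simp), Fintype.sum_sum_type] at h1
  simp only [wt, elim_inl, elim_inr, nsmul_eq_mul, mul_one, mul_neg, Finset.sum_neg_distrib] at h1
  have h2 : ∑ i : Fin 3, d (inr i) = ∑ i : Fin 3, d (inl i) := by
    have : ((∑ i : Fin 3, d (inr i) : ℕ) : ℤ) = ((∑ i : Fin 3, d (inl i) : ℕ) : ℤ) := by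
      push_cast; linarith
    exact_mod_cast this
  have e : monomial d (coeff d P) = coeff d P • monomial d (1 : k) := by
    simp [smul_monomial]
  rw [e]
  exact Subalgebra.smul_mem _ (mon_mem _ d rfl h2) _

/-- Two algebra maps killing the nine products agree on weight zero. -/
lemma D0_const {B : Type*} [CommRing B] [Algebra k B] (ψ : SS k →ₐ[k] B)
    (hψ : ∀ i j, ψ (X (inl i) * X (inr j)) = 0) {P : SS k} (h : P ∈ D0 k) :
    ψ P = algebraMap k B (eval 0 P) := by
  induction h using Algebra.adjoin_induction with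
  | mem x hx => obtain ⟨ij, rfl⟩ := hx; rw [hψ]; simp
  | algebraMap r => simp
  | add x y _ _ hx hy => rw [map_add, map_add, map_add, hx, hy]
  | mul x y _ _ hx hy => rw [map_mul, map_mul, map_mul, hx, hy]

lemma D0_x {P : SS k} (h : P ∈ D0 k) (h0 : eval 0 P = 0) :
    ∃ a b c, P = a * X (inl 0) + b * X (inl 1) + c * X (inl 2) := by
  obtain ⟨s, hs⟩ := kill_eq {inl 0, inl 1, inl 2} P
  rw [D0_const _ (fun i j => by fin_cases i <;> simp) h, h0, map_zero, zero_add,
    Finset.sum_insert (by decide), Finset.sum_pair (by decide)] at hs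
  exact ⟨s (inl 0), s (inl 1), s (inl 2), by linear_combination hs⟩

end Pool.Agent.P.MP_271f8e_al.Pl
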