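import Pool.Agent.P.MP_271f8e_al.PlDefs
import Pool.Agent.P.MP_271f8e_al.PlAlg

/-! The linear action of the Borel subgroup and the map `th` to the induced algebra. -/

namespace Pool.Agent.P.MP_271f8e_al.Pl

open MvPolynomial Sum Matrix

variable {k : Type*} [Field k]

/-- The group. -/
abbrev GG (k : Type*) [Field k] := Matrix.SpecialLinearGroup (Fin 3) k

/-- The polynomial ring in two variables. -/
abbrev RR (k : Type*) [Field k] := MvPolynomial (Fin 2) k

variable (φ : k →+* k)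

/-- Row vector times the twisted matrix. -/
def row (g : GG k) (c : Fin 3 → k) : Fin 3 → k := c ᵥ* g.1.map φ

lemma row_apply (g : GG k) (c : Fin 3 → k) (j : Fin 3) :
    row φ g c j = c 0 * φ (g.1 0 j) + c 1 * φ (g.1 1 j) + c 2 * φ (g.1 2 j) := by
  simp [row, vecMul, dotProduct, Fin.sum_univ_three]

lemma row_mul (g h : GG k) (c : Fin 3 → k) : row φ (g * h) c = row φ h (row φ g c) := by
  simp [row, Matrix.map_mul]

lemma row_one (c : Fin 3 → k) : row φ 1 c = c := by
  simp [row, Matrix.map_one]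

lemma row_smul (g : GG k) (a : k) (c : Fin 3 → k) : row φ g (a • c) = a • row φ g c := by
  simp [row, smul_vecMul]

/-- Put a zero in front. -/
def til (w : Fin 2 → k) : Fin 3 → k := ![0, w 0, w 1]

/-- Drop the first entry. -/
def tl (c : Fin 3 → k) : Fin 2 → k := ![c 1, c 2]

lemma tl_til (w : Fin 2 → k) : tl (til w) = w := by
  funext i; fin_cases i <;> simp [tl, til]

lemma til_tl {c : Fin 3 → k} (h : c 0 = 0) : til (tl c) = c := by
  funext i; fin_cases i <;> simp [tl, til, h]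

lemma til_smul (a : k) (w : Fin 2 → k) : til (a • w) = a • til w := by
  funext i; fin_cases i <;> simp [til]

lemma tl_smul (a : k) (c : Fin 3 → k) : tl (a • c) = a • tl c := by
  funext i; fin_cases i <;> simp [tl]

lemma row_zero {p : GG k} (h1 : p.1 1 0 = 0) (h2 : p.1 2 0 = 0) {c : Fin 3 → k} (h : c 0 = 0) :
    row φ p c 0 = 0 := by
  simp [row_apply, h, h1, h2]

lemma b_det (b : borel3 k) : b.1.1 0 0 * (b.1.1 1 1 * b.1.1 2 2) = 1 := by
  have h := b.1.2
  obtain ⟨h1, h2, h3⟩ := b.2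
  rw [Matrix.det_fin_three, h1, h2, h3] at h
  linear_combination h

lemma mul_col (g p : GG k) (h1 : p.1 1 0 = 0) (h2 : p.1 2 0 = 0) (i : Fin 3) :
    (g * p).1 i 0 = g.1 i 0 * p.1 0 0 := by
  simp [Matrix.mul_apply, Fin.sum_univ_three, h1, h2]

lemma b_inv (b : borel3 k) : (b⁻¹).1.1 1 1 * (b⁻¹).1.1 2 2 = b.1.1 0 0 := by
  have h1 := b_det b⁻¹
  have h2 := mul_col (b⁻¹).1 b.1 b.2.1 b.2.2.1 0
  have h3 : (b⁻¹).1 * b.1 = 1 := by simp
  rw [h3] at h2
  simp only [Matrix.SpecialLinearGroup.coe_one, one_apply_eq] at h2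
  linear_combination ((b⁻¹).1.1 1 1 * (b⁻¹).1.1 2 2) * h2 + b.1.1 0 0 * h1

/-- The map on points. -/
def act (b : GG k) (w : Fin 2 → k) : Fin 2 → k := (b.1 1 1 * b.1 2 2) • tl (row φ b (til w))

/-- The substitution. -/
noncomputable def rh (b : GG k) : RR k →ₐ[k] RR k :=
  aeval fun j => C (b.1 1 1 * b.1 2 2 * φ (b.1 1 j.succ)) * X 0 +
    C (b.1 1 1 * b.1 2 2 * φ (b.1 2 j.succ)) * X 1

lemma eval_rh (b : GG k) (w : Fin 2 → k) (r : RR k) : eval w (rh φ b r) = eval (act φ b w) r := by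
  induction r using MvPolynomial.induction_on with
  | C a => simp [rh]
  | add p r hp hr => simp only [map_add, hp, hr]
  | mul_X p i hp =>
    simp only [map_mul, hp, eval_X]
    congr 1
    fin_cases i <;> simp [rh, act, tl, til, row_apply] <;> ring

lemma act_one (w : Fin 2 → k) : act φ 1 w = w := by
  simp [act, row_one, tl_til]

lemma act_mul (a b : borel3 k) (w : Fin 2 → k) :
    act φ (a.1 * b.1) w = act φ b.1 (act φ a.1 w) := by
  have h0 : row φ a.1 (til w) 0 = 0 := row_zero φ a.2.1 a.2.2.1 (by simp [til])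
  have h1 : (a.1 * b.1).1 1 1 = a.1.1 1 1 * b.1.1 1 1 := by
    simp [Matrix.mul_apply, Fin.sum_univ_three, a.2.1, b.2.2.2]
  have h2 : (a.1 * b.1).1 2 2 = a.1.1 2 2 * b.1.1 2 2 := by
    simp [Matrix.mul_apply, Fin.sum_univ_three, a.2.2.1, a.2.2.2]
  simp only [act, til_smul, til_tl h0, row_smul, tl_smul, row_mul, smul_smul, h1, h2]
  congr 1; ring

section Inf

variable [Infinite k]

lemma rh_one (r : RR k) : rh φ 1 r = r :=
  MvPolynomial.funext fun w => by rw [eval_rh, act_one]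

lemma rh_mul (a b : borel3 k) (r : RR k) : rh φ (a.1 * b.1) r = rh φ a.1 (rh φ b.1 r) :=
  MvPolynomial.funext fun w => by rw [eval_rh, eval_rh, eval_rh, act_mul]

/-- The action of the Borel subgroup on the polynomial ring. -/
noncomputable def rho3 : borel3 k →* (RR k ≃ₐ[k] RR k) where
  toFun b := AlgEquiv.ofAlgHom (rh φ b.1) (rh φ (b⁻¹).1)
    (AlgHom.ext fun p => by
      rw [AlgHom.comp_apply, ← rh_mul]; simpa using rh_one φ p)
    (AlgHom.ext fun p => by
      rw [AlgHom.comp_apply, ← rh_mul]; simpa using rh_one φ p)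
  map_one' := AlgEquiv.ext fun p => rh_one φ p
  map_mul' a b := AlgEquiv.ext fun p => rh_mul φ a b p

lemma rho3_apply (b : borel3 k) (r : RR k) : rho3 φ b r = rh φ b.1 r := rfl

omit [Infinite k] in
lemma entry_mem3 {Y : Type*} (ι : Y → GG k) (i j : Fin 3) :
    (fun x : Y => (C ((ι x).1 i j) : RR k)) ∈ morphisms3 k (RR k) ι :=
  Algebra.subset_adjoin ⟨(i, j), rfl⟩

omit [Infinite k] in
lemma const_mem3 {Y : Type*} (ι : Y → GG k) (r : RR k) :
    (fun _ : Y => r) ∈ morphisms3 k (RR k) ι := (morphisms3 k (RR k) ι).algebraMap_mem r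

lemma rho3_rational {q : ℕ} (hφ : ∀ a, φ a = a ^ q) (r : RR k) :
    (fun b : borel3 k => rho3 φ b r) ∈ morphisms3 k (RR k) (fun b : borel3 k => b.1) := by
  induction r using MvPolynomial.induction_on with
  | C a => simpa [rho3_apply, rh] using const_mem3 (fun b : borel3 k => b.1) (C a)
  | add p r hp hr => simp only [map_add]; exact add_mem hp hr
  | mul_X p i hp =>
    have e := entry_mem3 (fun b : borel3 k => b.1)
    have : (fun b : borel3 k => rho3 φ b (X i)) ∈ morphisms3 k (RR k) (fun b : borel3 k => b.1) := by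
      simp only [rho3_apply, rh, aeval_X, hφ, map_mul, map_pow]
      exact add_mem (mul_mem (mul_mem (mul_mem (e 1 1) (e 2 2)) (pow_mem (e 1 i.succ) q))
        (const_mem3 _ _)) (mul_mem (mul_mem (mul_mem (e 1 1) (e 2 2)) (pow_mem (e 2 i.succ) q))
        (const_mem3 _ _))
    simp only [map_mul]; exact mul_mem hp this

lemma rho3_linear (b : borel3 k) (i : Fin 2) : (rho3 φ b (X i)).IsHomogeneous 1 := by
  simp only [rho3_apply, rh, aeval_X]
  exact (isHomogeneous_C_mul_X _ _).add (isHomogeneous_C_mul_X _ _)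

end Inf

/-- The map from the six-variable ring to functions on the group. -/
noncomputable def th : SS k →ₐ[k] (GG k → RR k) :=
  aeval (Sum.elim (fun i g => C (g.1 i 0))
    (fun j g => C (φ ((g⁻¹).1 1 j)) * X 0 + C (φ ((g⁻¹).1 2 j)) * X 1))

/-- The point of the hypersurface given by `g` and `w`. -/
def pt3 (g : GG k) (w : Fin 2 → k) : Ix → k := Sum.elim (fun i => g.1 i 0) (row φ g⁻¹ (til w))

lemma eval_th (P : SS k) (g : GG k) (w : Fin 2 → k) :
    eval w (th φ P g) = eval (pt3 φ g w) P := by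
  induction P using MvPolynomial.induction_on with
  | C a => simp [th]
  | add p r hp hr => simp only [map_add, Pi.add_apply, hp, hr]
  | mul_X p i hp =>
    simp only [map_mul, Pi.mul_apply, hp, eval_X]
    congr 1
    rcases i with i | i
    · simp [th, pt3]
    · simp only [th, aeval_X, elim_inr, map_add, map_mul, eval_C, eval_X, pt3, row_apply, til]
      simp; ring

lemma Phi_row {q : ℕ} (hφ : ∀ a, φ a = a ^ q) (g : GG k) (c : Fin 3 → k) :
    eval (Sum.elim (fun i => g.1 i 0) c) (Phi k q) = row φ g c 0 := by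
  simp [eval_Phi, row_apply, hφ]

lemma Phi_pt {q : ℕ} (hφ : ∀ a, φ a = a ^ q) (g : GG k) (w : Fin 2 → k) :
    eval (pt3 φ g w) (Phi k q) = 0 := by
  rw [pt3, Phi_row φ hφ, ← row_mul, inv_mul_cancel, row_one]; simp [til]

lemma inv_mem3 (i j : Fin 3) :
    (fun g : GG k => (C ((g⁻¹).1 i j) : RR k)) ∈ morphisms3 k (RR k) (fun g : GG k => g) := by
  have e := entry_mem3 (fun g : GG k => g)
  have s (a b c d a' b' c' d' : Fin 3) := sub_mem (mul_mem (e a b) (e c d)) (mul_mem (e a' b') (e c' d'))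
  have t (f : GG k → RR k) (hf : f ∈ morphisms3 k (RR k) (fun g : GG k => g))
      (h : ∀ g : GG k, (C ((g⁻¹).1 i j) : RR k) = f g) :
      (fun g : GG k => (C ((g⁻¹).1 i j) : RR k)) ∈ morphisms3 k (RR k) (fun g : GG k => g) := by
    rw [_root_.funext h]; exact hf
  fin_cases i <;> fin_cases j
  · exact t _ (s 1 1 2 2 1 2 2 1) fun g => by simp [adjugate_fin_three]
  · exact t _ (s 0 2 2 1 0 1 2 2) fun g => by simp [adjugate_fin_three]; ring
  · exact t _ (s 0 1 1 2 0 2 1 1) fun g => by simp [adjugate_fin_three]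
  · exact t _ (s 1 2 2 0 1 0 2 2) fun g => by simp [adjugate_fin_three]; ring
  · exact t _ (s 0 0 2 2 0 2 2 0) fun g => by simp [adjugate_fin_three]
  · exact t _ (s 0 2 1 0 0 0 1 2) fun g => by simp [adjugate_fin_three]; ring
  · exact t _ (s 1 0 2 1 1 1 2 0) fun g => by simp [adjugate_fin_three]
  · exact t _ (s 0 1 2 0 0 0 2 1) fun g => by simp [adjugate_fin_three]; ring
  · exact t _ (s 0 0 1 1 0 1 1 0) fun g => by simp [adjugate_fin_three]

lemma th_mor {q : ℕ} (hφ : ∀ a, φ a = a ^ q) (P : SS k) :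
    th φ P ∈ morphisms3 k (RR k) (fun g : GG k => g) := by
  induction P using MvPolynomial.induction_on with
  | C a =>
    rw [show (C a : SS k) = algebraMap k _ a from rfl, AlgHom.commutes]
    exact const_mem3 _ (C a)
  | add p r hp hr => rw [map_add]; exact add_mem hp hr
  | mul_X p i hp =>
    rw [map_mul]
    refine mul_mem hp ?_
    rcases i with i | i
    · simpa [th] using entry_mem3 (fun g : GG k => g) i 0
    · simp only [th, aeval_X, elim_inr, hφ, map_pow]
      exact add_mem (mul_mem (pow_mem (inv_mem3 1 i) q) (const_mem3 _ _))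
        (mul_mem (pow_mem (inv_mem3 2 i) q) (const_mem3 _ _))

/-- Lower unipotent chart. -/
def g0 (s t : k) : GG k := ⟨!![1, 0, 0; s, 1, 0; t, 0, 1], by simp [Matrix.det_fin_three]⟩

variable [Infinite k]

lemma th_Phi {q : ℕ} (hφ : ∀ a, φ a = a ^ q) : th φ (Phi k q) = 0 :=
  _root_.funext fun g => MvPolynomial.funext fun w => by rw [eval_th, Phi_pt φ hφ]; simp

lemma th_mem {q : ℕ} (hφ : ∀ a, φ a = a ^ q) {P : SS k} (h : P ∈ D0 k) :
    th φ P ∈ induced3 (rho3 φ) := by
  induction h using Algebra.adjoin_induction with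
  | mem x hx =>
    obtain ⟨⟨i, j⟩, rfl⟩ := hx
    refine ⟨th_mor φ hφ _, fun g b => MvPolynomial.funext fun w => ?_⟩
    have h0 : row φ (b⁻¹).1 (til w) 0 = 0 := row_zero φ (b⁻¹).2.1 (b⁻¹).2.2.1 (by simp [til])
    rw [rho3_apply, eval_rh, eval_th, eval_th]
    simp only [map_mul, eval_X, pt3, elim_inl, elim_inr, act, til_smul, til_tl h0, row_smul, b_inv,
      mul_col g b.1 b.2.1 b.2.2.1, _root_.mul_inv_rev, row_mul, Pi.smul_apply, smul_eq_mul]
    rw [show (b.1)⁻¹ = (b⁻¹).1 from rfl]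
    ring
  | algebraMap r => rw [AlgHom.commutes]; exact Subalgebra.algebraMap_mem _ r
  | add x y _ _ hx hy => rw [map_add]; exact add_mem hx hy
  | mul x y _ _ hx hy => rw [map_mul]; exact mul_mem hx hy

lemma th_ker {q : ℕ} (hφ : ∀ a, φ a = a ^ q) {P : SS k} (h : th φ P = 0) :
    ∃ E, P = E * Phi k q := by
  refine ker_Phi q P fun v h0 hv => ?_
  let g : GG k := ⟨!![v (inl 0), 0, 0; v (inl 1), 1, 0; v (inl 2), 0, (v (inl 0))⁻¹], by
    simp [Matrix.det_fin_three, h0]⟩
  have e1 : v = Sum.elim (fun i => g.1 i 0) (fun j => v (inr j)) := by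
    funext i
    rcases i with i | i
    · fin_cases i <;> simp [g]
    · rfl
  have e2 : row φ g (fun j => v (inr j)) 0 = 0 := by rw [← Phi_row φ hφ, ← e1, hv]
  have e3 : pt3 φ g (tl (row φ g fun j => v (inr j))) = v := by
    rw [pt3, til_tl e2, ← row_mul, mul_inv_cancel, row_one, ← e1]
  rw [← e3, ← eval_th, h]; simp

end Pool.Agent.P.MP_271f8e_al.Pl
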