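import Pool.Agent.P.MP_271f8e_al.CM

/-! Permanence of the Cohen-Macaulay property, and a criterion for depth at most two. -/

namespace Pool.Agent.P.MP_271f8e_al

open IsLocalRing RingTheory.Sequence Polynomial

lemma le_depth {A : Type*} [CommRing A] [IsLocalRing A] (rs : List A)
    (hm : ∀ r ∈ rs, r ∈ maximalIdeal A) (h : IsWeaklyRegular A rs) : (rs.length : ℕ∞) ≤ depth A :=
  le_iSup_of_le (f := fun rs : {rs : List A // (∀ r ∈ rs, r ∈ maximalIdeal A) ∧
    IsRegular A rs} => (rs.1.length : ℕ∞))
    ⟨rs, hm, IsRegular.of_isWeaklyRegular_of_mem_maximalIdeal A hm h⟩ le_rfl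

lemma depth_le_of_flat {A B : Type*} [CommRing A] [IsLocalRing A] [CommRing B] [IsLocalRing B]
    (f : A →+* B) (hf : f.Flat) [IsLocalHom f] : depth A ≤ depth B := by
  rw [depth, iSup_le_iff]
  rintro ⟨rs, hmem, hreg⟩
  algebraize [f]
  have := le_depth (rs.map f) (fun r hr => by
    obtain ⟨a, ha, rfl⟩ := List.mem_map.1 hr
    exact map_nonunit f a (hmem a ha)) (hreg.toIsWeaklyRegular.of_flat (S := B))
  simpa using this

lemma isCM_iff {A : Type*} [CommRing A] [IsNoetherianRing A] : IsCohenMacaulay A ↔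
    ∀ (p : Ideal A) [p.IsPrime], p.height ≤ depth (Localization.AtPrime p) := by
  refine ⟨fun h p _ => ?_, fun h => ⟨inferInstance, fun p _ => le_antisymm (depth_le_dim _) ?_⟩⟩
  · have := h.2 p
    rw [IsLocalization.AtPrime.ringKrullDim_eq_height p] at this
    exact (WithBot.coe_injective this).ge
  · rw [IsLocalization.AtPrime.ringKrullDim_eq_height p]
    exact WithBot.coe_le_coe.2 (h p)

lemma IsCohenMacaulay.of_flat {A B : Type*} [CommRing A] [CommRing B] [Algebra A B]
    [Module.Flat A B] [Module.Finite A B] (h : IsCohenMacaulay A) : IsCohenMacaulay B := by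
  have := h.1
  have : IsNoetherianRing B := Algebra.FiniteType.isNoetherianRing A B
  refine isCM_iff.2 fun q hq => ?_
  refine le_trans ?_ ((isCM_iff.1 h (q.comap (algebraMap A B))).trans (depth_le_of_flat _
    (RingHom.Flat.localRingHom (RingHom.flat_algebraMap_iff.2 inferInstance) q _ rfl)))
  exact (PrimeSpectrum.height_eq_orderHeight ⟨q, hq⟩).le.trans
    ((Order.height_le_height_apply_of_strictMono (PrimeSpectrum.comap (algebraMap A B))
      (fun _ _ hab => Ideal.IsIntegral.comap_lt_comap hab) _).trans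
      (PrimeSpectrum.height_eq_orderHeight _).ge)

lemma IsCohenMacaulay.of_equiv {A B : Type*} [CommRing A] [CommRing B] (e : A ≃+* B)
    (h : IsCohenMacaulay A) : IsCohenMacaulay B := by
  let := e.toRingHom.toAlgebra
  have : Module.Flat A B := RingHom.Flat.of_bijective e.bijective
  have : Module.Finite A B := Module.Finite.of_surjective (Algebra.linearMap A B) e.surjective
  exact h.of_flat

lemma poly_local {A : Type*} [CommRing A] [IsLocalRing A] [IsNoetherianRing A]
    (h : (maximalIdeal A).height ≤ depth A) (P : Ideal A[X]) [P.IsPrime]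
    (hP : P.comap C = maximalIdeal A) : P.height ≤ depth (Localization.AtPrime P) := by
  have hreg : ∀ rs : List A[X], (∀ r ∈ rs, r ∈ P) → IsWeaklyRegular A[X] rs →
      (rs.length : ℕ∞) ≤ depth (Localization.AtPrime P) := fun rs hm hw => by
    have := le_depth (rs.map (algebraMap _ (Localization.AtPrime P))) (fun r hr => by
      obtain ⟨a, ha, rfl⟩ := List.mem_map.1 hr
      exact (IsLocalization.AtPrime.to_map_mem_maximal_iff _ P a).2 (hm a ha))
      (hw.of_isLocalization _ P.primeCompl)
    simpa using this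
  have hC : ∀ rs : List A, (∀ r ∈ rs, r ∈ maximalIdeal A) → ∀ r ∈ rs.map C, r ∈ P := by
    intro rs hm r hr
    obtain ⟨a, ha, rfl⟩ := List.mem_map.1 hr
    exact Ideal.mem_comap.1 (hP ▸ hm a ha)
  by_cases e : P ≤ (maximalIdeal A).map C
  · refine ((Ideal.height_mono e).trans (height_map_C _).le).trans (h.trans ?_)
    rw [depth, iSup_le_iff]
    rintro ⟨rs, hmem, hr⟩
    simpa using hreg (rs.map C) (hC rs hmem) (hr.toIsWeaklyRegular.of_flat (S := A[X]))
  · obtain ⟨F, hF, hFm⟩ := Set.not_subset.1 e
    obtain ⟨M, hM, hPM⟩ := P.exists_le_maximal Ideal.IsPrime.ne_top'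
    have : M.LiesOver (maximalIdeal A) := ⟨(maximalIdeal.isMaximal A).eq_of_le
      (Ideal.IsPrime.ne_top' (I := M.comap C)) (hP ▸ Ideal.comap_mono hPM)⟩
    refine ((Ideal.height_mono hPM).trans (height_eq_height_add_one (maximalIdeal A) M).le).trans
      ((add_le_add_left h 1).trans ?_)
    have : Nonempty {rs : List A // (∀ r ∈ rs, r ∈ maximalIdeal A) ∧ IsRegular A rs} :=
      ⟨⟨[], by simp, IsRegular.nil A A⟩⟩
    rw [depth, ENat.iSup_add, iSup_le_iff]
    rintro ⟨rs, hmem, hr⟩
    have := hreg (rs.map C ++ [F]) (fun r hr => (List.mem_append.1 hr).elim (hC rs hmem r)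
      fun h => List.mem_singleton.1 h ▸ hF) ((isWeaklyRegular_append_iff _ _ _).2
        ⟨hr.toIsWeaklyRegular.of_flat (S := A[X]), ?_⟩)
    · simpa using this
    rw [isWeaklyRegular_singleton_iff, isSMulRegular_quotient_iff_mem_of_smul_mem,
      ← Ideal.map_ofList, smul_eq_mul, Ideal.mul_top]
    intro G hG
    have hk : ∀ G : A[X], G ∈ (Ideal.ofList rs).map C ↔
        G.map (Ideal.Quotient.mk (Ideal.ofList rs)) = 0 := fun G => by
      rw [Ideal.mem_map_C_iff, Polynomial.ext_iff]
      simp [Ideal.Quotient.eq_zero_iff_mem]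
    rw [hk] at hG ⊢
    rw [smul_eq_mul, Polynomial.map_mul] at hG
    obtain ⟨n, hn⟩ := not_forall.1 (mt Ideal.mem_map_C_iff.2 hFm)
    refine (Polynomial.mem_nonZeroDivisors_iff.2 fun a ha => ?_).1 _ hG
    have h1 := congrArg (coeff · n) ha
    simp only [coeff_smul, coeff_map, smul_eq_mul, coeff_zero] at h1
    exact ((notMem_maximalIdeal.1 hn).map _).mul_left_eq_zero.1 h1

lemma IsCohenMacaulay.poly {A : Type*} [CommRing A] (h : IsCohenMacaulay A) :
    IsCohenMacaulay A[X] := by
  have := h.1
  refine isCM_iff.2 fun p hp => ?_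
  let q := p.comap C
  let S := (Localization.AtPrime q)[X]
  let pc := Submonoid.map Polynomial.C.toMonoidHom q.primeCompl
  let : Algebra A[X] S := algebra A (Localization.AtPrime q)
  have : IsLocalization pc S := Polynomial.isLocalization _ _
  let pS := p.map (algebraMap A[X] S)
  have disj : Disjoint (pc : Set A[X]) (p : Set A[X]) := by
    rw [Set.disjoint_left]
    rintro _ ⟨a, ha, rfl⟩ hp
    exact ha hp
  have : pS.IsPrime := IsLocalization.isPrime_of_isPrime_disjoint pc _ _ ‹_› disj
  have e0 : pS.comap (algebraMap A[X] S) = p :=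
    IsLocalization.under_map_of_isPrime_disjoint pc _ ‹_› disj
  have eq : Ideal.comap C pS = maximalIdeal (Localization.AtPrime q) := by
    refine le_antisymm (le_maximalIdeal Ideal.IsPrime.ne_top') ?_
    rw [← Localization.AtPrime.map_eq_maximalIdeal, Ideal.map_le_iff_le_comap]
    intro a ha
    have := Ideal.mem_map_of_mem (algebraMap A[X] S) (show C a ∈ p from ha)
    rwa [Polynomial.algebraMap_def, coe_mapRingHom, map_C] at this
  have h1 := poly_local (A := Localization.AtPrime q) (by
    rw [← IsLocalization.height_under q.primeCompl, IsLocalization.AtPrime.under_maximalIdeal _ q]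
    exact isCM_iff.1 h q) pS eq
  rw [IsLocalization.height_map_of_disjoint pc p disj] at h1
  have : IsLocalization.AtPrime (Localization.AtPrime pS) p := by
    have := IsLocalization.isLocalization_isLocalization_atPrime_isLocalization pc
      (Localization.AtPrime pS) pS
    simpa only [e0] using this
  let e := (IsLocalization.algEquiv p.primeCompl
    (Localization.AtPrime pS) (Localization.AtPrime p)).toRingEquiv
  have : IsLocalHom e.toRingHom := ⟨fun a ha => (MulEquiv.isUnit_map e).1 ha⟩
  exact h1.trans (depth_le_of_flat e.toRingHom (RingHom.Flat.of_bijective e.bijective))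

lemma IsCohenMacaulay.mvPoly {A : Type*} [CommRing A] (h : IsCohenMacaulay A) (n : ℕ) :
    IsCohenMacaulay (MvPolynomial (Fin n) A) := by
  induction n with
  | zero => exact h.of_equiv (MvPolynomial.isEmptyRingEquiv A _).symm
  | succ n ih => exact ih.poly.of_equiv (MvPolynomial.finSuccEquiv A n).toRingEquiv.symm

lemma isCM_field (k : Type*) [Field k] : IsCohenMacaulay k :=
  isCM_of_domain k (by rw [ringKrullDim_eq_zero_of_field]; exact zero_le_one)

lemma reg_zero {A : Type*} [CommRing A] {u : A} {rs : List A} (h : IsWeaklyRegular A (u :: rs))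
    {y : A} (hy : u * y = 0) : y = 0 :=
  ((isWeaklyRegular_cons_iff A u rs).1 h).1 (show u • y = u • 0 by simpa using hy)

lemma reg_one {A : Type*} [CommRing A] {u v : A} {rs : List A}
    (h : IsWeaklyRegular A (u :: v :: rs)) {a b : A} (hy : v * a = u * b) : ∃ r, a = u * r := by
  have := (isSMulRegular_quotient_iff_mem_of_smul_mem _ _).1 (h.regular_mod_prev 1 (by simp)) a
  simp only [List.take_succ_cons, List.take_zero, Ideal.ofList_singleton, smul_eq_mul,
    Ideal.mul_top, Ideal.mem_span_singleton, List.getElem_cons_succ, List.getElem_cons_zero] at this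
  exact this ⟨b, hy⟩

lemma reg_two {A : Type*} [CommRing A] {u v w : A} {rs : List A}
    (h : IsWeaklyRegular A (u :: v :: w :: rs)) {a b c : A} (hy : w * a = b * u + c * v) :
    ∃ p q, a = p * u + q * v := by
  have := (isSMulRegular_quotient_iff_mem_of_smul_mem _ _).1 (h.regular_mod_prev 2 (by simp)) a
  simp only [List.take_succ_cons, List.take_zero, Ideal.ofList_cons, Ideal.ofList_nil, sup_bot_eq,
    smul_eq_mul, Ideal.mul_top, List.getElem_cons_succ, List.getElem_cons_zero,
    ← Ideal.span_insert, Ideal.mem_span_pair] at this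
  obtain ⟨p, q, e⟩ := this ⟨b, c, hy.symm⟩
  exact ⟨p, q, e.symm⟩

lemma reg_pair {A : Type*} [CommRing A] {g f : A} (h0 : ∀ y, g * y = 0 → y = 0)
    (h1 : ∀ a b, f * a = g * b → ∃ r, a = g * r) : IsWeaklyRegular A [g, f] := by
  refine (isWeaklyRegular_append_iff A [g] [f]).2 ⟨(isWeaklyRegular_singleton_iff _ _).2
    (isSMulRegular_iff_right_eq_zero_of_smul.2 h0), ?_⟩
  rw [isWeaklyRegular_singleton_iff, isSMulRegular_quotient_iff_mem_of_smul_mem]
  simp only [Ideal.ofList_singleton, smul_eq_mul, Ideal.mul_top, Ideal.mem_span_singleton]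
  rintro a ⟨b, hb⟩
  exact h1 a b hb

/-- A socle element modulo a regular pair excludes regular triples. -/
lemma depth_le_two {A : Type*} [CommRing A] [IsLocalRing A] {f g z : A}
    (hr : IsWeaklyRegular A [g, f]) (hz : ∀ u ∈ maximalIdeal A, ∃ a b, u * z = a * f + b * g)
    (hn : ∀ a b, z ≠ a * f + b * g) : depth A ≤ 2 := by
  rw [depth, iSup_le_iff]
  rintro ⟨rs, hmem, hreg⟩
  match rs, hmem, hreg with
  | [], _, _ => simp
  | [_], _, _ => simp
  | [_, _], _, _ => simp
  | u :: v :: w :: rest, hmem, hreg =>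
    exfalso
    have hw := hreg.toIsWeaklyRegular
    obtain ⟨a, b, h1⟩ := hz u (hmem u (by simp))
    obtain ⟨c, d, h2⟩ := hz v (hmem v (by simp))
    obtain ⟨e, h, h3⟩ := hz w (hmem w (by simp))
    obtain ⟨r, hr1⟩ := reg_one hr (a := v * a - u * c) (b := u * d - v * b)
      (by linear_combination u * h2 - v * h1)
    obtain ⟨r', hr2⟩ := reg_one hr (a := w * a - u * e) (b := u * h - w * b)
      (by linear_combination u * h3 - w * h1)
    obtain ⟨r'', hr3⟩ := reg_one hr (a := w * c - v * e) (b := v * h - w * d)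
      (by linear_combination v * h3 - w * h2)
    have h4 : u * d - v * b - f * r = 0 :=
      reg_zero hr (by linear_combination v * h1 - u * h2 + f * hr1)
    have h5 : w * r - (-r'' * u + r' * v) = 0 :=
      reg_zero hr (by linear_combination v * hr2 - w * hr1 - u * hr3)
    obtain ⟨p, q, h6⟩ := reg_two hw (sub_eq_zero.1 h5)
    obtain ⟨s, hs⟩ := reg_one hw (a := a - g * q) (b := c + g * p)
      (by linear_combination hr1 + g * h6)
    obtain ⟨t, ht⟩ := reg_one hw (a := b + f * q) (b := d - f * p)
      (by linear_combination -h4 - f * h6)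
    exact hn s t (sub_eq_zero.1 (reg_zero hw (by linear_combination h1 + f * hs + g * ht)))

lemma depth_loc_le_two {A : Type*} [CommRing A] (m : Ideal A) [m.IsPrime] (L : Type*) [CommRing L]
    [Algebra A L] [IsLocalization.AtPrime L m] [IsLocalRing L] {f g z : A}
    (hr : IsWeaklyRegular A [g, f]) (hz : ∀ u ∈ m, ∃ a b, u * z = a * f + b * g)
    (hn : ∀ σ ∉ m, ∀ a b, σ * z ≠ a * f + b * g) : depth L ≤ 2 := by
  refine depth_le_two (f := algebraMap A L f) (g := algebraMap A L g) (z := algebraMap A L z)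
    (hr.of_isLocalization L m.primeCompl) ?_ ?_
  · intro u hu
    obtain ⟨⟨u, s⟩, rfl⟩ := IsLocalization.mk'_surjective m.primeCompl u
    obtain ⟨a, b, e⟩ := hz u ((IsLocalization.AtPrime.mk'_mem_maximal_iff L m u s).1 hu)
    refine ⟨IsLocalization.mk' L a s, IsLocalization.mk' L b s, ?_⟩
    dsimp only
    rw [IsLocalization.mk'_eq_mul_mk'_one u s, IsLocalization.mk'_eq_mul_mk'_one a s,
      IsLocalization.mk'_eq_mul_mk'_one b s]
    have := congrArg (algebraMap A L) e
    simp only [map_mul, map_add] at this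
    linear_combination IsLocalization.mk' L 1 s * this
  · intro a b e
    obtain ⟨⟨a', s⟩, ha⟩ := IsLocalization.surj m.primeCompl a
    obtain ⟨⟨b', t⟩, hb⟩ := IsLocalization.surj m.primeCompl b
    obtain ⟨c, hc⟩ := (IsLocalization.eq_iff_exists m.primeCompl L).1
      (show algebraMap A L (s * t * z) = algebraMap A L (a' * t * f + b' * s * g) by
        simp only [map_mul, map_add] at ha hb ⊢
        rw [← ha, ← hb, e]; ring)
    exact hn (c * s * t : m.primeCompl) (c * s * t).2 (c * a' * t) (c * b' * s)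
      (by simp only [Submonoid.coe_mul]; linear_combination hc)

lemma not_isCM3 {A : Type*} [CommRing A] (P1 P2 m : Ideal A) [P1.IsPrime] [P2.IsPrime] [m.IsPrime]
    (h12 : P1 < P2) (h2m : P2 < m) {f g z : A} (hg : g ∈ P1) (hr : IsWeaklyRegular A [g, f])
    (hz : ∀ u ∈ m, ∃ a b, u * z = a * f + b * g) (hn : ∀ σ ∉ m, ∀ a b, σ * z ≠ a * f + b * g) :
    ¬ IsCohenMacaulay A := by
  intro h
  have := h.1
  have hd := depth_loc_le_two m (Localization.AtPrime m) hr hz hn
  have h1 : (1 : ℕ∞) ≤ P1.height :=
    (Ideal.one_le_height_span_singleton_of_mem_nonZeroDivisors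
      (mem_nonZeroDivisors_iff.2 ⟨fun _ => reg_zero hr,
        fun y e => reg_zero hr ((mul_comm g y).trans e)⟩)).trans
      (Ideal.height_mono ((Ideal.span_singleton_le_iff_mem _).2 hg))
  have h2 := Ideal.height_add_one_le_of_lt_of_isPrime h12
  have h3 := Ideal.height_add_one_le_of_lt_of_isPrime h2m
  have h4 := (isCM_iff.1 h m).trans hd
  have h5 : (1 : ℕ∞) + 1 + 1 ≤ 2 := by
    refine le_trans ?_ (h3.trans h4)
    gcongr
    refine le_trans ?_ h2
    gcongr
  norm_num at h5

end Pool.Agent.P.MP_271f8e_al
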