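import Pool.Agent.P.MP_271f8e_al.PlOnto
import Pool.Agent.P.MP_271f8e_al.SmCM

/-! The induced algebra is finitely generated and not Cohen-Macaulay. -/

namespace Pool.Agent.P.MP_271f8e_al.Pl

open MvPolynomial Sum Matrix

variable {k : Type*} [Field k] [Infinite k] (φ : k →+* k) {q : ℕ} (hφ : ∀ a, φ a = a ^ q)

/-- The map from `D0` to the induced algebra. -/
noncomputable def TH : D0 k →ₐ[k] induced3 (rho3 φ) :=
  ((th φ).comp (D0 k).val).codRestrict _ fun P => th_mem φ hφ P.2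

lemma TH_val (P : D0 k) : (TH φ hφ P).1 = th φ P.1 := rfl

lemma TH_surj : Function.Surjective (TH φ hφ) := fun F => by
  obtain ⟨P, hP, e⟩ := onto φ hφ F.2
  exact ⟨⟨P, hP⟩, Subtype.ext e⟩

lemma TH_eq {P Q : D0 k} : TH φ hφ P = TH φ hφ Q ↔ ∃ E, P.1 = Q.1 + E * Phi k q := by
  constructor
  · intro h
    have h1 : th φ (P.1 - Q.1) = 0 := by
      rw [map_sub]; exact sub_eq_zero.2 (congrArg Subtype.val h)
    obtain ⟨E, hE⟩ := th_ker φ hφ h1
    exact ⟨E, by linear_combination hE⟩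
  · rintro ⟨E, hE⟩
    refine Subtype.ext ?_
    rw [TH_val, TH_val, hE, map_add, map_mul, th_Phi φ hφ, mul_zero, add_zero]

include hφ in
lemma induced_ft : Algebra.FiniteType k (induced3 (rho3 φ)) := by
  have : Algebra.FiniteType k (D0 k) := Algebra.FiniteType.adjoin_of_finite (Set.finite_range _)
  exact Algebra.FiniteType.of_surjective (TH φ hφ) (TH_surj φ hφ)

/-- Value at the identity. -/
noncomputable def ev1 : induced3 (rho3 φ) →ₐ[k] RR k :=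
  (Pi.evalAlgHom k (fun _ : GG k => RR k) 1).comp (induced3 (rho3 φ)).val

/-- The product `x_i c_j` as an element of `D0`. -/
noncomputable def xc (k : Type*) [Field k] (i j : Fin 3) : D0 k := ⟨X (inl i) * X (inr j), xc_mem i j⟩

lemma ev1_TH (P : D0 k) : ev1 φ (TH φ hφ P) = th φ P.1 1 := rfl

lemma ev1_02 : ev1 φ (TH φ hφ (xc k 0 2)) = X 1 := by simp [ev1_TH, xc, th]

lemma ev1_01 : ev1 φ (TH φ hφ (xc k 0 1)) = X 0 := by simp [ev1_TH, xc, th]

lemma ev1_10 : ev1 φ (TH φ hφ (xc k 1 0)) = 0 := by simp [ev1_TH, xc, th]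

lemma ev1_zero (P : D0 k) :
    aeval (fun _ => (0 : k)) (ev1 φ (TH φ hφ P)) = eval 0 P.1 :=
  D0_const ((aeval (fun _ => (0 : k))).comp
    ((Pi.evalAlgHom k (fun _ : GG k => RR k) 1).comp (th φ))) (fun i j => by simp [th]) P.2

omit [Infinite k] in
lemma hom_z (n : ℕ) :
    Hom (X (inl 2) ^ (n + 3) * X (inr 0) * X (inr 1) * X (inr 2) ^ (n + 1) : SS k) 0 := by
  have := IsWeightedHomogeneous.mul (IsWeightedHomogeneous.mul (IsWeightedHomogeneous.mul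
    ((hom_x (k := k) 2).pow' (n + 3)) (hom_c 0)) (hom_c 1)) ((hom_c 2).pow' (n + 1))
  have e : ((n + 3 : ℕ) : ℤ) * 1 + -1 + -1 + ((n + 1 : ℕ) : ℤ) * -1 = 0 := by push_cast; ring
  rwa [e] at this

include hφ in
lemma induced_not_CM (hq : 4 ≤ q) : ¬ IsCohenMacaulay (induced3 (rho3 φ)) := by
  obtain ⟨n, rfl⟩ : ∃ n, q = n + 4 := ⟨q - 4, by omega⟩
  have hΦ : Phi k (n + 4) = X (inr 0) * X (inl 0) ^ (n + 4) + X (inr 1) * X (inl 1) ^ (n + 4) +
      X (inr 2) * X (inl 2) ^ (n + 4) := by simp [Phi, Fin.sum_univ_three]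
  let κ : RR k →ₐ[k] RR k := aeval ![X 0, 0]
  let ε : RR k →ₐ[k] k := aeval fun _ => 0
  have hκ : ε.comp κ = ε := algHom_ext fun i => by fin_cases i <;> simp [ε, κ]
  let z : D0 k := ⟨_, mem_D0 (hom_z n)⟩
  have := RingHom.ker_isPrime (ev1 φ)
  have := RingHom.ker_isPrime (κ.comp (ev1 φ))
  have := RingHom.ker_isPrime (ε.comp (ev1 φ))
  have hm (P : D0 k) : TH φ hφ P ∈ RingHom.ker (ε.comp (ev1 φ)) ↔ eval 0 P.1 = 0 := by
    rw [RingHom.mem_ker, ← ev1_zero φ hφ]; rfl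
  refine not_isCM3 (RingHom.ker (ev1 φ)) (RingHom.ker (κ.comp (ev1 φ)))
    (RingHom.ker (ε.comp (ev1 φ))) ?_ ?_ (f := TH φ hφ (xc k 0 1)) (g := TH φ hφ (xc k 1 0))
    (z := TH φ hφ z) (ev1_10 φ hφ) (reg_pair ?_ ?_) ?_ ?_
  · refine SetLike.lt_iff_le_and_exists.2 ⟨fun F hF => ?_, TH φ hφ (xc k 0 2), ?_, ?_⟩
    · rw [RingHom.mem_ker] at hF ⊢
      rw [AlgHom.comp_apply, hF, map_zero]
    · rw [RingHom.mem_ker, AlgHom.comp_apply, ev1_02]; simp [κ]
    · rw [RingHom.mem_ker, ev1_02]; exact X_ne_zero _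
  · refine SetLike.lt_iff_le_and_exists.2 ⟨fun F hF => ?_, TH φ hφ (xc k 0 1), ?_, ?_⟩
    · rw [RingHom.mem_ker, AlgHom.comp_apply] at hF ⊢
      rw [← hκ, AlgHom.comp_apply, hF, map_zero]
    · rw [RingHom.mem_ker, AlgHom.comp_apply, ev1_01]; simp [ε]
    · rw [RingHom.mem_ker, AlgHom.comp_apply, ev1_01]; simp [κ]
  · intro y hy
    obtain ⟨Y, rfl⟩ := TH_surj φ hφ y
    rw [← map_mul, ← map_zero (TH φ hφ), TH_eq] at hy
    obtain ⟨E, hE⟩ := hy
    obtain ⟨E', hE'⟩ := ((N1_x (k := k) (n + 4) 1).mul (N1_c (n + 4) 0)) Y.1 E (by simpa [xc] using hE)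
    rw [← map_zero (TH φ hφ), TH_eq]
    exact ⟨E', by simpa using hE'⟩
  · intro a b h
    obtain ⟨a, rfl⟩ := TH_surj φ hφ a
    obtain ⟨b, rfl⟩ := TH_surj φ hφ b
    rw [← map_mul, ← map_mul, TH_eq] at h
    obtain ⟨E, hE⟩ := h
    simp only [xc, MulMemClass.coe_mul] at hE
    obtain ⟨s, t, hs⟩ := reg_fg (n + 4) a.1 b.1 E (by linear_combination hE)
    obtain ⟨s', b', t', hs', -, e⟩ := proj (q := n + 4) (a := s) (b := 0) (e := t) (D0_hom a.2)
      (hom_xc 1 0) (isWeightedHomogeneous_zero k wt 0) (by linear_combination hs)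
    rw [sub_self] at hs'
    refine ⟨TH φ hφ ⟨s', mem_D0 hs'⟩, ?_⟩
    rw [← map_mul, TH_eq]
    exact ⟨t', by simp only [xc, MulMemClass.coe_mul]; linear_combination e⟩
  · intro u hu
    obtain ⟨U, rfl⟩ := TH_surj φ hφ u
    obtain ⟨a, b, c, h⟩ := D0_x U.2 ((hm U).1 hu)
    obtain ⟨a', b', e', ha, hb, e⟩ := proj (q := n + 4)
      (a := a * (X (inl 2) ^ (n + 3) * X (inr 0) * X (inr 2) ^ (n + 1)) -
        c * (X (inr 0) ^ 2 * X (inl 0) ^ (n + 3) * X (inr 2) ^ n))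
      (b := b * (X (inl 2) ^ (n + 3) * X (inr 1) * X (inr 2) ^ (n + 1)) -
        c * (X (inr 1) ^ 2 * X (inl 1) ^ (n + 3) * X (inr 2) ^ n))
      (e := c * (X (inr 0) * X (inr 1) * X (inr 2) ^ n)) (D0_hom (U * z).2)
      (hom_xc 0 1) (hom_xc 1 0) (by
        simp only [z, MulMemClass.coe_mul]
        rw [hΦ, h]; ring)
    rw [sub_self] at ha hb
    refine ⟨TH φ hφ ⟨a', mem_D0 ha⟩, TH φ hφ ⟨b', mem_D0 hb⟩, ?_⟩
    rw [← map_mul, ← map_mul, ← map_mul, ← map_add, TH_eq]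
    exact ⟨e', e⟩
  · intro σ hσ a b h
    obtain ⟨S, rfl⟩ := TH_surj φ hφ σ
    obtain ⟨a, rfl⟩ := TH_surj φ hφ a
    obtain ⟨b, rfl⟩ := TH_surj φ hφ b
    rw [← map_mul, ← map_mul, ← map_mul, ← map_add, TH_eq] at h
    obtain ⟨E, hE⟩ := h
    let ψ : SS k →ₐ[k] Polynomial k := aeval (Sum.elim ![0, 0, Polynomial.X] fun _ => 1)
    have h1 := congrArg ψ hE
    simp only [z, xc, MulMemClass.coe_mul, AddMemClass.coe_add, hΦ, map_add, map_mul, map_pow] at h1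
    have h2 : ψ S.1 * Polynomial.X ^ (n + 3) = ψ E * Polynomial.X * Polynomial.X ^ (n + 3) := by
      simp only [ψ, aeval_X, elim_inl, elim_inr] at h1 ⊢
      simp at h1
      linear_combination h1
    have h3 := mul_right_cancel₀ (pow_ne_zero _ Polynomial.X_ne_zero) h2
    have h4 := D0_const ((Polynomial.aeval (0 : k)).comp ψ)
      (fun i j => by fin_cases i <;> simp [ψ]) S.2
    rw [AlgHom.comp_apply, h3] at h4
    exact hσ ((hm S).2 (by simpa using h4.symm))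

end Pool.Agent.P.MP_271f8e_al.Pl
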