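import Pool.Agent.P.MP_271f8e_al.PlAct
import Pool.Agent.P.MP_271f8e_al.Main

/-! Every element of the induced algebra comes from the algebra `D0`. -/

namespace Pool.Agent.P.MP_271f8e_al.Pl

open MvPolynomial Sum Matrix

variable {k : Type*} [Field k] (φ : k →+* k)

/-- The value of `F` at a group element and a row vector. -/
noncomputable def Fv (F : GG k → RR k) (g : GG k) (c : Fin 3 → k) : k :=
  eval (tl (row φ g c)) (F g)

lemma fam_mem {T : Type*} (A : Subalgebra k (T → k)) (γ : T → GG k) (ω : T → Fin 2 → k)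
    (hγ : ∀ i j, (fun t => (γ t).1 i j) ∈ A) (hω : ∀ i, (fun t => ω t i) ∈ A)
    {F : GG k → RR k} (hF : F ∈ morphisms3 k (RR k) (fun g : GG k => g)) :
    (fun t => eval (ω t) (F (γ t))) ∈ A := by
  have hr (r : RR k) : (fun t => eval (ω t) r) ∈ A := by
    induction r using MvPolynomial.induction_on with
    | C a => simp only [eval_C]; exact A.algebraMap_mem a
    | add p r hp hr => simp only [map_add]; exact add_mem hp hr
    | mul_X p i hp => simp only [map_mul, eval_X]; exact mul_mem hp (hω i)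
  induction hF using Algebra.adjoin_induction with
  | mem x hx =>
    obtain ⟨ij, rfl⟩ := hx
    simp only [algebraMap_eq, eval_C]; exact hγ ij.1 ij.2
  | algebraMap r => exact hr r
  | add x y _ _ hx hy => simp only [Pi.add_apply, map_add]; exact add_mem hx hy
  | mul x y _ _ hx hy => simp only [Pi.mul_apply, map_mul]; exact mul_mem hx hy

lemma Fv_mem {q : ℕ} (hφ : ∀ a, φ a = a ^ q) {T : Type*} (A : Subalgebra k (T → k))
    (γ : T → GG k) (c : T → Fin 3 → k)
    (hγ : ∀ i j, (fun t => (γ t).1 i j) ∈ A) (hc : ∀ i, (fun t => c t i) ∈ A)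
    {F : GG k → RR k} (hF : F ∈ morphisms3 k (RR k) (fun g : GG k => g)) :
    (fun t => Fv φ F (γ t) (c t)) ∈ A := by
  refine fam_mem A γ (fun t => tl (row φ (γ t) (c t))) hγ (fun i => ?_) hF
  have h (j : Fin 3) : (fun t => row φ (γ t) (c t) j) ∈ A := by
    simp only [row_apply, hφ]
    exact add_mem (add_mem (mul_mem (hc 0) (pow_mem (hγ 0 j) q))
      (mul_mem (hc 1) (pow_mem (hγ 1 j) q))) (mul_mem (hc 2) (pow_mem (hγ 2 j) q))
  fin_cases i
  · exact h 1
  · exact h 2

/-- Polynomial functions on the line. -/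
def PolA (k : Type*) [Field k] : Subalgebra k (k → k) where
  carrier := {h | ∃ p : Polynomial k, ∀ s, h s = p.eval s}
  mul_mem' := by
    rintro _ _ ⟨p, hp⟩ ⟨r, hr⟩
    exact ⟨p * r, fun s => by simp [hp, hr]⟩
  add_mem' := by
    rintro _ _ ⟨p, hp⟩ ⟨r, hr⟩
    exact ⟨p + r, fun s => by simp [hp, hr]⟩
  algebraMap_mem' := fun c => ⟨Polynomial.C c, fun s => by simp⟩

lemma aff_mem {h : k → k} (a b : k) (e : ∀ s, h s = a + b * s) : h ∈ PolA k :=
  ⟨Polynomial.C a + Polynomial.C b * Polynomial.X, fun s => by simp [e]⟩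

/-- Functions that are fractions of weight zero on the chart `x_i ≠ 0`. -/
def FracA (k : Type*) [Field k] (i : Fin 3) : Subalgebra k ((Ix → k) → k) where
  carrier := {h | ∃ (N : ℕ) (P : SS k), Hom P N ∧
    ∀ v, v (inl i) ≠ 0 → eval v P = v (inl i) ^ N * h v}
  mul_mem' := by
    rintro _ _ ⟨N, P, hP, h⟩ ⟨M, Q, hQ, h'⟩
    refine ⟨N + M, P * Q, ?_, fun v hv => ?_⟩
    · push_cast; exact IsWeightedHomogeneous.mul hP hQ
    · rw [map_mul, h v hv, h' v hv, Pi.mul_apply]; ring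
  add_mem' := by
    rintro _ _ ⟨N, P, hP, h⟩ ⟨M, Q, hQ, h'⟩
    refine ⟨N + M, P * X (inl i) ^ M + X (inl i) ^ N * Q, ?_, fun v hv => ?_⟩
    · have h1 := IsWeightedHomogeneous.mul hP ((hom_x (k := k) i).pow' M)
      have h2 := IsWeightedHomogeneous.mul ((hom_x (k := k) i).pow' N) hQ
      rw [mul_one] at h1 h2
      push_cast; exact h1.add h2
    · simp only [map_add, map_mul, map_pow, eval_X, h v hv, h' v hv, Pi.add_apply]; ring
  algebraMap_mem' := fun c => ⟨0, C c, isWeightedHomogeneous_C wt c, fun v _ => by simp⟩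

lemma div_mem_Frac (i j : Fin 3) : (fun v : Ix → k => v (inl j) / v (inl i)) ∈ FracA k i :=
  ⟨1, X (inl j), hom_x j, fun v hv => by simp only [eval_X]; field_simp⟩

lemma xc_mem_Frac (i j : Fin 3) : (fun v : Ix → k => v (inl i) * v (inr j)) ∈ FracA k i :=
  ⟨0, X (inl i) * X (inr j), hom_xc i j, fun v _ => by simp⟩

/-- Lower elementary matrix in the second block. -/
def uu (t : k) : GG k := ⟨!![1, 0, 0; 0, 1, 0; 0, t, 1], by simp [Matrix.det_fin_three]⟩

/-- The opposite chart in the second block. -/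
def oo (s : k) : GG k := ⟨!![1, 0, 0; 0, s, -1; 0, 1, 0], by simp [Matrix.det_fin_three]⟩

/-- Upper elementary matrix in the second block. -/
def ee (s : k) : borel3 k :=
  ⟨⟨!![1, 0, 0; 0, 1, s; 0, 0, 1], by simp [Matrix.det_fin_three]⟩, by simp [borel3]⟩

/-- Second chart of the projective plane. -/
def g1 (s t : k) : GG k := ⟨!![s, -1, 0; 1, 0, 0; t, 0, 1], by simp [Matrix.det_fin_three]⟩

/-- A curve of upper unipotent matrices. -/
def cc (a b t : k) : GG k :=
  ⟨!![1, a * t, b * t; 0, 1, 0; 0, 0, 1], by simp [Matrix.det_fin_three]⟩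

lemma col_eq (g g' : GG k) (a : k) (h : ∀ i, g.1 i 0 = g'.1 i 0 * a) (i : Fin 3) :
    (g'⁻¹ * g).1 i 0 = (1 : Matrix (Fin 3) (Fin 3) k) i 0 * a := by
  have h1 : (g'⁻¹ * g').1 i 0 = (1 : Matrix (Fin 3) (Fin 3) k) i 0 := by
    rw [inv_mul_cancel]; rfl
  rw [← h1]
  simp only [Matrix.SpecialLinearGroup.coe_mul, Matrix.mul_apply, Fin.sum_univ_three, h]
  ring

variable [Infinite k]

lemma Fv_b {F : GG k → RR k} (hF : F ∈ induced3 (rho3 φ)) (g : GG k) (b : borel3 k)
    {c : Fin 3 → k} (h : row φ g c 0 = 0) : Fv φ F (g * b.1) c = Fv φ F g (b.1.1 0 0 • c) := by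
  have h0 : row φ b.1 (row φ g c) 0 = 0 := row_zero φ b.2.1 b.2.2.1 h
  have h1 : b.1 * (b⁻¹).1 = 1 := by simp
  rw [Fv, Fv, hF.2 g b, rho3_apply, eval_rh, act, b_inv, row_mul, til_tl h0, ← row_mul, h1, row_one,
    row_smul, tl_smul]

lemma Fv_u {q : ℕ} (hφ : ∀ a, φ a = a ^ q) {F : GG k → RR k} (hF : F ∈ induced3 (rho3 φ))
    (g : GG k) (t : k) {c : Fin 3 → k} (h : row φ g c 0 = 0) :
    Fv φ F (g * uu t) c = Fv φ F g c := by
  obtain ⟨P, hP⟩ := Fv_mem φ hφ (PolA k) (fun s => g * uu s) (fun _ => c) (fun i j => by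
    fin_cases j
    · exact aff_mem (g.1 i 0) 0 fun s => by simp [uu, Matrix.mul_apply, Fin.sum_univ_three]
    · exact aff_mem (g.1 i 1) (g.1 i 2) fun s => by simp [uu, Matrix.mul_apply, Fin.sum_univ_three]
    · exact aff_mem (g.1 i 2) 0 fun s => by simp [uu, Matrix.mul_apply, Fin.sum_univ_three])
    (fun i => (PolA k).algebraMap_mem (c i)) hF.1
  obtain ⟨Q, hQ⟩ := Fv_mem φ hφ (PolA k) (fun s => g * oo s) (fun _ => c) (fun i j => by
    fin_cases j
    · exact aff_mem (g.1 i 0) 0 fun s => by simp [oo, Matrix.mul_apply, Fin.sum_univ_three]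
    · exact aff_mem (g.1 i 2) (g.1 i 1) fun s => by
        simp [oo, Matrix.mul_apply, Fin.sum_univ_three, add_comm]
    · exact aff_mem (-g.1 i 1) 0 fun s => by simp [oo, Matrix.mul_apply, Fin.sum_univ_three])
    (fun i => (PolA k).algebraMap_mem (c i)) hF.1
  obtain ⟨d, hd, -⟩ := const_of_charts P Q fun s hs => by
    let b : borel3 k := ⟨⟨!![1, 0, 0; 0, s, 1; 0, 0, s⁻¹], by simp [Matrix.det_fin_three, hs]⟩,
      by simp [borel3]⟩
    have e : uu s = oo s⁻¹ * b.1 := by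
      ext i j
      fin_cases i <;> fin_cases j <;> simp [uu, oo, b, Matrix.mul_apply, Fin.sum_univ_three, hs]
    have h2 : row φ (g * oo s⁻¹) c 0 = 0 := by
      rw [row_mul]; exact row_zero φ (by simp [oo]) (by simp [oo]) h
    rw [← hP, ← hQ]
    simp only []
    rw [e, ← mul_assoc, Fv_b φ hF _ b h2]
    simp [b]
  have e0 : uu (0 : k) = 1 := by
    ext i j
    fin_cases i <;> fin_cases j <;> simp [uu]
  have h1 := hP t
  have h2 := hP 0
  simp only [e0, mul_one, hd, Polynomial.eval_C] at h1 h2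
  rw [h1, h2]

lemma Fv_p' {q : ℕ} (hφ : ∀ a, φ a = a ^ q) {F : GG k → RR k} (hF : F ∈ induced3 (rho3 φ))
    (g p : GG k) (h1 : p.1 1 0 = 0) (h2 : p.1 2 0 = 0) (h3 : p.1 1 1 ≠ 0)
    {c : Fin 3 → k} (h : row φ g c 0 = 0) : Fv φ F (g * p) c = Fv φ F g (p.1 0 0 • c) := by
  let t := p.1 2 1 / p.1 1 1
  let b : borel3 k := ⟨uu (-t) * p, by
    refine ⟨?_, ?_, ?_⟩
    · simp [uu, Matrix.mul_apply, Fin.sum_univ_three, h1]
    · simp [uu, Matrix.mul_apply, Fin.sum_univ_three, h1, h2]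
    · simp [uu, Matrix.mul_apply, Fin.sum_univ_three, t, h3]⟩
  have e : uu t * uu (-t) = 1 := by
    ext i j
    fin_cases i <;> fin_cases j <;> simp [uu, Matrix.mul_apply, Fin.sum_univ_three]
  have e1 : g * p = g * uu t * b.1 := by
    simp only [b]
    rw [mul_assoc, ← mul_assoc (uu t), e, one_mul]
  have e2 : b.1.1 0 0 = p.1 0 0 := by simp [b, uu, Matrix.mul_apply, Fin.sum_univ_three]
  have h4 : row φ (g * uu t) c 0 = 0 := by
    rw [row_mul]; exact row_zero φ (by simp [uu]) (by simp [uu]) h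
  rw [e1, Fv_b φ hF _ b h4, e2, Fv_u φ hφ hF]
  simp [row_smul, h]

lemma Fv_p {q : ℕ} (hφ : ∀ a, φ a = a ^ q) {F : GG k → RR k} (hF : F ∈ induced3 (rho3 φ))
    (g p : GG k) (h1 : p.1 1 0 = 0) (h2 : p.1 2 0 = 0)
    {c : Fin 3 → k} (h : row φ g c 0 = 0) : Fv φ F (g * p) c = Fv φ F g (p.1 0 0 • c) := by
  by_cases h3 : p.1 1 1 = 0
  · have h4 : p.1 2 1 ≠ 0 := by
      intro h4
      have := p.2
      rw [Matrix.det_fin_three, h1, h2, h3, h4] at this
      simp at this
    have e : (ee (-1 : k)).1 * (ee 1).1 = 1 := by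
      ext i j
      fin_cases i <;> fin_cases j <;> simp [ee, Matrix.mul_apply, Fin.sum_univ_three]
    have e1 : g * p = g * (ee (-1)).1 * ((ee 1).1 * p) := by
      rw [mul_assoc, ← mul_assoc (ee (-1)).1, e, one_mul]
    have h5 : row φ (g * (ee (-1)).1) c 0 = 0 := by
      rw [row_mul]; exact row_zero φ (by simp [ee]) (by simp [ee]) h
    rw [e1, Fv_p' φ hφ hF _ _ (by simp [ee, Matrix.mul_apply, Fin.sum_univ_three, h1, h2])
      (by simp [ee, Matrix.mul_apply, Fin.sum_univ_three, h2])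
      (by simpa [ee, Matrix.mul_apply, Fin.sum_univ_three, h3] using h4) h5,
      Fv_b φ hF _ _ (by simp [row_smul, h])]
    simp [ee, Matrix.mul_apply, Fin.sum_univ_three]
  · exact Fv_p' φ hφ hF g p h1 h2 h3 h

lemma Fv_col {q : ℕ} (hφ : ∀ a, φ a = a ^ q) {F : GG k → RR k} (hF : F ∈ induced3 (rho3 φ))
    (g g' : GG k) (a : k) (h : ∀ i, g.1 i 0 = g'.1 i 0 * a)
    {c : Fin 3 → k} (hc : row φ g' c 0 = 0) : Fv φ F g c = Fv φ F g' (a • c) := by
  have e := col_eq g g' a h
  have := Fv_p φ hφ hF g' (g'⁻¹ * g) (by rw [e]; simp) (by rw [e]; simp) hc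
  rwa [mul_inv_cancel_left, e, Matrix.one_apply_eq, one_mul] at this

lemma dense0 {G : GG k → RR k} (hG : G ∈ morphisms3 k (RR k) (fun g : GG k => g))
    (h : ∀ g : GG k, g.1 0 0 ≠ 0 → G g = 0) (g : GG k) : G g = 0 := by
  by_cases h0 : g.1 0 0 = 0
  swap
  · exact h g h0
  refine MvPolynomial.funext fun w => ?_
  set a := (g⁻¹).1 0 1 with ha
  set b := (g⁻¹).1 0 2 with hb
  have h1 : a * g.1 1 0 + b * g.1 2 0 = 1 := by
    have h1 : (g⁻¹ * g).1 0 0 = 1 := by rw [inv_mul_cancel]; rfl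
    simp only [Matrix.SpecialLinearGroup.coe_mul, Matrix.mul_apply, Fin.sum_univ_three, h0] at h1
    linear_combination h1
  obtain ⟨P, hP⟩ := fam_mem (PolA k) (fun s => cc a b s * g) (fun _ => w) (fun i j => by
    fin_cases i
    · exact aff_mem (g.1 0 j) (a * g.1 1 j + b * g.1 2 j) fun s => by
        simp [cc, Matrix.mul_apply, Fin.sum_univ_three]; ring
    · exact aff_mem (g.1 1 j) 0 fun s => by simp [cc, Matrix.mul_apply, Fin.sum_univ_three]
    · exact aff_mem (g.1 2 j) 0 fun s => by simp [cc, Matrix.mul_apply, Fin.sum_univ_three])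
    (fun i => (PolA k).algebraMap_mem (w i)) hG
  have h2 : Polynomial.X * P = 0 := Polynomial.funext fun s => by
    by_cases hs : s = 0
    · simp [hs]
    · have h3 : (cc a b s * g).1 0 0 = s := by
        simp only [cc, Matrix.SpecialLinearGroup.coe_mul, Matrix.mul_apply, Fin.sum_univ_three, h0]
        simp
        linear_combination s * h1
      have := hP s
      simp only [h _ (h3.trans_ne hs), map_zero] at this
      simp [← this]
  have h3 : P = 0 := (mul_eq_zero.1 h2).resolve_left Polynomial.X_ne_zero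
  have e0 : cc a b (0 : k) = 1 := by
    ext i j
    fin_cases i <;> fin_cases j <;> simp [cc]
  have := hP 0
  simpa [e0, h3] using this

omit [Infinite k] in
lemma row_g0 {q : ℕ} (hφ : ∀ a, φ a = a ^ q) {v : Ix → k} (h0 : v (inl 0) ≠ 0)
    (hv : eval v (Phi k q) = 0) :
    row φ (g0 (v (inl 1) / v (inl 0)) (v (inl 2) / v (inl 0))) (fun j => v (inr j)) 0 = 0 := by
  rw [eval_Phi] at hv
  simp only [row_apply, hφ, g0]
  simp [div_pow]
  field_simp
  linear_combination hv

lemma onto {q : ℕ} (hφ : ∀ a, φ a = a ^ q) {F : GG k → RR k} (hF : F ∈ induced3 (rho3 φ)) :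
    ∃ P ∈ D0 k, th φ P = F := by
  obtain ⟨N, P0, hP0, e0⟩ := Fv_mem φ hφ (FracA k 0)
    (fun v => g0 (v (inl 1) / v (inl 0)) (v (inl 2) / v (inl 0)))
    (fun v => v (inl 0) • fun j => v (inr j)) (fun i j => by
      fin_cases i <;> fin_cases j <;>
        first | exact one_mem _ | exact zero_mem _ | exact div_mem_Frac _ _)
    (fun j => xc_mem_Frac 0 j) hF.1
  obtain ⟨M, P1, -, e1⟩ := Fv_mem φ hφ (FracA k 1)
    (fun v => g1 (v (inl 0) / v (inl 1)) (v (inl 2) / v (inl 1)))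
    (fun v => v (inl 1) • fun j => v (inr j)) (fun i j => by
      fin_cases i <;> fin_cases j <;>
        first | exact one_mem _ | exact zero_mem _ | exact neg_mem (one_mem _) | exact div_mem_Frac _ _)
    (fun j => xc_mem_Frac 1 j) hF.1
  obtain ⟨E, hE⟩ := ker_Phi q (X (inl 1) * (X (inl 1) ^ M * P0 - X (inl 0) ^ N * P1))
    fun v h0 hv => by
      by_cases h1 : v (inl 1) = 0
      · simp [h1]
      · have h2 := Fv_col φ hφ hF (g1 (v (inl 0) / v (inl 1)) (v (inl 2) / v (inl 1)))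
          (g0 (v (inl 1) / v (inl 0)) (v (inl 2) / v (inl 0))) (v (inl 0) / v (inl 1))
          (fun i => by fin_cases i <;> simp [g0, g1] <;> field_simp)
          (c := v (inl 1) • fun j => v (inr j)) (by simp [row_smul, row_g0 φ hφ h0 hv])
        rw [smul_smul, div_mul_cancel₀ _ h1] at h2
        simp only [map_mul, map_sub, map_pow, eval_X, e0 v h0, e1 v h1, h2]
        ring
  obtain ⟨s, t, hs⟩ := hartogs q N (M + 1) P0 (X (inl 1) * P1) E (by linear_combination hE)
  obtain ⟨s', b', t', hs', -, e⟩ := proj (q := q) (a := s) (b := 0) (e := t) hP0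
    ((hom_x (k := k) 0).pow' N) (isWeightedHomogeneous_zero k wt 0) (by linear_combination hs)
  rw [mul_one, sub_self] at hs'
  refine ⟨s', mem_D0 hs', _root_.funext fun g => sub_eq_zero.1 ?_⟩
  refine dense0 (G := th φ s' - F) (sub_mem (th_mor φ hφ s') hF.1) (fun g h0 => ?_) g
  refine sub_eq_zero.2 (MvPolynomial.funext fun w => ?_)
  have h0' : pt3 φ g w (inl 0) ≠ 0 := h0
  have h1 := e0 _ h0'
  have h2 := Fv_col φ hφ hF g (g0 (pt3 φ g w (inl 1) / pt3 φ g w (inl 0))
    (pt3 φ g w (inl 2) / pt3 φ g w (inl 0))) (pt3 φ g w (inl 0))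
    (fun i => by fin_cases i <;> simp [g0, pt3] <;> field_simp) (row_g0 φ hφ h0' (Phi_pt φ hφ g w))
  have h3 : Fv φ F g (fun j => pt3 φ g w (inr j)) = eval w (F g) := by
    have : (fun j => pt3 φ g w (inr j)) = row φ g⁻¹ (til w) := rfl
    rw [this, Fv, ← row_mul, inv_mul_cancel, row_one, tl_til]
  simp only [← h2, h3] at h1
  rw [e] at h1
  simp only [map_add, map_mul, map_pow, eval_X, Phi_pt φ hφ, mul_zero, add_zero] at h1
  rw [eval_th]
  exact mul_left_cancel₀ (pow_ne_zero N h0') (by linear_combination h1)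

end Pool.Agent.P.MP_271f8e_al.Pl
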