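import Pool.Agent.P.MP_271f8e_al.PlMain

/-! The induced algebra is a domain, and the failure happens at an explicit prime. -/

namespace Pool.Agent.P.MP_271f8e_al.Pl

open MvPolynomial Sum Matrix

lemma bad_prime {A : Type*} [CommRing A] [IsNoetherianRing A] (P1 P2 m : Ideal A) [P1.IsPrime]
    [P2.IsPrime] [m.IsPrime] (h12 : P1 < P2) (h2m : P2 < m) {f g z : A} (hg : g ∈ P1)
    (hr : RingTheory.Sequence.IsWeaklyRegular A [g, f])
    (hz : ∀ u ∈ m, ∃ a b, u * z = a * f + b * g) (hn : ∀ σ ∉ m, ∀ a b, σ * z ≠ a * f + b * g) :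
    ∃ (P : Ideal A) (_ : P.IsPrime),
      depth (Localization.AtPrime P) ≤ 2 ∧ 3 ≤ ringKrullDim (Localization.AtPrime P) := by
  refine ⟨m, inferInstance, depth_loc_le_two m (Localization.AtPrime m) hr hz hn, ?_⟩
  rw [IsLocalization.AtPrime.ringKrullDim_eq_height m]
  have h1 : (1 : ℕ∞) ≤ P1.height :=
    (Ideal.one_le_height_span_singleton_of_mem_nonZeroDivisors
      (mem_nonZeroDivisors_iff.2 ⟨fun _ => reg_zero hr,
        fun y e => reg_zero hr ((mul_comm g y).trans e)⟩)).trans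
      (Ideal.height_mono ((Ideal.span_singleton_le_iff_mem _).2 hg))
  have h2 := Ideal.height_add_one_le_of_lt_of_isPrime h12
  have h3 := Ideal.height_add_one_le_of_lt_of_isPrime h2m
  have h5 : (1 : ℕ∞) + 1 + 1 ≤ m.height := by
    refine le_trans ?_ h3
    gcongr
    refine le_trans ?_ h2
    gcongr
  exact WithBot.coe_le_coe.2 (le_trans (by norm_num) h5)

variable {k : Type*} [Field k] [Infinite k]

lemma Phi_split (q : ℕ) {P Q E : SS k} (h : P * Q = E * Phi k q) :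
    (∃ E, P = E * Phi k q) ∨ ∃ E, Q = E * Phi k q := by
  obtain ⟨N, A, T, e, hT⟩ := pseudo q P
  obtain ⟨M, B, U, e', hU⟩ := pseudo q Q
  have h1 : X (inl 0) * (T * U) = 0 := by
    apply MvPolynomial.funext
    intro v
    by_cases h0 : v (inl 0) = 0
    · simp [h0]
    · set t := -(v (inr 1) * v (inl 1) ^ q + v (inr 2) * v (inl 2) ^ q) / v (inl 0) ^ q with ht
      have hΦ : eval (Function.update v (inr 0) t) (Phi k q) = 0 := by
        rw [eval_Phi]
        simp only [Function.update_self, ne_eq, reduceCtorEq, not_false_eq_true,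
          Function.update_of_ne, inr.injEq, one_ne_zero, Fin.reduceEq]
        rw [ht]; field_simp; ring
      have h2 := congrArg (eval (Function.update v (inr 0) t)) h
      have h3 := congrArg (eval (Function.update v (inr 0) t)) e
      have h4 := congrArg (eval (Function.update v (inr 0) t)) e'
      simp only [map_mul, map_add, hΦ, hT, hU, mul_zero, zero_add] at h2 h3 h4
      simp only [map_mul, map_zero, ← h3, ← h4]
      rcases mul_eq_zero.1 h2 with h5 | h5 <;> simp [h5]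
  rcases mul_eq_zero.1 ((mul_eq_zero.1 h1).resolve_left (X_ne_zero _)) with h2 | h2
  · rw [h2, add_zero] at e
    exact Or.inl ((N1_x q 0).pow N P A e)
  · rw [h2, add_zero] at e'
    exact Or.inr ((N1_x q 0).pow M Q B e')

variable (φ : k →+* k) {q : ℕ} (hφ : ∀ a, φ a = a ^ q)

lemma TH_zero {P : D0 k} : TH φ hφ P = 0 ↔ Phi k q ∣ P.1 := by
  rw [← map_zero (TH φ hφ), TH_eq]
  exact ⟨fun ⟨E, h⟩ => ⟨E, by simpa [mul_comm] using h⟩, fun ⟨E, h⟩ => ⟨E, by simpa [mul_comm] using h⟩⟩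

include hφ in
lemma induced_domain : IsDomain (induced3 (rho3 φ)) := by
  have : NoZeroDivisors (induced3 (rho3 φ)) := ⟨fun {a b} h => by
    obtain ⟨a, rfl⟩ := TH_surj φ hφ a
    obtain ⟨b, rfl⟩ := TH_surj φ hφ b
    rw [← map_mul, TH_zero] at h
    obtain ⟨E, hE⟩ := h
    rcases Phi_split q (P := a.1) (Q := b.1) (E := E) (by rw [mul_comm E]; exact hE) with
      ⟨F, h⟩ | ⟨F, h⟩
    · exact Or.inl ((TH_zero φ hφ).2 ⟨F, by rw [h, mul_comm]⟩)
    · exact Or.inr ((TH_zero φ hφ).2 ⟨F, by rw [h, mul_comm]⟩)⟩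
  exact NoZeroDivisors.to_isDomain _

include hφ in
lemma induced_bad_prime (hq : 4 ≤ q) : ∃ (P : Ideal (induced3 (rho3 φ))) (_ : P.IsPrime),
    depth (Localization.AtPrime P) ≤ 2 ∧ 3 ≤ ringKrullDim (Localization.AtPrime P) := by
  have := induced_ft φ hφ
  have := Algebra.FiniteType.isNoetherianRing k (induced3 (rho3 φ))
  obtain ⟨n, rfl⟩ : ∃ n, q = n + 4 := ⟨q - 4, by omega⟩
  have hΦ : Phi k (n + 4) = X (inr 0) * X (inl 0) ^ (n + 4) + X (inr 1) * X (inl 1) ^ (n + 4) +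
      X (inr 2) * X (inl 2) ^ (n + 4) := by simp [Phi, Fin.sum_univ_three]
  let κ : RR k →ₐ[k] RR k := aeval ![X 0, 0]
  let ε : RR k →ₐ[k] k := aeval fun _ => 0
  have hκ : ε.comp κ = ε := algHom_ext fun i => by fin_cases i <;> simp [ε, κ]
  let z : D0 k := ⟨_, mem_D0 (hom_z n)⟩
  have := RingHom.ker_isPrime (ev1 φ)
  have := RingHom.ker_isPrime (κ.comp (ev1 φ))
  have := RingHom.ker_isPrime (ε.comp (ev1 φ))
  have hm (P : D0 k) : TH φ hφ P ∈ RingHom.ker (ε.comp (ev1 φ)) ↔ eval 0 P.1 = 0 := by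
    rw [RingHom.mem_ker, ← ev1_zero φ hφ]; rfl
  refine bad_prime (RingHom.ker (ev1 φ)) (RingHom.ker (κ.comp (ev1 φ)))
    (RingHom.ker (ε.comp (ev1 φ))) ?_ ?_ (f := TH φ hφ (xc k 0 1)) (g := TH φ hφ (xc k 1 0))
    (z := TH φ hφ z) (ev1_10 φ hφ) (reg_pair ?_ ?_) ?_ ?_
  · refine SetLike.lt_iff_le_and_exists.2 ⟨fun F hF => ?_, TH φ hφ (xc k 0 2), ?_, ?_⟩
    · rw [RingHom.mem_ker] at hF ⊢
      rw [AlgHom.comp_apply, hF, map_zero]
    · rw [RingHom.mem_ker, AlgHom.comp_apply, ev1_02]; simp [κ]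
    · rw [RingHom.mem_ker, ev1_02]; exact X_ne_zero _
  · refine SetLike.lt_iff_le_and_exists.2 ⟨fun F hF => ?_, TH φ hφ (xc k 0 1), ?_, ?_⟩
    · rw [RingHom.mem_ker, AlgHom.comp_apply] at hF ⊢
      rw [← hκ, AlgHom.comp_apply, hF, map_zero]
    · rw [RingHom.mem_ker, AlgHom.comp_apply, ev1_01]; simp [ε]
    · rw [RingHom.mem_ker, AlgHom.comp_apply, ev1_01]; simp [κ]
  · intro y hy
    obtain ⟨Y, rfl⟩ := TH_surj φ hφ y
    rw [← map_mul, ← map_zero (TH φ hφ), TH_eq] at hy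
    obtain ⟨E, hE⟩ := hy
    obtain ⟨E', hE'⟩ := ((N1_x (k := k) (n + 4) 1).mul (N1_c (n + 4) 0)) Y.1 E (by simpa [xc] using hE)
    rw [← map_zero (TH φ hφ), TH_eq]
    exact ⟨E', by simpa using hE'⟩
  · intro a b h
    obtain ⟨a, rfl⟩ := TH_surj φ hφ a
    obtain ⟨b, rfl⟩ := TH_surj φ hφ b
    rw [← map_mul, ← map_mul, TH_eq] at h
    obtain ⟨E, hE⟩ := h
    simp only [xc, MulMemClass.coe_mul] at hE
    obtain ⟨s, t, hs⟩ := reg_fg (n + 4) a.1 b.1 E (by linear_combination hE)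
    obtain ⟨s', b', t', hs', -, e⟩ := proj (q := n + 4) (a := s) (b := 0) (e := t) (D0_hom a.2)
      (hom_xc 1 0) (isWeightedHomogeneous_zero k wt 0) (by linear_combination hs)
    rw [sub_self] at hs'
    refine ⟨TH φ hφ ⟨s', mem_D0 hs'⟩, ?_⟩
    rw [← map_mul, TH_eq]
    exact ⟨t', by simp only [xc, MulMemClass.coe_mul]; linear_combination e⟩
  · intro u hu
    obtain ⟨U, rfl⟩ := TH_surj φ hφ u
    obtain ⟨a, b, c, h⟩ := D0_x U.2 ((hm U).1 hu)
    obtain ⟨a', b', e', ha, hb, e⟩ := proj (q := n + 4)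
      (a := a * (X (inl 2) ^ (n + 3) * X (inr 0) * X (inr 2) ^ (n + 1)) -
        c * (X (inr 0) ^ 2 * X (inl 0) ^ (n + 3) * X (inr 2) ^ n))
      (b := b * (X (inl 2) ^ (n + 3) * X (inr 1) * X (inr 2) ^ (n + 1)) -
        c * (X (inr 1) ^ 2 * X (inl 1) ^ (n + 3) * X (inr 2) ^ n))
      (e := c * (X (inr 0) * X (inr 1) * X (inr 2) ^ n)) (D0_hom (U * z).2)
      (hom_xc 0 1) (hom_xc 1 0) (by
        simp only [z, MulMemClass.coe_mul]
        rw [hΦ, h]; ring)
    rw [sub_self] at ha hb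
    refine ⟨TH φ hφ ⟨a', mem_D0 ha⟩, TH φ hφ ⟨b', mem_D0 hb⟩, ?_⟩
    rw [← map_mul, ← map_mul, ← map_mul, ← map_add, TH_eq]
    exact ⟨e', e⟩
  · intro σ hσ a b h
    obtain ⟨S, rfl⟩ := TH_surj φ hφ σ
    obtain ⟨a, rfl⟩ := TH_surj φ hφ a
    obtain ⟨b, rfl⟩ := TH_surj φ hφ b
    rw [← map_mul, ← map_mul, ← map_mul, ← map_add, TH_eq] at h
    obtain ⟨E, hE⟩ := h
    let ψ : SS k →ₐ[k] Polynomial k := aeval (Sum.elim ![0, 0, Polynomial.X] fun _ => 1)
    have h1 := congrArg ψ hE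
    simp only [z, xc, MulMemClass.coe_mul, AddMemClass.coe_add, hΦ, map_add, map_mul, map_pow] at h1
    have h2 : ψ S.1 * Polynomial.X ^ (n + 3) = ψ E * Polynomial.X * Polynomial.X ^ (n + 3) := by
      simp only [ψ, aeval_X, elim_inl, elim_inr] at h1 ⊢
      simp at h1
      linear_combination h1
    have h3 := mul_right_cancel₀ (pow_ne_zero _ Polynomial.X_ne_zero) h2
    have h4 := D0_const ((Polynomial.aeval (0 : k)).comp ψ)
      (fun i j => by fin_cases i <;> simp [ψ]) S.2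
    rw [AlgHom.comp_apply, h3] at h4
    exact hσ ((hm S).2 (by simpa using h4.symm))

end Pool.Agent.P.MP_271f8e_al.Pl
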