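import Pool.Agent.P.MP_271f8e_al.SmR
import Pool.Agent.P.MP_271f8e_al.Main

/-! The smooth algebra and the action of the Borel subgroup on it. -/

namespace Pool.Agent.P.MP_271f8e_al

open Polynomial

universe u

variable {k : Type u} [Field k] {n : ℕ} {A A' : Type*} [CommRing A] [Algebra k A] [CommRing A']
  [Algebra k A']

/-- A rational point as a point over `A`. -/
noncomputable def upS (A : Type*) [CommRing A] [Algebra k A] (g : SL2 k) : SL2 A :=
  ⟨up A g, up_det g⟩

/-- The image of a point. -/
noncomputable def mapS (f : A →ₐ[k] A') (γ : SL2 A) : SL2 A' :=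
  Matrix.SpecialLinearGroup.map (f : A →+* A') γ

lemma mapS_apply (f : A →ₐ[k] A') (γ : SL2 A) (i j : Fin 2) : (mapS f γ).1 i j = f (γ.1 i j) := rfl

lemma liftC_mapS (f : A →ₐ[k] A') (γ : SL2 A) (φ : CG k) : liftC (mapS f γ) φ = f (liftC γ φ) :=
  DFunLike.congr_fun (extC (g := f.comp (liftC γ)) fun i j => by
    rw [AlgHom.comp_apply, liftC_h, liftC_h, mapS_apply]) φ

lemma mul_col (γ : SL2 A) (b : borel k) (i : Fin 2) :
    (γ * upS A b.1).1 i 0 = b.1.1 0 0 • γ.1 i 0 := by
  have h0 : b.1.1 1 0 = 0 := b.2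
  simp [upS, up, Matrix.mul_apply, Fin.sum_univ_two, h0, Algebra.smul_def, mul_comm]

/-- Right translation on the coordinate ring of `SL_2`. -/
noncomputable def actC (b : borel k) : CG k →ₐ[k] CG k := liftC (hC k * upS _ b.1)

lemma actC_col (b : borel k) (i : Fin 2) : actC b ((hC k).1 i 0) = b.1.1 0 0 • (hC k).1 i 0 := by
  rw [actC, liftC_h, mul_col]

lemma liftC_act (γ : SL2 A) (b : borel k) (φ : CG k) :
    liftC γ (actC b φ) = liftC (γ * upS A b.1) φ := by
  rw [actC, ← liftC_mapS]
  congr 2
  ext i j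
  simp [mapS_apply, upS, up, Matrix.mul_apply, liftC_h]

lemma actC_one (φ : CG k) : actC 1 φ = φ :=
  DFunLike.congr_fun (extC (g := AlgHom.id k _) fun i j => by simp [actC, liftC_h, upS, up]) φ

lemma actC_mul (a b : borel k) (φ : CG k) : actC (a * b) φ = actC a (actC b φ) := by
  rw [actC, actC, liftC_act, mul_assoc]
  congr 3
  exact Subtype.ext (up_mul _ _)

lemma borel_mul0 (a b : borel k) : (a * b).1.1 0 0 = a.1.1 0 0 * b.1.1 0 0 := by
  have h0 : b.1.1 1 0 = 0 := b.2
  simp [Matrix.mul_apply, Fin.sum_univ_two, h0]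

/-- The action on the cyclic cover. -/
noncomputable def actF (b : borel k) : RF k n →ₐ[k] RF k n :=
  liftF (mapS (iF k n) (hC k * upS _ b.1)) (b.1.1 0 0 • xF k n) (by
    simp only [mapS_apply, mul_col, map_smul, _root_.smul_pow, ← smul_add, xF_eq, smul_zero])

lemma actF_x (b : borel k) : actF b (xF k n) = b.1.1 0 0 • xF k n := liftF_x _ _ _

lemma actF_i (b : borel k) (φ : CG k) : actF b (iF k n φ) = iF k n (actC b φ) :=
  (liftF_i _ _ _ _).trans (liftC_mapS _ _ _)

lemma actF_one : actF 1 = AlgHom.id k (RF k n) :=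
  extF (fun i j => by rw [actF_i, actC_one]; rfl) (by simp [actF_x])

lemma actF_mul (a b : borel k) : actF (n := n) (a * b) = (actF a).comp (actF b) :=
  extF (fun i j => by rw [AlgHom.comp_apply, actF_i, actF_i, actF_i, actC_mul]) (by
    rw [AlgHom.comp_apply, actF_x, actF_x, map_smul, actF_x, borel_mul0, smul_smul, mul_comm])

/-- Extension of an endomorphism to polynomials, scaling the variable. -/
noncomputable def ext1 (σ : A →ₐ[k] A) (c : k) : A[X] →ₐ[k] A[X] :=
  aevalTower (CAlgHom.comp σ) (c • X)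

lemma ext1_C (σ : A →ₐ[k] A) (c : k) (a : A) : ext1 σ c (C a) = C (σ a) := aevalTower_C _ _ _

lemma ext1_X (σ : A →ₐ[k] A) (c : k) : ext1 σ c X = c • X := aevalTower_X _ _

lemma ext1_coeff (σ : A →ₐ[k] A) (c : k) (p : A[X]) (i : ℕ) :
    (ext1 σ c p).coeff i = c ^ i • σ (p.coeff i) := by
  induction p using Polynomial.induction_on' with
  | add p q hp hq => simp [hp, hq]
  | monomial j a =>
    rw [← C_mul_X_pow_eq_monomial, map_mul, map_pow, ext1_C, ext1_X, _root_.smul_pow,
      mul_smul_comm,
      coeff_smul, coeff_C_mul_X_pow, coeff_C_mul_X_pow]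
    split_ifs with h <;> simp [h]

lemma ext1_id : ext1 (AlgHom.id k A) 1 = AlgHom.id k _ :=
  AlgHom.ext fun p => Polynomial.ext fun i => by simp [ext1_coeff]

lemma ext1_comp (σ τ : A →ₐ[k] A) (c d : k) :
    ext1 (σ.comp τ) (c * d) = (ext1 σ c).comp (ext1 τ d) :=
  AlgHom.ext fun p => Polynomial.ext fun i => by simp [ext1_coeff, mul_pow, smul_smul]

variable (k n) in
/-- The smooth algebra: two more variables over the cyclic cover. -/
abbrev RS : Type u := (RF k n)[X][X]

/-- The action on the smooth algebra. -/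
noncomputable def act (b : borel k) : RS k n →ₐ[k] RS k n :=
  ext1 (ext1 (actF b) (b.1.1 1 1)) (b.1.1 1 1)

lemma act_one : act 1 = AlgHom.id k (RS k n) := by
  simp [act, actF_one, ext1_id]

lemma act_mul (a b : borel k) : act (n := n) (a * b) = (act a).comp (act b) := by
  rw [act, actF_mul, borel_mul, ext1_comp, ext1_comp, act, act]

variable (k n) in
/-- The action by automorphisms. -/
noncomputable def rhoS : borel k →* (RS k n ≃ₐ[k] RS k n) where
  toFun b := AlgEquiv.ofAlgHom (act b) (act b⁻¹) (by rw [← act_mul, mul_inv_cancel, act_one])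
    (by rw [← act_mul, inv_mul_cancel, act_one])
  map_one' := AlgEquiv.ext fun p => DFunLike.congr_fun act_one p
  map_mul' a b := AlgEquiv.ext fun p => DFunLike.congr_fun (act_mul a b) p

lemma rhoS_apply (b : borel k) (r : RS k n) : rhoS k n b r = act b r := rfl

variable (k n) in
/-- Constants. -/
noncomputable def jj : RF k n →ₐ[k] RS k n := CAlgHom.comp CAlgHom

lemma jj_apply (r : RF k n) : jj k n r = C (C r) := rfl

lemma act_j (b : borel k) (r : RF k n) : act b (jj k n r) = jj k n (actF b r) := by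
  rw [jj_apply, act, ext1_C, ext1_C, jj_apply]

lemma act_u (b : borel k) : act b (C X : RS k n) = b.1.1 1 1 • C X := by
  rw [act, ext1_C, ext1_X, smul_C]

lemma act_v (b : borel k) : act b (X : RS k n) = b.1.1 1 1 • X := ext1_X _ _

variable (k n) in
/-- The equivariant point. -/
noncomputable def hS : SL2 (RS k n) := mapS ((jj k n).comp (iF k n)) (hC k)

lemma hS_equiv (b : borel k) : (hS k n).1.map ((rhoS k n b : RS k n →ₐ[k] RS k n) : _ →+* _) =
    (hS k n).1 * up (RS k n) b.1 := by
  refine Matrix.ext fun i j => ?_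
  change act b (jj k n (iF k n _)) = _
  rw [act_j, actF_i, actC, liftC_h]
  simp [hS, mapS_apply, upS, up, Matrix.mul_apply]

lemma RS_gen (B : Subalgebra k (RS k n)) (hh : ∀ i j, (hS k n).1 i j ∈ B)
    (hx : jj k n (xF k n) ∈ B) (hu : C X ∈ B) (hv : X ∈ B) (r : RS k n) : r ∈ B := by
  have h1 : ∀ a, jj k n a ∈ B := fun a => by
    let γ : SL2 B := ⟨Matrix.of fun i j => ⟨(hS k n).1 i j, hh i j⟩, Subtype.ext (by
      simpa [Matrix.det_fin_two] using (Matrix.det_fin_two _).symm.trans (hS k n).2)⟩
    have : B.val.comp (liftF γ ⟨_, hx⟩ (Subtype.ext (by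
        simpa [γ, hS, mapS_apply] using congrArg (jj k n) (xF_eq k n)))) = jj k n :=
      extF (fun i j => by rw [AlgHom.comp_apply, liftF_i, liftC_h]; rfl)
        (by rw [AlgHom.comp_apply, liftF_x]; rfl)
    rw [← this]
    exact Subtype.prop _
  have h2 : ∀ p : (RF k n)[X], C p ∈ B := fun p => by
    induction p using Polynomial.induction_on' with
    | add p q hp hq => rw [map_add]; exact add_mem hp hq
    | monomial j a =>
      rw [← C_mul_X_pow_eq_monomial, map_mul, map_pow]
      exact mul_mem (h1 a) (pow_mem hu j)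
  induction r using Polynomial.induction_on' with
  | add p q hp hq => exact add_mem hp hq
  | monomial j a =>
    rw [← C_mul_X_pow_eq_monomial]
    exact mul_mem (h2 a) (pow_mem hv j)

lemma rhoS_rational (r : RS k n) :
    (fun b : borel k => rhoS k n b r) ∈ morphisms k (RS k n) (fun b : borel k => b.1) := by
  have key : ∀ (i j : Fin 2) (a : RS k n), (fun b : borel k => b.1.1 i j • a) ∈
      morphisms k (RS k n) (fun b : borel k => b.1) := fun i j a => by
    have := Subalgebra.smul_mem _ (entry_mem (RS k n) (fun b : borel k => b.1) i j) a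
    simpa [Algebra.smul_def, mul_comm, Pi.mul_def] using this
  refine RS_gen (((morphisms k (RS k n) (fun b : borel k => b.1)).restrictScalars k).comap
    (AlgHom.pi fun b => (rhoS k n b : RS k n →ₐ[k] RS k n))) (fun i j => ?_) ?_ ?_ ?_ r
  · have e : ∀ b : borel k, rhoS k n b ((hS k n).1 i j) =
        b.1.1 0 j • (hS k n).1 i 0 + b.1.1 1 j • (hS k n).1 i 1 := fun b =>
      (congrFun (congrFun (hS_equiv b) i) j).trans (by
        simp [up, Matrix.mul_apply, Algebra.smul_def, mul_comm])
    change (fun b => rhoS k n b _) ∈ morphisms _ _ _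
    simp only [e]
    exact add_mem (key 0 j _) (key 1 j _)
  · change (fun b => act b _) ∈ morphisms _ _ _
    simp only [act_j, actF_x, map_smul]
    exact key 0 0 _
  · change (fun b => act b _) ∈ morphisms _ _ _
    simp only [act_u]
    exact key 1 1 _
  · change (fun b => act b _) ∈ morphisms _ _ _
    simp only [act_v]
    exact key 1 1 _

lemma RS_cm : IsCohenMacaulay (RS k n) := ((CG_cm k).of_flat (B := RF k n)).poly.poly

lemma RS_smooth (hn : ((n + 3 : ℕ) : k) ≠ 0) : Algebra.Smooth k (RS k n) := by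
  have := RF_smooth hn
  have : Algebra.FormallySmooth k (RF k n)[X] := .comp k (RF k n) _
  have : Algebra.FiniteType k (RF k n)[X] := .trans (S := RF k n) inferInstance inferInstance
  exact ⟨.comp k (RF k n)[X] _, Algebra.FinitePresentation.of_finiteType.1
    (.trans (S := (RF k n)[X]) inferInstance inferInstance)⟩

end Pool.Agent.P.MP_271f8e_al
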