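import Pool.Agent.P.MP_271f8e_al.SmMain

/-! The smooth algebra is a domain. -/

namespace Pool.Agent.P.MP_271f8e_al

open Polynomial

universe u

variable {k : Type u} [Field k] {n : ℕ} [Infinite k]

variable (k) in
/-- The generic product of four elementary matrices. -/
noncomputable def genE : CG k →ₐ[k] MvPolynomial (Fin 4) k := liftC ⟨E4 MvPolynomial.X, E4_det _⟩

lemma genE_inj : Function.Injective (genE k) := by
  refine (injective_iff_map_eq_zero _).2 fun φ h => CG_zero fun ⟨g, hg⟩ => ?_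
  obtain ⟨y, rfl⟩ := E4_surj g hg
  have := congrArg (MvPolynomial.aeval y) h
  rw [genE, ← liftC_mapS, map_zero] at this
  rw [← this]
  congr 2
  refine Subtype.ext (Eq.trans ?_ (E4_map _ _).symm)
  simp

lemma RF_dom (hn : ((n + 3 : ℕ) : k) ≠ 0) (ζ : k) (hζ : ζ ^ (n + 3) = -1) : IsDomain (RF k n) := by
  have := genE_inj.isDomain (genE k).toRingHom
  refine AdjoinRoot.isDomain_of_prime ?_
  have hm := (q2_monic k n).map (genE k).toRingHom
  suffices h : Prime ((q2 k n).map (genE k).toRingHom) by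
    refine ⟨(q2_monic k n).ne_zero, fun hu => h.not_isUnit (hu.map (mapRingHom _)),
      fun a b hab => ?_⟩
    have h1 := Polynomial.map_dvd (genE k).toRingHom hab
    rw [Polynomial.map_mul] at h1
    exact (h.dvd_or_dvd h1).imp (map_dvd_map _ genE_inj (q2_monic k n)).1
      (map_dvd_map _ genE_inj (q2_monic k n)).1
  let ψ : MvPolynomial (Fin 4) k →ₐ[k] k[X] := MvPolynomial.aeval ![X + C ζ, 0, 0, 0]
  obtain ⟨a, ha, hq⟩ : ∃ a, ψ a = 1 + (X + C ζ) ^ (n + 3) ∧
      (q2 k n).map (genE k).toRingHom = X ^ (n + 3) + C a :=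
    ⟨genE k ((hC k).1 0 0 ^ (n + 3) + (hC k).1 1 0 ^ (n + 3)), by
      simp [ψ, genE, liftC_h, E4], by simp [q2]⟩
  have hp : (Ideal.span {(X : k[X])}).IsPrime := (Ideal.span_singleton_prime X_ne_zero).2 prime_X
  rw [hq] at hm ⊢
  refine (irreducible_of_eisenstein_criterion (P := (Ideal.span {(X : k[X])}).comap ψ)
    inferInstance ?_ (fun j hj => ?_) ?_ (fun h => ?_) hm.isPrimitive).prime
  · rw [hm.leadingCoeff]
    exact (Ideal.ne_top_iff_one _).1 Ideal.IsPrime.ne_top'
  · rw [degree_X_pow_add_C (by omega), Nat.cast_lt] at hj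
    rw [coeff_add, coeff_X_pow, if_neg hj.ne, zero_add, coeff_C]
    split_ifs
    · rw [Ideal.mem_comap, ha, Ideal.mem_span_singleton, X_dvd_iff]
      simp [coeff_X_add_C_pow, hζ]
    · exact zero_mem _
  · rw [degree_X_pow_add_C (by omega)]
    exact_mod_cast Nat.succ_pos _
  · have h1 := Ideal.mem_map_of_mem ψ h
    rw [Ideal.map_pow] at h1
    have h2 := Ideal.pow_right_mono Ideal.map_comap_le 2 h1
    rw [Ideal.span_singleton_pow, Ideal.mem_span_singleton, X_pow_dvd_iff] at h2
    have h3 := h2 1 (by omega)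
    have h4 : ζ ≠ 0 := by rintro rfl; simp at hζ
    simp only [coeff_add, coeff_X_pow, coeff_C_zero, zero_add, show ¬ 0 = n + 3 by omega, if_false,
      ha, coeff_X_add_C_pow, coeff_one, one_ne_zero, Nat.choose_one_right] at h3
    exact mul_ne_zero (pow_ne_zero _ h4) hn h3

end Pool.Agent.P.MP_271f8e_al
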