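import Pool.Agent.P.MP_271f8e_al.SmAct

/-! Semi-invariants of the Borel subgroup. -/

namespace Pool.Agent.P.MP_271f8e_al

open Polynomial

universe u

variable {k : Type u} [Field k] {n : ℕ} {A : Type*} [CommRing A] [Algebra k A]

/-- Semi-invariants of weight `m - i`. -/
def Wt (σ : borel k → A →ₐ[k] A) (i m : ℕ) : Submodule k A where
  carrier := {φ | ∀ b, b.1.1 0 0 ^ i • σ b φ = b.1.1 0 0 ^ m • φ}
  add_mem' := fun h h' b => by rw [map_add, smul_add, smul_add, h b, h' b]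
  zero_mem' := fun b => by simp
  smul_mem' := fun c φ h b => by rw [map_smul, smul_comm, h b, smul_comm]

lemma b00_ne (b : borel k) : b.1.1 0 0 ≠ 0 := left_ne_zero_of_mul_eq_one (borel_det b)

section
variable {σ : borel k → A →ₐ[k] A} {i m i' m' : ℕ} {φ ψ : A}

lemma Wt.mul (h : φ ∈ Wt σ i m) (h' : ψ ∈ Wt σ i' m') : φ * ψ ∈ Wt σ (i + i') (m + m') :=
  fun b => by rw [map_mul, pow_add, pow_add, ← smul_mul_smul_comm, h b, h' b, smul_mul_smul_comm]

lemma Wt.pow (h : φ ∈ Wt σ 0 1) (j : ℕ) : φ ^ j ∈ Wt σ 0 j := by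
  induction j with
  | zero => intro b; simp
  | succ j ih => rw [pow_succ]; exact Wt.mul ih h

lemma Wt.cancel (j : ℕ) (h : φ ∈ Wt σ i m) (hi : i = i' + j) (hm : m = m' + j) :
    φ ∈ Wt σ i' m' := fun b => by
  have := h b
  rw [hi, hm, pow_add, pow_add, mul_comm, mul_comm (_ ^ m'), mul_smul, mul_smul] at this
  exact smul_right_injective A (pow_ne_zero j (b00_ne b)) this

end

lemma col_wt (i : Fin 2) : (hC k).1 i 0 ∈ Wt actC 0 1 := fun b => by simp [actC_col]

lemma mon_wt {m l : ℕ} (hl : l ∈ Finset.range (m + 1)) :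
    (hC k).1 0 0 ^ (m - l) * (hC k).1 1 0 ^ l ∈ Wt actC 0 m :=
  Wt.cancel 0 (Wt.mul (Wt.pow (col_wt 0) _) (Wt.pow (col_wt 1) _)) rfl
    (by have := Finset.mem_range.1 hl; omega)

lemma Wt.iF {i m : ℕ} {φ : CG k} (h : φ ∈ Wt actC i m) : iF k n φ ∈ Wt actF i m := fun b => by
  rw [actF_i, ← map_smul, h b, map_smul]

lemma x_wt : xF k n ∈ Wt actF 0 1 := fun b => by simp [actF_x]

variable (k) in
/-- The generic point of the first chart. -/
noncomputable def lowX : SL2 k[X] := ⟨!![1, 0; X, 1], by simp [Matrix.det_fin_two]⟩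

variable (k) in
/-- The generic point of the second chart. -/
noncomputable def oppX : SL2 k[X] := ⟨!![X, -1; 1, 0], by simp [Matrix.det_fin_two]⟩

lemma eval_lowX (y : k) (φ : CG k) : (liftC (lowX k) φ).eval y = liftC (low y) φ := by
  rw [← coe_aeval_eq_eval, ← liftC_mapS]
  congr 2
  ext i j
  fin_cases i <;> fin_cases j <;> simp [mapS_apply, lowX, low]

lemma eval_oppX (y : k) (φ : CG k) : (liftC (oppX k) φ).eval y = liftC (opp y) φ := by
  rw [← coe_aeval_eq_eval, ← liftC_mapS]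
  congr 2
  ext i j
  fin_cases i <;> fin_cases j <;> simp [mapS_apply, oppX, opp]

lemma wt_val {i m : ℕ} {φ : CG k} (h : φ ∈ Wt actC i m) (g : SL2 k) (b : borel k) :
    b.1.1 0 0 ^ i * liftC (g * b.1) φ = b.1.1 0 0 ^ m * liftC g φ := by
  have := congrArg (liftC g) (h b)
  rwa [map_smul, map_smul, liftC_act] at this

variable [Infinite k]

lemma inf_ne : {y : k | y ≠ 0}.Infinite := (Set.finite_singleton (0 : k)).infinite_compl

lemma wt_zero {i m : ℕ} {φ : CG k} (h : φ ∈ Wt actC i m) (hF : liftC (lowX k) φ = 0) : φ = 0 := by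
  have hb : ∀ (g : SL2 k) (b : borel k), liftC g φ = 0 → liftC (g * b.1) φ = 0 := fun g b e => by
    have := wt_val h g b
    rw [e, mul_zero] at this
    exact (mul_eq_zero.1 this).resolve_left (pow_ne_zero _ (b00_ne b))
  have h1 : ∀ g : SL2 k, g.1 0 0 ≠ 0 → liftC g φ = 0 := fun g h0 => by
    obtain ⟨b, hg⟩ := mem_low g (g.1 1 0 / g.1 0 0) (by field_simp)
    rw [hg]
    exact hb _ _ (by rw [← eval_lowX, hF, eval_zero])
  have h2 : liftC (oppX k) φ = 0 := eq_zero_of_infinite_isRoot _ (inf_ne.mono fun y hy =>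
    (eval_oppX y φ).trans (h1 _ hy))
  refine CG_zero fun g => by_contra fun hg => ?_
  obtain ⟨b, rfl⟩ := mem_opp g 0 (by simpa using by_contra fun e => hg (h1 g e))
  exact hg (hb _ _ (by rw [← eval_oppX, h2, eval_zero]))

lemma wt_deg {i m : ℕ} {φ : CG k} (h : φ ∈ Wt actC i m) (hF : liftC (lowX k) φ ≠ 0) :
    i + (liftC (lowX k) φ).natDegree ≤ m := by
  set Q := liftC (oppX k) φ with hQ
  have h1 : X ^ (Q.natDegree + i) * liftC (lowX k) φ = X ^ m * Q.reverse := by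
    apply eq_of_infinite_eval_eq
    refine inf_ne.mono fun y hy => ?_
    have hy' : y ≠ 0 := hy
    obtain ⟨b, hb⟩ := mem_opp (low y) y⁻¹ (by simp [low, hy'])
    have h0 : b.1.1 0 0 = y := by
      have := congrArg (fun g : SL2 k => g.1 1 0) hb
      simpa [low, opp, Matrix.mul_apply] using this.symm
    have h2 := wt_val h (opp y⁻¹) b
    rw [← hb, h0, ← eval_lowX, ← eval_oppX, ← hQ] at h2
    let : Invertible y⁻¹ := invertibleOfNonzero (inv_ne_zero hy')
    have := eval₂_reverse_mul_pow (RingHom.id k) y⁻¹ Q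
    simp only [invOf_eq_inv, inv_inv, eval₂_id] at this
    simp only [Set.mem_ofPred_eq, eval_mul, eval_pow, eval_X, pow_add, mul_assoc, h2, ← this,
      inv_pow]
    field_simp
  have h2 := congrArg natDegree h1
  rw [natDegree_mul (by simp) hF, natDegree_X_pow] at h2
  have h3 := Q.reverse_natDegree_le
  have h4 := natDegree_mul_le (p := X ^ m) (q := Q.reverse)
  rw [natDegree_X_pow] at h4
  omega

lemma wt_neg {i m : ℕ} {φ : CG k} (h : φ ∈ Wt actC i m) (hm : m < i) : φ = 0 :=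
  wt_zero h (by_contra fun e => by have := wt_deg h e; omega)

lemma wt_pos {m : ℕ} {φ : CG k} (h : φ ∈ Wt actC 0 m) : ∃ F : ℕ → k,
    φ = ∑ l ∈ Finset.range (m + 1), F l • ((hC k).1 0 0 ^ (m - l) * (hC k).1 1 0 ^ l) := by
  refine ⟨(liftC (lowX k) φ).coeff, sub_eq_zero.1 (wt_zero (i := 0) (m := m)
    (sub_mem h (sum_mem fun l hl => Submodule.smul_mem _ _ ?_)) ?_)⟩
  · exact mon_wt hl
  · have hd : (liftC (lowX k) φ).natDegree < m + 1 := by
      by_cases e : liftC (lowX k) φ = 0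
      · simp [e]
      · have := wt_deg h e; omega
    rw [map_sub, sub_eq_zero]
    refine (as_sum_range' _ _ hd).trans ?_
    simp [liftC_h, lowX, ← C_mul_X_pow_eq_monomial, smul_eq_C_mul]

lemma wt_succ {m : ℕ} {φ : CG k} (h : φ ∈ Wt actC 0 (m + 1)) :
    ∃ α ∈ Wt actC 0 m, ∃ β ∈ Wt actC 0 m, φ = (hC k).1 0 0 * α + (hC k).1 1 0 * β := by
  obtain ⟨F, hF⟩ := wt_pos h
  refine ⟨∑ l ∈ Finset.range (m + 1), F l • ((hC k).1 0 0 ^ (m - l) * (hC k).1 1 0 ^ l),
    sum_mem fun l hl => Submodule.smul_mem _ _ ?_, F (m + 1) • (hC k).1 1 0 ^ m,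
    Submodule.smul_mem _ _ (Wt.pow (col_wt 1) _), ?_⟩
  · exact mon_wt hl
  · rw [hF, Finset.sum_range_succ, Finset.mul_sum]
    congr 1
    · refine Finset.sum_congr rfl fun l hl => ?_
      rw [show m + 1 - l = m - l + 1 by have := Finset.mem_range.1 hl; omega, mul_smul_comm,
        pow_succ', mul_assoc]
    · simp [pow_succ']

omit [Infinite k] in
instance : Nontrivial (CG k) := (liftC (1 : SL2 k)).toRingHom.domain_nontrivial

omit [Infinite k] in
lemma exists_coord : ∃ co : Fin (n + 3) → RF k n →ₗ[CG k] CG k,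
    (∀ r, r = ∑ i, iF k n (co i r) * xF k n ^ (i : ℕ)) ∧ co (Fin.last _) (xF k n ^ (n + 2)) = 1 ∧
    ∀ (i : Fin (n + 3)) m r, r ∈ Wt actF 0 m → co i r ∈ Wt actC i m := by
  obtain ⟨B, hB⟩ := exists_basis k n
  have h1 : ∀ r, r = ∑ i, iF k n (B.coord i r) * xF k n ^ (i : ℕ) := fun r => by
    have := (B.sum_repr r).symm
    simp only [hB, Algebra.smul_def] at this
    exact this
  refine ⟨B.coord, h1, by simpa using congrArg (B.coord (Fin.last _)) (hB (Fin.last _)).symm,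
    fun i m r hr b => ?_⟩
  have h2 : actF b r = ∑ j : Fin (n + 3), (b.1.1 0 0 ^ (j : ℕ) • actC b (B.coord j r)) • B j := by
    conv_lhs => rw [h1 r]
    simp only [map_sum, map_mul, map_pow, actF_i, actF_x, _root_.smul_pow, hB, smul_assoc,
      mul_smul_comm]
    exact Finset.sum_congr rfl fun j _ => congrArg _ (Algebra.smul_def _ _).symm
  have h3 := congrArg (B.coord i) (hr b)
  rwa [pow_zero, one_smul, h2, B.coord_apply, B.repr_sum_self, LinearMap.map_smul_of_tower] at h3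

lemma wtF_zero {r : RF k n} (h : r ∈ Wt actF 0 0) : ∃ c, r = algebraMap k _ c := by
  obtain ⟨co, h1, -, h3⟩ := exists_coord (k := k) (n := n)
  obtain ⟨F, hF⟩ := wt_pos (h3 0 0 r h)
  refine ⟨F 0, (h1 r).trans ?_⟩
  rw [Fin.sum_univ_succ, Finset.sum_eq_zero fun j _ => by
    rw [wt_neg (h3 j.succ 0 r h) (by simp), map_zero, zero_mul], hF]
  simp [Algebra.algebraMap_eq_smul_one]

lemma wtF_succ {m : ℕ} {r : RF k n} (h : r ∈ Wt actF 0 (m + 1)) :
    ∃ α ∈ Wt actF 0 (m + n + 2), ∃ β ∈ Wt actF 0 (m + n + 2),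
      r * xF k n ^ (n + 2) = iF k n ((hC k).1 0 0) * α + iF k n ((hC k).1 1 0) * β := by
  obtain ⟨co, h1, -, h3⟩ := exists_coord (k := k) (n := n)
  obtain ⟨α, hα, β, hβ, e⟩ := wt_succ (h3 0 _ r h)
  obtain ⟨r', hr', e'⟩ : ∃ r' ∈ Wt actF 1 (m + 1), r = iF k n (co 0 r) + r' * xF k n := by
    refine ⟨∑ j : Fin (n + 2), iF k n (co j.succ r) * xF k n ^ (j : ℕ), sum_mem fun j _ =>
      Wt.cancel j (Wt.mul (Wt.iF (h3 j.succ _ r h)) (Wt.pow x_wt j))
        (by rw [Fin.val_succ]; omega) rfl, ?_⟩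
    refine (h1 r).trans ?_
    rw [Fin.sum_univ_succ, Finset.sum_mul, Fin.val_zero, pow_zero, mul_one]
    simp only [Fin.val_succ, pow_succ, mul_assoc]
  have hw : ∀ i, ∀ γ ∈ Wt actC 0 m, iF k n γ * xF k n ^ (n + 2) -
      r' * iF k n ((hC k).1 i 0) ^ (n + 2) ∈ Wt actF 0 (m + n + 2) := fun i γ hγ =>
    sub_mem (Wt.cancel 0 (Wt.mul (Wt.iF hγ) (Wt.pow x_wt (n + 2))) rfl (by omega))
      (Wt.cancel 1 (Wt.mul hr' (Wt.pow (Wt.iF (col_wt i)) _)) rfl (by omega))
  refine ⟨_, hw 0 α hα, _, hw 1 β hβ, ?_⟩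
  rw [e, map_add, map_mul, map_mul] at e'
  linear_combination xF k n ^ (n + 2) * e' + r' * xF_eq k n

lemma wtF_not {c : k} {α β : RF k n} (hα : α ∈ Wt actF 0 (n + 1)) (hβ : β ∈ Wt actF 0 (n + 1))
    (e : c • xF k n ^ (n + 2) = iF k n ((hC k).1 0 0) * α + iF k n ((hC k).1 1 0) * β) :
    c = 0 := by
  obtain ⟨co, -, h2, h3⟩ := exists_coord (k := k) (n := n)
  have h4 : ∀ a r, co (Fin.last _) (iF k n a * r) = a * co (Fin.last _) r := fun a r =>
    (congrArg _ (Algebra.smul_def a r).symm).trans (map_smul _ _ _)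
  have := congrArg (co (Fin.last _)) e
  rw [LinearMap.map_smul_of_tower, h2, map_add, h4, h4, wt_neg (h3 _ _ _ hα) (by simp),
    wt_neg (h3 _ _ _ hβ) (by simp)] at this
  simpa using this

end Pool.Agent.P.MP_271f8e_al
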