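import Pool.Agent.P.MP_271f8e_al.SmInv

/-! The algebra induced from the smooth algebra is not Cohen-Macaulay. -/

namespace Pool.Agent.P.MP_271f8e_al

open Polynomial

universe u

variable {k : Type u} [Field k] {n : ℕ}

lemma gen_inv {U W : Type*} [AddCommGroup U] [Module k U] [AddCommGroup W] [Module k W]
    (Φ : U →ₗ[k] W) : ∃ Γ : W →ₗ[k] U, ∀ u, Φ (Γ (Φ u)) = Φ u := by
  obtain ⟨σ, hσ⟩ := Φ.rangeRestrict.exists_rightInverse_of_surjective Φ.range_rangeRestrict
  obtain ⟨Γ, hΓ⟩ := LinearMap.exists_extend σ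
  refine ⟨Γ, fun u => ?_⟩
  have h1 := DFunLike.congr_fun hΓ ⟨Φ u, u, rfl⟩
  have h2 := congrArg Subtype.val (DFunLike.congr_fun hσ ⟨Φ u, u, rfl⟩)
  exact (congrArg Φ h1).trans h2

lemma lin_sel {V : Type*} [AddCommGroup V] [Module k V] (p : Submodule k V) (F G Z : V →ₗ[k] V) :
    ∃ L L' : V →ₗ[k] V, (∀ r, L r ∈ p) ∧ (∀ r, L' r ∈ p) ∧
      ∀ r, Z r ∈ p.map F ⊔ p.map G → Z r = F (L r) + G (L' r) := by
  obtain ⟨Γ, hΓ⟩ := gen_inv ((F.comp p.subtype).coprod (G.comp p.subtype))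
  refine ⟨p.subtype.comp ((LinearMap.fst _ _ _).comp (Γ.comp Z)),
    p.subtype.comp ((LinearMap.snd _ _ _).comp (Γ.comp Z)), fun r => (Γ (Z r)).1.2,
    fun r => (Γ (Z r)).2.2, fun r h => ?_⟩
  obtain ⟨_, ⟨a, ha, rfl⟩, _, ⟨b, hb, rfl⟩, e⟩ := Submodule.mem_sup.1 h
  have := hΓ (⟨a, ha⟩, ⟨b, hb⟩)
  simp only [LinearMap.coprod_apply, LinearMap.comp_apply, Submodule.subtype_apply, e] at this
  exact this.symm

variable (k n) in
/-- The invariants of the smooth algebra. -/
def InvS : Submodule k (RS k n) where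
  carrier := {r | ∀ b, act b r = r}
  add_mem' := fun h h' b => by rw [map_add, h b, h' b]
  zero_mem' := fun b => map_zero _
  smul_mem' := fun c φ h b => by rw [map_smul, h b]

lemma mon_inv {a : RF k n} (i j : ℕ) (h : a ∈ Wt actF 0 (i + j)) :
    jj k n a * C X ^ i * X ^ j ∈ InvS k n := fun b => by
  have := h b
  rw [pow_zero, one_smul] at this
  simp only [map_mul, map_pow, act_j, act_u, act_v, this, map_smul, _root_.smul_pow,
    smul_mul_smul_comm]
  rw [mul_assoc, ← pow_add, ← mul_pow, borel_det, one_pow, one_smul]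

lemma coeff_wt {r : RS k n} (h : r ∈ InvS k n) (i j : ℕ) :
    (r.coeff j).coeff i ∈ Wt actF 0 (i + j) := fun b => by
  have := congrArg (fun p : RS k n => (p.coeff j).coeff i) (h b)
  simp only [act, ext1_coeff, coeff_smul] at this
  conv_rhs => rw [← this]
  rw [smul_smul, smul_smul, mul_assoc, ← pow_add, add_comm j, ← mul_pow, borel_det, one_pow,
    pow_zero]

variable (k n) in
/-- The first column of the universal point. -/
noncomputable def colF (i : Fin 2) : RF k n := iF k n ((hC k).1 i 0)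

lemma colF_reg (i : Fin 2) : colF k n i ∈ nonZeroDivisors (RF k n) :=
  mem_nonZeroDivisors_iff_left.2 fun y h =>
    Module.Flat.isSMulRegular_of_nonZeroDivisors (M := RF k n) (hC_reg k i)
      ((Algebra.smul_def _ y).trans (h.trans (smul_zero _).symm))

lemma C_reg {A : Type*} [CommRing A] {a : A} (h : a ∈ nonZeroDivisors A) :
    C a ∈ nonZeroDivisors A[X] := mem_nonzeroDivisors_of_coeff_mem 0 (by simpa using h)

lemma X_reg {A : Type*} [CommRing A] : X ∈ nonZeroDivisors A[X] := monic_X.mem_nonZeroDivisors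

variable (k n) in
/-- The element `s u`. -/
noncomputable def fS : RS k n := jj k n (colF k n 0) * C X

variable (k n) in
/-- The element `t v`. -/
noncomputable def gS : RS k n := jj k n (colF k n 1) * X

variable (k n) in
/-- The socle element. -/
noncomputable def zS : RS k n := jj k n (xF k n ^ (n + 2)) * C X ^ (n + 1) * X

lemma fS_inv : fS k n ∈ InvS k n := by
  simpa [fS, colF] using mon_inv (n := n) 1 0 (Wt.iF (col_wt (k := k) 0))

lemma gS_inv : gS k n ∈ InvS k n := by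
  simpa [gS, colF] using mon_inv (n := n) 0 1 (Wt.iF (col_wt (k := k) 1))

lemma zS_inv : zS k n ∈ InvS k n := by
  simpa [zS] using mon_inv (k := k) (n + 1) 1 (Wt.pow x_wt (n + 2))

lemma gS_reg : gS k n ∈ nonZeroDivisors (RS k n) := mul_mem (C_reg (C_reg (colF_reg 1))) X_reg

lemma kos {a b : RS k n} (h : fS k n * a = gS k n * b) : ∃ r, a = gS k n * r := by
  have hd := congrArg ((jj k n).comp (iF k n)) ((Matrix.det_fin_two _).symm.trans (hC k).2)
  simp only [map_sub, map_mul, map_one, AlgHom.comp_apply] at hd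
  obtain ⟨w, hw⟩ : ∃ w, C X * a = C (C (colF k n 1)) * w :=
    ⟨X * b * jj k n (iF k n ((hC k).1 1 1)) - jj k n (iF k n ((hC k).1 0 1)) * C X * a, by
      simp only [fS, gS, colF, ← jj_apply] at h ⊢
      linear_combination jj k n (iF k n ((hC k).1 1 1)) * h - C X * a * hd⟩
  obtain ⟨a', rfl⟩ : C (C (colF k n 1)) ∣ a := by
    refine (C_dvd_iff_dvd_coeff _ _).2 fun j => (C_dvd_iff_dvd_coeff _ _).2 fun i => ?_
    have := congrArg (fun p : RS k n => (p.coeff j).coeff (i + 1)) hw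
    simp only [coeff_C_mul, coeff_X_mul] at this
    exact ⟨_, this⟩
  have h1 : C (C (colF k n 0) * X) * a' - X * b = 0 :=
    (C_reg (C_reg (colF_reg 1))).1 _ (by
      simp only [fS, gS, jj_apply, map_mul] at h ⊢
      linear_combination h)
  have h2 := congrArg (coeff · 0) h1
  simp only [coeff_sub, coeff_C_mul, coeff_X_mul_zero, sub_zero, coeff_zero] at h2
  obtain ⟨r, rfl⟩ := X_dvd_iff.2 ((mul_mem (C_reg (colF_reg 0)) X_reg).1 _ h2)
  exact ⟨r, by rw [gS, jj_apply, mul_assoc]⟩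

variable [Infinite k]

lemma socle {r : RS k n} (h : r ∈ InvS k n) (h0 : (r.coeff 0).coeff 0 = 0) :
    r * zS k n ∈ (InvS k n).map (LinearMap.mulRight k (fS k n)) ⊔
      (InvS k n).map (LinearMap.mulRight k (gS k n)) := by
  rw [r.as_sum_support_C_mul_X_pow, Finset.sum_mul]
  refine sum_mem fun j _ => ?_
  rw [(r.coeff j).as_sum_support_C_mul_X_pow, map_sum, Finset.sum_mul, Finset.sum_mul]
  refine sum_mem fun i _ => ?_
  have hw := coeff_wt h i j
  rcases hij : i + j with _ | m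
  · obtain ⟨rfl, rfl⟩ : i = 0 ∧ j = 0 := by omega
    simp [h0]
  rw [hij] at hw
  obtain ⟨α, hα, β, hβ, e⟩ := wtF_succ hw
  refine Submodule.mem_sup.2 ⟨_, ⟨_, mon_inv (i + n) (j + 1) (Wt.cancel 0 hα rfl (by omega)), rfl⟩,
    _, ⟨_, mon_inv (i + n + 1) j (Wt.cancel 0 hβ rfl (by omega)), rfl⟩, ?_⟩
  have := congrArg (jj k n) e
  simp only [map_mul, map_add, map_pow, LinearMap.mulRight_apply, fS, gS, zS, colF,
    ← jj_apply] at this ⊢
  linear_combination -(C X ^ (i + n + 1) * X ^ (j + 1)) * this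

lemma not_mem {σ a b : RS k n} (hσ : σ ∈ InvS k n) (ha : a ∈ InvS k n) (hb : b ∈ InvS k n)
    (e : σ * zS k n = a * fS k n + b * gS k n) : (σ.coeff 0).coeff 0 = 0 := by
  obtain ⟨c, hc⟩ := wtF_zero (coeff_wt hσ 0 0)
  have := congrArg (fun p : RS k n => (p.coeff (0 + 1)).coeff (n + 1)) e
  simp only [zS, fS, gS, jj_apply, ← mul_assoc, ← C_pow, coeff_add, coeff_mul_X, coeff_mul_C,
    coeff_mul_X_pow', le_refl, if_true, Nat.sub_self, hc] at this
  rw [hc, wtF_not (c := c) (coeff_wt ha n (0 + 1)) (coeff_wt hb (n + 1) 0) (by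
    rw [Algebra.smul_def, this, mul_comm, mul_comm (iF k n ((hC k).1 1 0))]; rfl), map_zero]

section pts

variable {A A' : Type*} [CommRing A] [Algebra k A] [CommRing A'] [Algebra k A']
  (ε : RF k n →ₐ[k] k)

/-- A point over a rational point of the cyclic cover. -/
noncomputable def pt (u v : A) : RS k n →ₐ[k] A :=
  aevalTower (aevalTower ((Algebra.ofId k A).comp ε) u) v

omit [Infinite k] in
lemma pt_map (ψ : A →ₐ[k] A') (u v : A) (r : RS k n) : ψ (pt ε u v r) = pt ε (ψ u) (ψ v) r :=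
  DFunLike.congr_fun (algHom_ext' (f := ψ.comp (pt ε u v)) (g := pt ε (ψ u) (ψ v))
    (algHom_ext' (AlgHom.ext fun a => by simp [pt]) (by simp [pt])) (by simp [pt])) r

omit [Infinite k] in
lemma pt_zero (r : RS k n) : pt ε (0 : k) 0 r = ε ((r.coeff 0).coeff 0) :=
  (eval₂_at_zero _).trans (eval₂_at_zero _)

/-- Morphisms killed by a point. -/
def kerI (π : RS k n →ₐ[k] A) : Ideal (invMor (rhoS k n)) where
  carrier := {φ | ∀ g, π (φ.1 g) = 0}
  add_mem' := fun h h' g => by simp [h g, h' g]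
  zero_mem' := fun g => by simp
  smul_mem' := fun c φ h g => by simp [h g]

instance [IsDomain A] (π : RS k n →ₐ[k] A) : (kerI π).IsPrime :=
  ⟨(Ideal.ne_top_iff_one _).2 fun h => by simpa using h 1,
    fun {φ ψ} h => morph_prime π φ.2.1 ψ.2.1 h⟩

end pts

/-- Constant morphisms. -/
noncomputable def cstI (r : RS k n) (h : r ∈ InvS k n) : invMor (rhoS k n) :=
  ⟨fun _ => r, (morphisms k (RS k n) fun g => g).algebraMap_mem r, fun _ b => h b⟩

theorem invMor_not_isCM (ζ : k) (hζ : ζ ^ (n + 3) = -1) :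
    ¬ IsCohenMacaulay (invMor (rhoS k n)) := by
  let ε : RF k n →ₐ[k] k := liftF 1 ζ (by simp [hζ])
  have e0 : ε (colF k n 0) = 1 := by simp [ε, colF, liftF_i, liftC_h]
  have e1 : ε (colF k n 1) = 0 := by simp [ε, colF, liftF_i, liftC_h]
  refine not_isCM3 (kerI (pt ε (C X : k[X][X]) X)) (kerI (pt ε (X : k[X]) 0))
    (kerI (pt ε (0 : k) 0)) (f := cstI _ fS_inv) (g := cstI _ gS_inv) (z := cstI _ zS_inv)
    (lt_of_le_of_ne (fun φ h g => ?_) fun h => ?_) (lt_of_le_of_ne (fun φ h g => ?_) fun h => ?_)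
    (fun g => by simp [cstI, gS, pt, jj_apply, e1])
    (reg_pair (fun y h => ?_) fun a b h => ?_) (fun u hu => ?_) fun σ hσ a b h => ?_
  · simpa [h g] using (pt_map ε (aevalTower (AlgHom.id k k[X]) 0) (C X) X (φ.1 g)).symm
  · have : cstI _ (mon_inv 0 1 (Wt.iF (col_wt 0))) ∈ kerI (pt ε (X : k[X]) 0) := fun g => by
      simp [cstI, pt]
    rw [← h] at this
    simpa [cstI, pt, jj_apply, show ε (iF k n _) = 1 from e0] using this 1
  · simpa [h g] using (pt_map ε (aeval (0 : k)) X 0 (φ.1 g)).symm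
  · have : cstI _ fS_inv ∈ kerI (pt ε (0 : k) 0) := fun g => by simp [cstI, fS, pt]
    rw [← h] at this
    simpa [cstI, fS, pt, jj_apply, e0] using this 1
  · exact Subtype.ext (funext fun g => gS_reg.1 _ (congrFun (congrArg Subtype.val h) g))
  · obtain ⟨Γ, hΓ⟩ := gen_inv (LinearMap.mulLeft k (gS k n))
    have h1 : ∀ g, a.1 g = gS k n * Γ (a.1 g) := fun g => by
      obtain ⟨r, hr⟩ := kos (congrFun (congrArg Subtype.val h) g)
      exact hr.trans ((hΓ r).symm.trans (congrArg (gS k n * Γ ·) hr.symm))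
    refine ⟨⟨fun g => Γ (a.1 g), comp_linear_mem _ _ a.2.1 Γ, fun g b => ?_⟩,
      Subtype.ext (funext h1)⟩
    have h2 : act b (a.1 g) = a.1 g := a.2.2 g b
    rw [h1 g, map_mul, gS_inv b, ← sub_eq_zero, ← mul_sub] at h2
    exact sub_eq_zero.1 (gS_reg.1 _ h2)
  · obtain ⟨L, L', h1, h2, h3⟩ := lin_sel (InvS k n) (LinearMap.mulRight k (fS k n))
      (LinearMap.mulRight k (gS k n)) (LinearMap.mulRight k (zS k n))
    refine ⟨⟨fun g => L (u.1 g), comp_linear_mem _ _ u.2.1 L, fun g => h1 _⟩,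
      ⟨fun g => L' (u.1 g), comp_linear_mem _ _ u.2.1 L', fun g => h2 _⟩,
      Subtype.ext (funext fun g => h3 (u.1 g) (socle (u.2.2 g) ?_))⟩
    obtain ⟨c, hc⟩ := wtF_zero (coeff_wt (u.2.2 g) 0 0)
    have h0 := hu g
    rw [pt_zero, hc, AlgHom.commutes] at h0
    rw [hc, show c = 0 from h0, map_zero]
  · refine hσ fun g => ?_
    rw [pt_zero, not_mem (σ.2.2 g) (a.2.2 g) (b.2.2 g) (congrFun (congrArg Subtype.val h) g),
      map_zero]

theorem induced_rhoS (ζ : k) (hζ : ζ ^ (n + 3) = -1) : ¬ IsCohenMacaulay (induced (rhoS k n)) :=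
  fun h => invMor_not_isCM ζ hζ (h.of_equiv (tensorId _ (hS k n) hS_equiv))

end Pool.Agent.P.MP_271f8e_al
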