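import Pool.Agent.P.MP_271f8e_al.SmSL

/-! The coordinate ring of `SL_2` and its cyclic cover branched along a Fermat equation. -/

namespace Pool.Agent.P.MP_271f8e_al

open Polynomial

universe u

section CG

variable (k : Type u) [Field k]

/-- The equation of `s` over the polynomial ring in `d - s`, `t`, `c`. -/
noncomputable def q1 : (MvPolynomial (Fin 3) k)[X] :=
  X ^ 2 + (C (MvPolynomial.X 0) * X - C (MvPolynomial.X 1 * MvPolynomial.X 2 + 1))

lemma q1_monic : (q1 k).Monic := by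
  unfold q1; monicity!

/-- The coordinate ring of `SL_2`. -/
def CG : Type u := AdjoinRoot (q1 k)

noncomputable instance : CommRing (CG k) := inferInstanceAs (CommRing (AdjoinRoot (q1 k)))
noncomputable instance : Algebra k (CG k) := inferInstanceAs (Algebra k (AdjoinRoot (q1 k)))
instance : Algebra.FiniteType k (CG k) :=
  inferInstanceAs (Algebra.FiniteType k (AdjoinRoot (q1 k)))

/-- The first coordinate. -/
noncomputable def sC : CG k := AdjoinRoot.root (q1 k)

/-- The polynomial subring. -/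
noncomputable def oC : MvPolynomial (Fin 3) k →ₐ[k] CG k := AdjoinRoot.ofAlgHom k (q1 k)

lemma q1_eval {A : Type*} [CommRing A] (i : MvPolynomial (Fin 3) k →+* A) (x : A) :
    (q1 k).eval₂ i x = x * (x + i (MvPolynomial.X 0)) -
      i (MvPolynomial.X 1 * MvPolynomial.X 2 + 1) := by
  simp only [q1, eval₂_add, eval₂_sub, eval₂_mul, eval₂_X_pow, eval₂_C, eval₂_X]
  ring

lemma q1_root : sC k * (sC k + oC k (MvPolynomial.X 0)) =
    oC k (MvPolynomial.X 1 * MvPolynomial.X 2 + 1) :=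
  sub_eq_zero.1 ((q1_eval k _ _).symm.trans (AdjoinRoot.eval₂_root (q1 k)))

/-- The universal point. -/
noncomputable def hC : SL2 (CG k) :=
  ⟨!![sC k, oC k (MvPolynomial.X 2); oC k (MvPolynomial.X 1), sC k + oC k (MvPolynomial.X 0)], by
    have := q1_root k
    simp only [map_add, map_mul, map_one] at this
    rw [Matrix.det_fin_two_of]
    linear_combination this⟩

lemma CG_cm : IsCohenMacaulay (CG k) := by
  have := (q1_monic k).free_adjoinRoot
  have := (q1_monic k).finite_adjoinRoot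
  exact ((isCM_field k).mvPoly 3).of_flat (B := AdjoinRoot (q1 k))

lemma of_reg {p : MvPolynomial (Fin 3) k} (hp : p ≠ 0) : oC k p ∈ nonZeroDivisors (CG k) := by
  have := (q1_monic k).free_adjoinRoot
  exact mem_nonZeroDivisors_iff_left.2 fun y h => (smul_eq_zero.1
    ((Algebra.smul_def (A := AdjoinRoot (q1 k)) p y).trans h)).resolve_left hp

lemma hC_reg (i : Fin 2) : (hC k).1 i 0 ∈ nonZeroDivisors (CG k) := by
  fin_cases i
  · have := of_reg k (p := MvPolynomial.X 1 * MvPolynomial.X 2 + 1) fun h => by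
      simpa using congrArg MvPolynomial.constantCoeff h
    rw [← q1_root] at this
    exact (mul_mem_nonZeroDivisors.1 this).1
  · exact of_reg k (MvPolynomial.X_ne_zero 1)

variable {k} {A : Type*} [CommRing A] [Algebra k A]

/-- The algebra map of a point of `SL_2`. -/
noncomputable def liftC (γ : SL2 A) : CG k →ₐ[k] A :=
  AdjoinRoot.liftAlgHom (q1 k) (MvPolynomial.aeval ![γ.1 1 1 - γ.1 0 0, γ.1 1 0, γ.1 0 1])
    (γ.1 0 0) (by
      have := γ.2
      rw [Matrix.det_fin_two] at this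
      rw [q1_eval]
      simp
      linear_combination this)

lemma liftC_h (γ : SL2 A) (i j : Fin 2) : liftC γ ((hC k).1 i j) = γ.1 i j := by
  have h0 : liftC γ (sC k) = γ.1 0 0 :=
    AdjoinRoot.liftAlgHom_root _ _ _ _
  have h1 : ∀ p, liftC γ (oC k p) =
      MvPolynomial.aeval ![γ.1 1 1 - γ.1 0 0, γ.1 1 0, γ.1 0 1] p :=
    AdjoinRoot.liftAlgHom_of _ _ _ _
  fin_cases i <;> fin_cases j
  · exact h0
  · exact (h1 _).trans (by simp)
  · exact (h1 _).trans (by simp)
  · exact (map_add _ (sC k) (oC k (MvPolynomial.X 0))).trans (by rw [h0, h1]; simp)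

lemma extC {f g : CG k →ₐ[k] A} (h : ∀ i j, f ((hC k).1 i j) = g ((hC k).1 i j)) : f = g := by
  refine AdjoinRoot.algHom_ext' (p := q1 k) (MvPolynomial.algHom_ext fun i => ?_) (h 0 0)
  fin_cases i
  · have h0 : f (sC k) = g (sC k) := h 0 0
    have h1 : f (sC k + oC k (MvPolynomial.X 0)) = g (sC k + oC k (MvPolynomial.X 0)) := h 1 1
    rw [map_add, map_add, h0] at h1
    exact add_left_cancel h1
  · exact h 1 0
  · exact h 0 1

/-- An element of the coordinate ring that vanishes at all rational points is zero. -/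
lemma CG_zero [Infinite k] {φ : CG k} (h : ∀ g : SL2 k, liftC g φ = 0) : φ = 0 := by
  let θ : MvPolynomial (Fin 2 × Fin 2) k →ₐ[k] CG k :=
    MvPolynomial.aeval fun ij => (hC k).1 ij.1 ij.2
  obtain ⟨P, rfl⟩ : ∃ P, θ P = φ := by
    let γ : SL2 θ.range := ⟨Matrix.of fun i j => ⟨(hC k).1 i j, MvPolynomial.X (i, j), by
      simp [θ]⟩, Subtype.ext (by
        simpa [Matrix.det_fin_two] using (Matrix.det_fin_two _).symm.trans (hC k).2)⟩
    have : θ.range.val.comp (liftC γ) = AlgHom.id k _ := extC fun i j => by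
      rw [AlgHom.comp_apply, liftC_h]; rfl
    obtain ⟨P, hP⟩ := (liftC γ φ).2
    exact ⟨P, hP.trans (DFunLike.congr_fun this φ)⟩
  have e : θ P = av (hC k).1 (MvPolynomial.map (algebraMap k _) P) :=
    (MvPolynomial.eval_map _ _ _).symm
  rw [e]
  refine dense (k := k) (fun g => ?_) _ (hC k).2
  have := h g
  rw [e] at this
  refine Eq.trans ?_ ((av_map (liftC g).toRingHom (hC k).1 _).symm.trans this)
  rw [map_map_id (by simp)]
  congr 2
  ext i j
  simp [up, liftC_h]

end CG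

section RR

variable (k : Type u) [Field k] (n : ℕ)

/-- The Fermat equation. -/
noncomputable def q2 : (CG k)[X] :=
  X ^ (n + 3) + C ((hC k).1 0 0 ^ (n + 3) + (hC k).1 1 0 ^ (n + 3))

lemma q2_monic : (q2 k n).Monic := monic_X_pow_add_C _ (by omega)

lemma q2_eval {A : Type*} [CommRing A] (i : CG k →+* A) (x : A) : (q2 k n).eval₂ i x =
    x ^ (n + 3) + (i ((hC k).1 0 0) ^ (n + 3) + i ((hC k).1 1 0) ^ (n + 3)) := by
  rw [q2, eval₂_add, eval₂_X_pow, eval₂_C, map_add, map_pow, map_pow]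

/-- The cyclic cover of `SL_2`. -/
def RF : Type u := AdjoinRoot (q2 k n)

noncomputable instance : CommRing (RF k n) := inferInstanceAs (CommRing (AdjoinRoot (q2 k n)))
noncomputable instance : Algebra k (RF k n) := inferInstanceAs (Algebra k (AdjoinRoot (q2 k n)))
noncomputable instance : Algebra (CG k) (RF k n) :=
  inferInstanceAs (Algebra (CG k) (AdjoinRoot (q2 k n)))
instance : IsScalarTower k (CG k) (RF k n) :=
  inferInstanceAs (IsScalarTower k (CG k) (AdjoinRoot (q2 k n)))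
instance : Algebra.FiniteType k (RF k n) :=
  inferInstanceAs (Algebra.FiniteType k (AdjoinRoot (q2 k n)))
instance : Module.Free (CG k) (RF k n) := (q2_monic k n).free_adjoinRoot
instance : Module.Finite (CG k) (RF k n) := (q2_monic k n).finite_adjoinRoot

/-- The new coordinate. -/
noncomputable def xF : RF k n := AdjoinRoot.root (q2 k n)

/-- The inclusion of the coordinate ring of `SL_2`. -/
noncomputable def iF : CG k →ₐ[k] RF k n := IsScalarTower.toAlgHom k _ _

lemma xF_eq : xF k n ^ (n + 3) +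
    (iF k n ((hC k).1 0 0) ^ (n + 3) + iF k n ((hC k).1 1 0) ^ (n + 3)) = 0 := by
  exact (q2_eval k n _ _).symm.trans (AdjoinRoot.eval₂_root (q2 k n))

lemma exists_basis [Nontrivial (CG k)] :
    ∃ B : Module.Basis (Fin (n + 3)) (CG k) (RF k n), ∀ i, B i = xF k n ^ (i : ℕ) := by
  have hd : (AdjoinRoot.powerBasis' (q2_monic k n)).dim = n + 3 := natDegree_X_pow_add_C
  exact ⟨(AdjoinRoot.powerBasis' (q2_monic k n)).basis.reindex (finCongr hd), fun i =>
    (Module.Basis.reindex_apply (AdjoinRoot.powerBasis' (q2_monic k n)).basis _ _).trans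
      (PowerBasis.basis_eq_pow _ _)⟩

variable {k n} {A : Type*} [CommRing A] [Algebra k A]

/-- The algebra map of a point of the cyclic cover. -/
noncomputable def liftF (γ : SL2 A) (x : A)
    (hx : x ^ (n + 3) + (γ.1 0 0 ^ (n + 3) + γ.1 1 0 ^ (n + 3)) = 0) : RF k n →ₐ[k] A :=
  AdjoinRoot.liftAlgHom (q2 k n) (liftC γ) x (by
    rw [q2_eval]
    simp only [RingHom.coe_coe, liftC_h, hx])

lemma liftF_x (γ : SL2 A) (x : A) (hx) : liftF γ x hx (xF k n) = x :=
  AdjoinRoot.liftAlgHom_root _ _ _ _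

lemma liftF_i (γ : SL2 A) (x : A) (hx) (φ : CG k) : liftF γ x hx (iF k n φ) = liftC γ φ :=
  AdjoinRoot.liftAlgHom_of _ _ _ _ _

lemma extF {f g : RF k n →ₐ[k] A}
    (h : ∀ i j, f (iF k n ((hC k).1 i j)) = g (iF k n ((hC k).1 i j)))
    (hx : f (xF k n) = g (xF k n)) : f = g :=
  AdjoinRoot.algHom_ext' (p := q2 k n) (extC h) hx

lemma RF_smooth (hn : ((n + 3 : ℕ) : k) ≠ 0) : Algebra.FormallySmooth k (RF k n) := by
  refine Algebra.FormallySmooth.of_comp_surjective fun Q _ _ I hI φ => ?_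
  have sq : ∀ {a b : Q}, a ∈ I → b ∈ I → a * b = 0 := fun ha hb => by
    have := Ideal.mul_mem_mul ha hb
    rwa [← pow_two, hI] at this
  have hz : ∀ {a : Q}, Ideal.Quotient.mk I a = 0 ↔ a ∈ I := Ideal.Quotient.eq_zero_iff_mem
  have hd := congrArg (φ.comp (iF k n)) ((Matrix.det_fin_two _).symm.trans (hC k).2)
  have hf := congrArg φ (xF_eq k n)
  simp only [map_sub, map_mul, map_one, map_add, map_pow, map_zero, AlgHom.comp_apply] at hd hf
  obtain ⟨s, hs⟩ := Ideal.Quotient.mk_surjective (φ (iF k n ((hC k).1 0 0)))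
  obtain ⟨c, hc⟩ := Ideal.Quotient.mk_surjective (φ (iF k n ((hC k).1 0 1)))
  obtain ⟨t, ht⟩ := Ideal.Quotient.mk_surjective (φ (iF k n ((hC k).1 1 0)))
  obtain ⟨d, hd'⟩ := Ideal.Quotient.mk_surjective (φ (iF k n ((hC k).1 1 1)))
  obtain ⟨x, hx⟩ := Ideal.Quotient.mk_surjective (φ (xF k n))
  rw [← hs, ← hc, ← ht, ← hd'] at hd
  rw [← hs, ← ht, ← hx] at hf
  obtain ⟨p', q', hpq⟩ := IsCoprime.pow (m := n + 2) (n := n + 2)
    (show IsCoprime (Ideal.Quotient.mk I s) (Ideal.Quotient.mk I t) from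
      ⟨Ideal.Quotient.mk I d, -Ideal.Quotient.mk I c, by linear_combination hd⟩)
  obtain ⟨p, rfl⟩ := Ideal.Quotient.mk_surjective p'
  obtain ⟨q, rfl⟩ := Ideal.Quotient.mk_surjective q'
  obtain ⟨μ, hμ⟩ : ∃ μ : Q, μ * ((n + 3 : ℕ) : Q) = 1 :=
    ⟨algebraMap k Q ((n + 3 : ℕ) : k)⁻¹, by
      rw [← map_natCast (algebraMap k Q), ← map_mul, inv_mul_cancel₀ hn, map_one]⟩
  obtain ⟨ε, hε⟩ : ∃ ε, ε = x ^ (n + 3) + (s ^ (n + 3) + t ^ (n + 3)) := ⟨_, rfl⟩
  have h1 : ε ∈ I := hz.1 (by simpa [hε] using hf)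
  have h2 : p * s ^ (n + 2) + q * t ^ (n + 2) - 1 ∈ I := hz.1 (by simpa [sub_eq_zero] using hpq)
  have h3 := hz.2 h1
  obtain ⟨ι, hι⟩ : ∃ ι, ι = (s + -(ε * μ * p)) * d - c * (t + -(ε * μ * q)) - 1 := ⟨_, rfl⟩
  have h4 : ι ∈ I := hz.1 (by simpa [hι, h3, sub_eq_zero] using hd)
  have h5 := hz.2 h4
  obtain ⟨a, ha⟩ := powAddExpansion s (-(ε * μ * p)) (n + 3)
  obtain ⟨b, hb⟩ := powAddExpansion t (-(ε * μ * q)) (n + 3)
  refine ⟨liftF ⟨!![s + -(ε * μ * p), c * (1 - ι); t + -(ε * μ * q), d * (1 - ι)], by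
    rw [Matrix.det_fin_two_of]
    linear_combination -sq h4 h4 - (1 - ι) * hι⟩ x (by
      change _ + ((s + -(ε * μ * p)) ^ (n + 3) + (t + -(ε * μ * q)) ^ (n + 3)) = 0
      rw [ha, hb, show n + 3 - 1 = n + 2 from rfl]
      linear_combination -hε - sq h1 h2 + (a * μ ^ 2 * p ^ 2 + b * μ ^ 2 * q ^ 2) * sq h1 h1 -
        ε * (p * s ^ (n + 2) + q * t ^ (n + 2)) * hμ), extF (fun i j => ?_) ?_⟩
  · rw [AlgHom.comp_apply, liftF_i, liftC_h]
    fin_cases i <;> fin_cases j <;> simp [← hs, ← hc, ← ht, ← hd', h3, h5]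
  · rw [AlgHom.comp_apply, liftF_x, ← hx]; rfl

end RR

end Pool.Agent.P.MP_271f8e_al
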