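import Pool.Agent.P.MP_271f8e_al.SmCM

/-! Density of the rational points of `SL_2`, and the tensor identity. -/

namespace Pool.Agent.P.MP_271f8e_al

open MvPolynomial

/-- Two by two matrices. -/
abbrev M2 (A : Type*) := Matrix (Fin 2) (Fin 2) A

/-- The special linear group. -/
abbrev SL2 (A : Type*) [CommRing A] := Matrix.SpecialLinearGroup (Fin 2) A

variable {k : Type*} [Field k] {R A : Type*} [CommRing R] [CommRing A]

/-- The value of a polynomial in the four entries at a matrix. -/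
noncomputable def av (γ : M2 R) : MvPolynomial (Fin 2 × Fin 2) R →+* R :=
  eval fun ij => γ ij.1 ij.2

lemma av_map (φ : R →+* A) (γ : M2 R) (P : MvPolynomial (Fin 2 × Fin 2) R) :
    φ (av γ P) = av (γ.map φ) (map φ P) :=
  DFunLike.congr_fun (ringHom_ext (f := φ.comp (av γ)) (g := (av (γ.map φ)).comp (map φ))
    (by simp [av]) (by simp [av])) P

lemma map_map_id {φ : R →+* A} {ψ : A →+* R} (h : ∀ r, ψ (φ r) = r)
    (P : MvPolynomial (Fin 2 × Fin 2) R) : map ψ (map φ P) = P := by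
  rw [map_map, show ψ.comp φ = RingHom.id R from RingHom.ext h, map_id]

/-- A product of four elementary matrices. -/
def E4 (y : Fin 4 → A) : M2 A :=
  !![1 + y 1 * y 2, y 1 + y 3 * (1 + y 1 * y 2);
    y 0 + y 2 + y 0 * y 1 * y 2, 1 + y 0 * y 1 + y 3 * (y 0 + y 2 + y 0 * y 1 * y 2)]

lemma E4_det (y : Fin 4 → A) : (E4 y).det = 1 := by
  simp only [E4, Matrix.det_fin_two_of]; ring

lemma E4_map (φ : R →+* A) (y : Fin 4 → R) : (E4 y).map φ = E4 fun i => φ (y i) := by
  ext i j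
  fin_cases i <;> fin_cases j <;> simp [E4]

lemma E4_surj [IsLocalRing A] (γ : M2 A) (h : γ.det = 1) : ∃ y, γ = E4 y := by
  rw [Matrix.det_fin_two] at h
  obtain ⟨d, b, hb⟩ : ∃ d b, (γ 0 1 - d * γ 0 0) * b = 1 := by
    by_cases h1 : IsUnit (γ 0 1)
    · obtain ⟨b, hb⟩ := h1.exists_right_inv
      exact ⟨0, b, by simpa using hb⟩
    · have h0 : IsUnit (γ 0 0) := by
        have := IsLocalRing.isUnit_or_isUnit_of_add_one (a := γ 0 0 * γ 1 1)
          (b := γ 0 1 * -γ 1 0) (by linear_combination h)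
        exact this.elim isUnit_of_mul_isUnit_left fun h => (h1 (isUnit_of_mul_isUnit_left h)).elim
      have := IsLocalRing.isUnit_or_isUnit_of_isUnit_add (a := γ 0 1) (b := γ 0 0 - γ 0 1)
        (by simpa using h0)
      obtain ⟨b, hb⟩ := (this.resolve_left h1).exists_right_inv
      exact ⟨1, -b, by linear_combination hb⟩
  refine ⟨![(γ 1 1 - d * γ 1 0 - 1) * b, γ 0 1 - d * γ 0 0, (γ 0 0 - 1) * b, d], ?_⟩
  have h2 : γ 1 0 = (γ 1 1 - d * γ 1 0 - 1) * b + (γ 0 0 - 1) * b +
      (γ 1 1 - d * γ 1 0 - 1) * b * (γ 0 1 - d * γ 0 0) * ((γ 0 0 - 1) * b) := by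
    linear_combination -b * h - (γ 1 0 + (γ 1 1 - d * γ 1 0 - 1) * b * (γ 0 0 - 1)) * hb
  ext i j
  fin_cases i <;> fin_cases j <;> simp [E4]
  · linear_combination -(γ 0 0 - 1) * hb
  · linear_combination -d * (γ 0 0 - 1) * hb
  · exact h2
  · linear_combination d * h2 - (γ 1 1 - d * γ 1 0 - 1) * hb

variable [Algebra k R]

/-- A rational point as a matrix over `R`. -/
noncomputable def up (R : Type*) [CommRing R] [Algebra k R] (g : SL2 k) : M2 R :=
  g.1.map (algebraMap k R)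

lemma up_mul (g g' : SL2 k) : up R (g * g') = up R g * up R g' := by
  simp [up, Matrix.map_mul]

lemma up_det (g : SL2 k) : (up R g).det = 1 := by
  rw [up, ← RingHom.mapMatrix_apply, ← RingHom.map_det, g.2, map_one]

lemma up_map [Algebra k A] (φ : R →ₐ[k] A) (g : SL2 k) : (up R g).map (φ : R →+* A) = up A g := by
  ext i j
  simp [up]

lemma mem_morph {f : SL2 k → R} :
    f ∈ morphisms k R (fun g => g) ↔ ∃ P, ∀ g, f g = av (up R g) P := by
  rw [morphisms, Algebra.adjoin_range_eq_range_aeval, AlgHom.mem_range]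
  refine exists_congr fun P => ?_
  rw [eq_comm, funext_iff]
  refine forall_congr' fun g => Eq.congr_right ?_
  induction P using MvPolynomial.induction_on with
  | C a => simp [av]
  | add p q hp hq => simp only [map_add, Pi.add_apply, hp, hq]
  | mul_X p i hp => simp only [map_mul, Pi.mul_apply, hp]; simp [av, up]

/-- Right translation of a polynomial. -/
noncomputable def sub (N : M2 R) (P : MvPolynomial (Fin 2 × Fin 2) R) :
    MvPolynomial (Fin 2 × Fin 2) R := av (Matrix.of (fun i j => X (i, j)) * N.map C) (map C P)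

omit [Algebra k R] in
lemma av_sub (γ N : M2 R) (P : MvPolynomial (Fin 2 × Fin 2) R) :
    av γ (sub N P) = av (γ * N) P := by
  rw [sub, av_map, map_map_id (by simp [av]), Matrix.map_mul]
  congr 3 <;> ext i j <;> simp [av]

variable [Infinite k]

lemma mv_zero {σ : Type*} (Q : MvPolynomial σ R)
    (h : ∀ y : σ → k, eval (fun i => algebraMap k R (y i)) Q = 0) : Q = 0 := by
  ext d
  refine (Module.forall_dual_apply_eq_zero_iff k _).1 fun l => ?_
  have : ∑ e ∈ Q.support, monomial e (l (coeff e Q)) = (0 : MvPolynomial σ k) := by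
    refine MvPolynomial.funext fun y => ?_
    have := congrArg l (h y)
    rw [eval_eq, map_sum] at this
    simp only [map_sum, eval_monomial, map_zero] at this ⊢
    rw [← this]
    refine Finset.sum_congr rfl fun e _ => ?_
    simp only [← map_pow, ← map_prod]
    rw [mul_comm (coeff e Q), ← Algebra.smul_def, map_smul, smul_eq_mul, mul_comm]
    rfl
  have h2 := congrArg (coeff d) this
  classical
  simp only [coeff_sum, coeff_monomial, Finset.sum_ite_eq', coeff_zero] at h2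
  split_ifs at h2 with hd
  · exact h2
  · rw [notMem_support_iff.1 hd, map_zero]

lemma gen_zero {P : MvPolynomial (Fin 2 × Fin 2) R} :
    (∀ g : SL2 k, av (up R g) P = 0) ↔ av (E4 (X : Fin 4 → MvPolynomial (Fin 4) R)) (map C P) = 0 := by
  have e : ∀ y : Fin 4 → k, eval (fun i => algebraMap k R (y i)) (av (E4 X) (map C P)) =
      av (up R ⟨E4 y, E4_det y⟩) P := fun y => by
    rw [av_map, map_map_id (by simp), E4_map, up, E4_map]
    simp
  refine ⟨fun h => mv_zero (k := k) _ fun y => (e y).trans (h _), fun h ⟨g, hg⟩ => ?_⟩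
  obtain ⟨y, rfl⟩ := E4_surj g hg
  rw [← e, h, map_zero]

/-- A polynomial that vanishes on `SL_2(k)` vanishes on `SL_2` of every ring. -/
lemma dense {P : MvPolynomial (Fin 2 × Fin 2) R} (h : ∀ g : SL2 k, av (up R g) P = 0)
    (φ : R →+* A) {γ : M2 A} (hγ : γ.det = 1) : av γ (map φ P) = 0 := by
  refine eq_zero_of_localization _ fun J _ => ?_
  obtain ⟨r, hr⟩ := E4_surj (γ.map (algebraMap A (Localization.AtPrime J))) (by
    rw [← RingHom.mapMatrix_apply, ← RingHom.map_det, hγ, map_one])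
  have := congrArg (eval₂Hom ((algebraMap A (Localization.AtPrime J)).comp φ) r) (gen_zero.1 h)
  rw [av_map, map_map, E4_map, map_zero] at this
  rw [av_map, hr, map_map, ← this]
  congr 3
  · ext; simp
  · ext; simp

lemma dense_eq {P Q : MvPolynomial (Fin 2 × Fin 2) R}
    (h : ∀ g : SL2 k, av (up R g) P = av (up R g) Q) {γ : M2 R} (hγ : γ.det = 1) :
    av γ P = av γ Q := by
  have := dense (P := P - Q) (fun g => by rw [map_sub, h, sub_self]) (RingHom.id R) hγ
  rwa [map_id, map_sub, sub_eq_zero] at this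

/-- `SL_2` is irreducible. -/
lemma morph_prime [Algebra k A] [IsDomain A] (π : R →ₐ[k] A) {f f' : SL2 k → R}
    (hf : f ∈ morphisms k R fun g => g) (hf' : f' ∈ morphisms k R fun g => g)
    (h : ∀ g, π (f g * f' g) = 0) : (∀ g, π (f g) = 0) ∨ ∀ g, π (f' g) = 0 := by
  obtain ⟨P, hP⟩ := mem_morph.1 hf
  obtain ⟨Q, hQ⟩ := mem_morph.1 hf'
  have e : ∀ (g : SL2 k) P, π (av (up R g) P) = av (up A g) (map (π : R →+* A) P) := fun g P =>
    (av_map (π : R →+* A) _ P).trans (by rw [up_map])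
  simp only [hP, hQ, ← map_mul, e, gen_zero] at h ⊢
  simpa only [map_mul, mul_eq_zero] using h

open Classical in
/-- Right translation of a morphism by a point over `R`. -/
noncomputable def tau (N : M2 R) (f : SL2 k → R) : SL2 k → R :=
  if h : ∃ P, ∀ g, f g = av (up R g) P then fun g => av (up R g * N) h.choose else 0

lemma tau_eq {N : M2 R} (hN : N.det = 1) {f : SL2 k → R} {P : MvPolynomial (Fin 2 × Fin 2) R}
    (h : ∀ g, f g = av (up R g) P) (g : SL2 k) : tau N f g = av (up R g * N) P := by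
  have h' : ∃ P, ∀ g, f g = av (up R g) P := ⟨P, h⟩
  rw [tau, dif_pos h']
  exact dense_eq (fun g => (h'.choose_spec g).symm.trans (h g))
    (by rw [Matrix.det_mul, up_det, hN, one_mul])

lemma tau_tau (N : SL2 R) {f : SL2 k → R} (hf : f ∈ morphisms k R fun g => g) :
    tau (N⁻¹).1 (tau N.1 f) = f := by
  obtain ⟨P, hP⟩ := mem_morph.1 hf
  funext g
  rw [tau_eq (N⁻¹).2 (fun g => (tau_eq N.2 hP g).trans (av_sub _ _ _).symm), av_sub, mul_assoc,
    ← Matrix.SpecialLinearGroup.coe_mul, inv_mul_cancel, Matrix.SpecialLinearGroup.coe_one,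
    mul_one, hP]

lemma tau_mem (N : SL2 R) {f : SL2 k → R} (hf : f ∈ morphisms k R fun g => g) :
    tau N.1 f ∈ morphisms k R fun g => g := by
  obtain ⟨P, hP⟩ := mem_morph.1 hf
  exact mem_morph.2 ⟨sub N.1 P, fun g => (tau_eq N.2 hP g).trans (av_sub _ _ _).symm⟩

/-- Morphisms with invariant values. -/
def invMor (ρ : borel k →* (R ≃ₐ[k] R)) : Subalgebra k (SL2 k → R) where
  carrier := {f | f ∈ morphisms k R (fun g => g) ∧ ∀ g b, ρ b (f g) = f g}
  mul_mem' := fun hf hg => ⟨mul_mem hf.1 hg.1, fun g b => by simp [hf.2 g b, hg.2 g b]⟩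
  add_mem' := fun hf hg => ⟨add_mem hf.1 hg.1, fun g b => by simp [hf.2 g b, hg.2 g b]⟩
  algebraMap_mem' := fun c =>
    ⟨(morphisms k R (fun g => g)).algebraMap_mem (algebraMap k R c), fun g b => by simp⟩

/-- The tensor identity, for an algebra with an equivariant point of `SL_2`. -/
noncomputable def tensorId (ρ : borel k →* (R ≃ₐ[k] R)) (h : SL2 R)
    (hh : ∀ b, h.1.map ((ρ b : R →ₐ[k] R) : R →+* R) = h.1 * up R b.1) :
    induced ρ ≃+* invMor ρ where
  toFun f := ⟨tau h.1 f.1, tau_mem h f.2.1, fun g b => by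
    obtain ⟨P, hP⟩ := mem_morph.1 f.2.1
    rw [tau_eq h.2 hP]
    refine (av_map ((ρ b : R →ₐ[k] R) : R →+* R) _ P).trans ?_
    rw [Matrix.map_mul, up_map, hh, ← mul_assoc, ← av_sub]
    refine dense_eq (k := k) (fun g => ?_) (by rw [Matrix.det_mul, up_det, h.2, one_mul])
    rw [av_sub, ← up_mul, ← up_map (ρ b : R →ₐ[k] R), ← av_map, ← hP, ← hP, f.2.2, map_inv]
    exact (ρ b).apply_symm_apply _⟩
  invFun f := ⟨tau (h⁻¹).1 f.1, tau_mem h⁻¹ f.2.1, fun g b => by
    obtain ⟨P, hP⟩ := mem_morph.1 f.2.1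
    rw [tau_eq (h⁻¹).2 hP, tau_eq (h⁻¹).2 hP]
    refine Eq.trans ?_ (av_map ((ρ b⁻¹ : R →ₐ[k] R) : R →+* R) _ P).symm
    have e : (h⁻¹).1.map ((ρ b⁻¹ : R →ₐ[k] R) : R →+* R) = up R b.1 * (h⁻¹).1 := by
      refine Matrix.left_inv_eq_left_inv (A := h.1 * up R (b⁻¹).1) ?_ ?_
      · rw [← hh, ← Matrix.map_mul, ← Matrix.SpecialLinearGroup.coe_mul, inv_mul_cancel]
        simp
      · rw [mul_assoc, ← mul_assoc _ h.1, ← Matrix.SpecialLinearGroup.coe_mul, inv_mul_cancel,
          Matrix.SpecialLinearGroup.coe_one, one_mul, ← up_mul]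
        simp [up]
    rw [Matrix.map_mul, up_map, e, ← mul_assoc, ← up_mul]
    refine dense_eq (k := k) (fun g => ?_) (by rw [Matrix.det_mul, up_det, (h⁻¹).2, one_mul])
    rw [← up_map (ρ b⁻¹ : R →ₐ[k] R), ← av_map, up_map, ← hP]
    exact (f.2.2 g b⁻¹).symm⟩
  left_inv f := Subtype.ext (tau_tau h f.2.1)
  right_inv f := Subtype.ext (by simpa using tau_tau h⁻¹ f.2.1)
  map_mul' f f' := Subtype.ext (funext fun g => by
    obtain ⟨P, hP⟩ := mem_morph.1 f.2.1
    obtain ⟨Q, hQ⟩ := mem_morph.1 f'.2.1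
    change tau h.1 (f.1 * f'.1) g = tau h.1 f.1 g * tau h.1 f'.1 g
    rw [tau_eq h.2 hP, tau_eq h.2 hQ, ← map_mul]
    exact tau_eq h.2 (fun g => by rw [map_mul, ← hP, ← hQ, Pi.mul_apply]) g)
  map_add' f f' := Subtype.ext (funext fun g => by
    obtain ⟨P, hP⟩ := mem_morph.1 f.2.1
    obtain ⟨Q, hQ⟩ := mem_morph.1 f'.2.1
    change tau h.1 (f.1 + f'.1) g = tau h.1 f.1 g + tau h.1 f'.1 g
    rw [tau_eq h.2 hP, tau_eq h.2 hQ, ← map_add]
    exact tau_eq h.2 (fun g => by rw [map_add, ← hP, ← hQ, Pi.add_apply]) g)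

end Pool.Agent.P.MP_271f8e_al
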