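import Pool.Agent.P.MP_271f8e_al.Main

namespace Pool.Agent.P.MP_271f8e_al.VariantCounterexample

open Pool.Agent.P.MP_271f8e_al

universe u

theorem result (k : Type u) [Field k] [IsAlgClosed k] :
    ∃ (R : Type u) (_ : CommRing R) (_ : Algebra k R) (ρ : borel k →* (R ≃ₐ[k] R)),
      (∀ r : R, (fun b : borel k => ρ b r) ∈ morphisms k R (fun b : borel k => b.1)) ∧
      IsDomain R ∧ Algebra.FiniteType k R ∧
      IsCohenMacaulay R ∧ ¬ IsCohenMacaulay (induced ρ) :=
  ⟨cusp k, inferInstance, inferInstance, rho, rho_rational, inferInstance, inferInstance,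
    cusp_isCM, induced_not_isCM⟩

end Pool.Agent.P.MP_271f8e_al.VariantCounterexample
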