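import Pool.Agent.P.MP_271f8e_al.SmDom
import Pool.Agent.P.MP_271f8e_al.CtB

namespace Pool.Agent.P.MP_271f8e_al.VariantSmooth

open Pool.Agent.P.MP_271f8e_al

universe u

theorem result (k : Type u) [Field k] [IsAlgClosed k] :
    ∃ (R : Type u) (_ : CommRing R) (_ : Algebra k R) (ρ : borel k →* (R ≃ₐ[k] R)),
      (∀ r : R, (fun b : borel k => ρ b r) ∈ morphisms k R (fun b : borel k => b.1)) ∧
      IsDomain R ∧ Algebra.FiniteType k R ∧ Algebra.Smooth k R ∧
      IsCohenMacaulay R ∧ Algebra.FiniteType k (induced ρ) ∧ ¬ IsCohenMacaulay (induced ρ) := by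
  obtain ⟨n, hn⟩ : ∃ n : ℕ, ((n + 3 : ℕ) : k) ≠ 0 := by
    by_cases h : ((0 + 3 : ℕ) : k) = 0
    · refine ⟨1, fun h' => one_ne_zero (α := k) ?_⟩
      push_cast at h h'
      linear_combination h' - h
    · exact ⟨0, h⟩
  obtain ⟨ζ, hζ⟩ := IsAlgClosed.exists_pow_nat_eq (-1 : k) (n := n + 3) (by omega)
  have := RF_dom hn ζ hζ
  have := RS_smooth hn
  exact ⟨RS k n, inferInstance, inferInstance, rhoS k n, rhoS_rational, inferInstance,
    inferInstance, this, RS_cm, induced_ft, induced_rhoS ζ hζ⟩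

/-- The negated form of the question, without the smoothness and finiteness clauses. -/
theorem negated_form (k : Type u) [Field k] [IsAlgClosed k] :
    ∃ (R : Type u) (_ : CommRing R) (_ : Algebra k R) (ρ : borel k →* (R ≃ₐ[k] R)),
      (∀ r : R, (fun b : borel k => ρ b r) ∈ morphisms k R (fun b : borel k => b.1)) ∧
      IsDomain R ∧ Algebra.FiniteType k R ∧
      IsCohenMacaulay R ∧ ¬ IsCohenMacaulay (induced ρ) := by
  obtain ⟨R, _, _, ρ, h1, h2, h3, -, h4, -, h5⟩ := result k
  exact ⟨R, inferInstance, inferInstance, ρ, h1, h2, h3, h4, h5⟩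

/-- The failure is a failure of depth: the induced algebra is a finitely generated domain with a
prime of depth at most two and dimension at least three. -/
theorem failure_at_a_prime (k : Type u) [Field k] [IsAlgClosed k] :
    ∃ (R : Type u) (_ : CommRing R) (_ : Algebra k R) (ρ : borel k →* (R ≃ₐ[k] R)),
      (∀ r : R, (fun b : borel k => ρ b r) ∈ morphisms k R (fun b : borel k => b.1)) ∧
      IsDomain R ∧ Algebra.FiniteType k R ∧ Algebra.Smooth k R ∧ IsCohenMacaulay R ∧
      IsDomain (induced ρ) ∧ Algebra.FiniteType k (induced ρ) ∧ IsNoetherianRing (induced ρ) ∧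
      ∃ (p : Ideal (induced ρ)) (_ : p.IsPrime), depth (Localization.AtPrime p) ≤ 2 ∧
        3 ≤ ringKrullDim (Localization.AtPrime p) := by
  obtain ⟨n, hn⟩ : ∃ n : ℕ, ((n + 3 : ℕ) : k) ≠ 0 := by
    by_cases h : ((0 + 3 : ℕ) : k) = 0
    · refine ⟨1, fun h' => one_ne_zero (α := k) ?_⟩
      push_cast at h h'
      linear_combination h' - h
    · exact ⟨0, h⟩
  obtain ⟨ζ, hζ⟩ := IsAlgClosed.exists_pow_nat_eq (-1 : k) (n := n + 3) (by omega)
  have := RF_dom hn ζ hζ
  have := RS_smooth hn
  have := induced_ft (k := k) (n := n)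
  exact ⟨RS k n, inferInstance, inferInstance, rhoS k n, rhoS_rational, inferInstance,
    inferInstance, ‹_›, RS_cm, induced_dom _, this,
    Algebra.FiniteType.isNoetherianRing k (induced (rhoS k n)), induced_fail ζ hζ⟩

/-- Control: if the action of `B` is the restriction of a rational action of `G`, the induced
algebra is `R` itself, so the property of the question holds. -/
theorem restricted_action (k : Type u) [Field k] [IsAlgClosed k] (R : Type u) [CommRing R]
    [Algebra k R] (σ : Matrix.SpecialLinearGroup (Fin 2) k →* (R ≃ₐ[k] R))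
    (hσ : ∀ r : R, (fun g => σ g r) ∈ morphisms k R (fun g => g))
    (ρ : borel k →* (R ≃ₐ[k] R)) (h : ∀ b : borel k, ρ b = σ b.1) :
    (∃ e : induced ρ ≃ₐ[k] R, ∀ f, e f = f.1 1) ∧
      (IsCohenMacaulay R → IsCohenMacaulay (induced ρ)) := by
  obtain ⟨e, he⟩ := restricted σ hσ ρ h
  exact ⟨⟨e, he⟩, fun hR => hR.of_equiv e.symm.toRingEquiv⟩

/-- Control: the morphisms on `G` form the coordinate ring of `SL_2` over `R`. -/
theorem coordinate_ring_G (k : Type u) [Field k] [IsAlgClosed k] (R A : Type u) [CommRing R]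
    [Algebra k R] [CommRing A] [Algebra R A] (γ : Matrix.SpecialLinearGroup (Fin 2) A) :
    ∃! φ : morphisms k R (fun g : Matrix.SpecialLinearGroup (Fin 2) k => g) →ₐ[R] A,
      ∀ f i j, (∀ g, f.1 g = algebraMap k R (g.1 i j)) → φ f = γ.1 i j :=
  morph_lift _ _ fun _ h => dense h _ γ.2

/-- Control: the morphisms on `B` form the coordinate ring of the upper triangular group. -/
theorem coordinate_ring_B (k : Type u) [Field k] [IsAlgClosed k] (R A : Type u) [CommRing R]
    [Algebra k R] [CommRing A] [Algebra R A] (γ : Matrix.SpecialLinearGroup (Fin 2) A)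
    (h0 : γ.1 1 0 = 0) :
    ∃! φ : morphisms k R (fun b : borel k => b.1) →ₐ[R] A,
      ∀ f i j, (∀ b, f.1 b = algebraMap k R (b.1.1 i j)) → φ f = γ.1 i j :=
  morph_lift _ _ fun _ h => denseB h _ γ.2 h0

/-- Control: depth is at most dimension in a Noetherian local ring. -/
theorem depth_le_dimension (A : Type u) [CommRing A] [IsLocalRing A] [IsNoetherianRing A] :
    (depth A : WithBot ℕ∞) ≤ ringKrullDim A := depth_le_dim A

end Pool.Agent.P.MP_271f8e_al.VariantSmooth
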